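import Pool.Agent.H28.NP.Def
import Pool.Agent.H60.NH.NMom
import Pool.Agent.H60.NH.NInt
import Pool.Agent.H60.NH.NCont
import Pool.Agent.H60.NH.NR1a
import Pool.Agent.H60.NT.RgGeo

/-!
# [H28 NP BSMALL] (4.1): the measure of the bad set

* `mor_br`: `f' = (br x₀ j).indicator f`, `ε' = C₁ min ε ((∫ in br, f^n)^(1/n))`, `C₁ = max 1 ((vb n)^((n-1)/n))`.
  `∫ in ball y r, f' ≤ ∫ in ball y r, f ≤ ε r^(n-1)`, and by Hölder
  `∫ in ball y r, f' ≤ |ball y r|^(1-1/n) (∫ in br, f^n)^(1/n)`, `|ball y r| = vb n r^n` (`vol_ball`). The other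
  fields of `Mor`: `br` is measurable (`rg_meas`), `Integrable.indicator`.
* `b_small'`: first `gs f x₀ T c = ⋂ j K, ({x | 1 ≤ j → 1/p2 j ≤ ‖x - x₀‖}ᶜ ∪ {NN f K (j-1+T) ≤ c})` is measurable (`NN_cont`). If
  `x ∈ fr x₀ j \ gs f x₀ T c` there are `j'`, `K` with `1 ≤ j'`, `1/p2 j' ≤ ‖x - x₀‖ ≤ 4/p2 j`, so `j' ≥ j - 2`, and
  `c < NN f K (j'-1+T) x ≤ NN f K (j-3+T) x` (`NN_mono`, `4 ≤ j`). For `i ≥ j-3+T`, `T ≥ 20`: `8/p2 i ≤ 1/(2^14 p2 j)`, so
  `ball x (8/p2 i) ⊆ br x₀ j` (for `x ∈ fr x₀ j`) and `AA f i x = AA f' i x`. So `c < NN f' K (j-3+T) x ≤ NN f' K (j-3) x`. The sets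
  `{x ∈ ball x₀ (1/p2 (j-3)) | c < NN f' K (j-3) x}` increase with `K` (`NN_mono`), `fr x₀ j ⊆ ball x₀ (8/p2 j)` and `8/p2 j = 1/p2 (j-3)`;
  Chebyshev (`mul_meas_ge_le_integral_of_nonneg` for `NN f' K (j-3)^q`) and `NN_moment` (for `f'`, `ε'`, at `k = j - 3`):
  `c^q |set| ≤ C₀ q! (C₀ ε')^q 8^n / p2 j^n`; the union over `K` has the same bound (`tendsto_measure_iUnion` / monotone).
  `C = max 1 (8^n C₀ q! (C₀ C₁)^q / c^q)`.
-/

set_option autoImplicit false

namespace H28NP

open H60NH H60NT MeasureTheory Metric Set Filter Topology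
open scoped ENNReal NNReal ContDiff

private theorem bs_hold {α : Type*} [MeasurableSpace α] {ν : Measure α} [IsFiniteMeasure ν] (q : ℕ)
    (hq : 1 ≤ q) (h : α → ℝ) (h0 : ∀ x, 0 ≤ h x) (h2 : Integrable (fun x => h x ^ q) ν) :
    ∫ x, h x ∂ν ≤ (∫ x, h x ^ q ∂ν) ^ (1 / (q : ℝ)) * (ν.real univ) ^ (1 - 1 / (q : ℝ)) := by
  rcases Nat.lt_or_ge 1 q with hq1 | hq1
  · have hq0 : (1 : ℝ) < q := by exact_mod_cast hq1
    have hq00 : (0 : ℝ) < q := by linarith
    have h1 := hold_w (ν := ν) (a := fun y => h y ^ q) (b := fun _ => (1 : ℝ)) h2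
      (integrable_const _) (fun y => pow_nonneg (h0 y) _) (fun _ => zero_le_one)
      (t := 1 - 1 / (q : ℝ)) (by rw [sub_pos, div_lt_one hq00]; exact hq0) (by
        have : 0 < 1 / (q : ℝ) := by positivity
        linarith)
    have h3 : ∀ y, (h y ^ q) ^ (1 - (1 - 1 / (q : ℝ))) * (1 : ℝ) ^ (1 - 1 / (q : ℝ)) = h y := by
      intro y
      rw [Real.one_rpow, mul_one, sub_sub_cancel, ← Real.rpow_natCast (h y) q,
        ← Real.rpow_mul (h0 y), mul_one_div_cancel hq00.ne', Real.rpow_one]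
    simp_rw [h3] at h1
    rw [sub_sub_cancel, integral_const, smul_eq_mul, mul_one] at h1
    exact h1
  · obtain rfl : q = 1 := by omega
    simp

private theorem bs_p2 (j : ℕ) : 0 < p2 j := by unfold p2; positivity

theorem mor_br (n : ℕ) (hn : 1 ≤ n) : ∃ C₁ : ℝ, 1 ≤ C₁ ∧ ∀ (f : E n → ℝ) (ε : ℝ), Mor f ε →
    ∀ (x₀ : E n) (j : ℕ), Mor ((br x₀ j).indicator f)
      (C₁ * min ε ((∫ x in br x₀ j, f x ^ n) ^ (1 / (n : ℝ)))) := by
  have hvb := vb_pos n
  refine ⟨max 1 ((vb n) ^ (1 - 1 / (n : ℝ))), le_max_left _ _, ?_⟩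
  intro f ε hf x₀ j
  have hbr : MeasurableSet (br x₀ j) := (rg_meas x₀ j).2.2
  set X : ℝ := (∫ x in br x₀ j, f x ^ n) ^ (1 / (n : ℝ)) with hX
  have hI0 : 0 ≤ ∫ x in br x₀ j, f x ^ n :=
    integral_nonneg (fun x => pow_nonneg (hf.nonneg x) n)
  have hX0 : 0 ≤ X := Real.rpow_nonneg hI0 _
  set C₁ : ℝ := max 1 ((vb n) ^ (1 - 1 / (n : ℝ))) with hC₁
  have hC1 : 1 ≤ C₁ := le_max_left _ _
  have hC2 : (vb n) ^ (1 - 1 / (n : ℝ)) ≤ C₁ := le_max_right _ _
  have hpow : (fun x => (br x₀ j).indicator f x ^ n) = (br x₀ j).indicator (fun x => f x ^ n) := by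
    funext x
    by_cases hx : x ∈ br x₀ j
    · rw [indicator_of_mem hx, indicator_of_mem hx]
    · rw [indicator_of_notMem hx, indicator_of_notMem hx, zero_pow (by omega)]
  refine ⟨hf.meas.indicator hbr, fun x => indicator_nonneg (fun y _ => hf.nonneg y) x,
    hf.int.indicator hbr, ?_, ?_, ?_, ?_⟩
  · rw [hpow]
    exact hf.intn.indicator hbr
  · intro x hx
    by_cases hx' : x ∈ br x₀ j
    · rw [indicator_of_mem hx', hf.supp x hx]
    · rw [indicator_of_notMem hx']
  · exact mul_nonneg (by linarith) (le_min hf.eps hX0)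
  · intro y r hr
    have e1 : ∫ x in ball y r, (br x₀ j).indicator f x = ∫ x in ball y r ∩ br x₀ j, f x :=
      setIntegral_indicator hbr
    have b1 : ∫ x in ball y r ∩ br x₀ j, f x ≤ ε * r ^ (n - 1) :=
      (setIntegral_mono_set hf.int.integrableOn (Eventually.of_forall (fun x => hf.nonneg x))
        (LE.le.eventuallyLE inter_subset_left)).trans (hf.bound y r hr)
    have hvol : volume (ball y r) = ENNReal.ofReal (vb n * r ^ n) := vol_ball y r hr
    have hfin : volume (ball y r ∩ br x₀ j) < ⊤ :=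
      (measure_mono inter_subset_left).trans_lt (by rw [hvol]; exact ENNReal.ofReal_lt_top)
    have : IsFiniteMeasure (volume.restrict (ball y r ∩ br x₀ j)) :=
      ⟨by rw [Measure.restrict_apply_univ]; exact hfin⟩
    have b2 : ∫ x in ball y r ∩ br x₀ j, f x ≤ (vb n) ^ (1 - 1 / (n : ℝ)) * X * r ^ (n - 1) := by
      have h1 := bs_hold (ν := volume.restrict (ball y r ∩ br x₀ j)) n hn f hf.nonneg
        hf.intn.integrableOn
      refine h1.trans ?_
      have h2 : (∫ x in ball y r ∩ br x₀ j, f x ^ n) ^ (1 / (n : ℝ)) ≤ X := by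
        refine Real.rpow_le_rpow (integral_nonneg (fun x => pow_nonneg (hf.nonneg x) n)) ?_
          (by positivity)
        exact setIntegral_mono_set hf.intn.integrableOn
          (Eventually.of_forall (fun x => pow_nonneg (hf.nonneg x) n))
          (LE.le.eventuallyLE inter_subset_right)
      have hn0 : (1 : ℝ) ≤ n := by exact_mod_cast hn
      have hexp : 0 ≤ 1 - 1 / (n : ℝ) := by
        rw [sub_nonneg, div_le_one (by linarith)]
        exact hn0
      have h3 : ((volume.restrict (ball y r ∩ br x₀ j)).real univ) ^ (1 - 1 / (n : ℝ)) ≤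
          (vb n) ^ (1 - 1 / (n : ℝ)) * r ^ (n - 1) := by
        have h4 : (volume.restrict (ball y r ∩ br x₀ j)).real univ ≤ vb n * r ^ n := by
          rw [Measure.real, Measure.restrict_apply_univ]
          refine ENNReal.toReal_le_of_le_ofReal (by positivity) ?_
          rw [← hvol]
          exact measure_mono inter_subset_left
        refine (Real.rpow_le_rpow measureReal_nonneg h4 hexp).trans (le_of_eq ?_)
        rw [Real.mul_rpow hvb.le (by positivity), ← Real.rpow_natCast r n, ← Real.rpow_mul hr.le]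
        congr 1
        rw [← Real.rpow_natCast r (n - 1), Nat.cast_sub hn]
        congr 1
        push_cast
        have : (n : ℝ) ≠ 0 := by positivity
        field_simp
      calc (∫ x in ball y r ∩ br x₀ j, f x ^ n) ^ (1 / (n : ℝ)) *
            ((volume.restrict (ball y r ∩ br x₀ j)).real univ) ^ (1 - 1 / (n : ℝ))
          ≤ X * ((vb n) ^ (1 - 1 / (n : ℝ)) * r ^ (n - 1)) :=
            mul_le_mul h2 h3 (by positivity) hX0
        _ = (vb n) ^ (1 - 1 / (n : ℝ)) * X * r ^ (n - 1) := by ring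
    rw [e1]
    have hr0 : 0 ≤ r ^ (n - 1) := by positivity
    rcases le_total ε X with hc | hc
    · rw [min_eq_left hc]
      refine b1.trans (mul_le_mul_of_nonneg_right ?_ hr0)
      have := hf.eps
      nlinarith
    · rw [min_eq_right hc]
      refine b2.trans (mul_le_mul_of_nonneg_right ?_ hr0)
      exact mul_le_mul_of_nonneg_right hC2 hX0

private theorem bs_meas {n : ℕ} (hn : 1 ≤ n) {f : E n → ℝ} {ε : ℝ} (hf : Mor f ε) (x₀ : E n)
    (T : ℕ) (c : ℝ) : MeasurableSet (gs f x₀ T c) := by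
  have h : gs f x₀ T c = ⋂ (j' : ℕ), ⋂ (K : ℕ),
      {x | 1 ≤ j' → 1 / p2 j' ≤ ‖x - x₀‖ → NN f K (j' - 1 + T) x ≤ c} := by
    ext x
    simp only [gs, mem_setOf_eq, mem_iInter]
  rw [h]
  refine MeasurableSet.iInter fun j' => MeasurableSet.iInter fun K => ?_
  by_cases h1 : 1 ≤ j'
  · have h2 : {x : E n | 1 ≤ j' → 1 / p2 j' ≤ ‖x - x₀‖ → NN f K (j' - 1 + T) x ≤ c} =
        {x | 1 / p2 j' ≤ ‖x - x₀‖}ᶜ ∪ {x | NN f K (j' - 1 + T) x ≤ c} := by
      ext x
      simp only [mem_setOf_eq, h1, true_imp_iff, mem_union, mem_compl_iff]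
      exact imp_iff_not_or
    rw [h2]
    refine MeasurableSet.union (MeasurableSet.compl ?_) ?_
    · exact measurableSet_le measurable_const (measurable_id.sub_const x₀).norm
    · exact measurableSet_le (NN_cont hn hf.int K _).measurable measurable_const
  · have h2 : {x : E n | 1 ≤ j' → 1 / p2 j' ≤ ‖x - x₀‖ → NN f K (j' - 1 + T) x ≤ c} = univ := by
      ext x
      simp only [mem_setOf_eq, mem_univ, iff_true]
      intro h3
      exact absurd h3 h1
    rw [h2]
    exact MeasurableSet.univ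

theorem b_small' (n : ℕ) (hn : 3 ≤ n) (c : ℝ) (hc : 0 < c) (q : ℕ) : ∃ C : ℝ, 1 ≤ C ∧
    ∀ (f : E n → ℝ) (ε : ℝ), Mor f ε → ∀ (x₀ : E n) (j T : ℕ), 4 ≤ j → 20 ≤ T →
      MeasurableSet (gs f x₀ T c) ∧
      p2 j ^ n * (volume (fr x₀ j \ gs f x₀ T c)).toReal ≤
        C * (min ε ((∫ x in br x₀ j, f x ^ n) ^ (1 / (n : ℝ)))) ^ q := by
  obtain ⟨C₁, hC1, hmor⟩ := mor_br n (by omega)
  obtain ⟨C₀, hC0, hmom⟩ := NN_moment n (by omega)
  refine ⟨max 1 (8 ^ n * (C₀ * (q.factorial * (C₀ * C₁) ^ q)) / c ^ q), le_max_left _ _, ?_⟩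
  intro f ε hf x₀ j T hj hT
  refine ⟨bs_meas (by omega) hf x₀ T c, ?_⟩
  set Y : ℝ := min ε ((∫ x in br x₀ j, f x ^ n) ^ (1 / (n : ℝ))) with hY
  have hY0 : 0 ≤ Y := le_min hf.eps (Real.rpow_nonneg
    (integral_nonneg (fun x => pow_nonneg (hf.nonneg x) n)) _)
  set f' : E n → ℝ := (br x₀ j).indicator f with hf'
  have hM : Mor f' (C₁ * Y) := hmor f ε hf x₀ j
  obtain ⟨k, rfl⟩ : ∃ k, j = k + 3 := ⟨j - 3, by omega⟩
  have hpk := bs_p2 k
  have hp3 : p2 (k + 3) = 8 * p2 k := by unfold p2; rw [pow_add]; ring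
  set B : ℝ := C₀ * (q.factorial * (C₀ * (C₁ * Y)) ^ q) / p2 k ^ n / c ^ q with hB
  have hB0 : 0 ≤ B := by positivity
  have hcov : fr x₀ (k + 3) \ gs f x₀ T c ⊆
      ⋃ K : ℕ, {x | x ∈ ball x₀ (1 / p2 k) ∧ c < NN f' K k x} := by
    rintro x ⟨hx1, hx2⟩
    simp only [gs, mem_setOf_eq, not_forall, not_le] at hx2
    obtain ⟨j', K, h1, h2, h3⟩ := hx2
    rw [mem_iUnion]
    refine ⟨K, ?_, ?_⟩
    · rw [mem_ball_iff_norm]
      refine lt_of_le_of_lt hx1.2 ?_
      rw [hp3, div_lt_div_iff₀ (by positivity) hpk]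
      linarith
    · have h4 : k + 3 ≤ j' + 2 := by
        have h5 : 1 / p2 j' ≤ 4 / p2 (k + 3) := h2.trans hx1.2
        rw [div_le_div_iff₀ (bs_p2 _) (bs_p2 _)] at h5
        have h6 : p2 (k + 3) ≤ p2 (j' + 2) := by
          have : p2 (j' + 2) = 4 * p2 j' := by unfold p2; rw [pow_add]; ring
          rw [this]; linarith
        unfold p2 at h6
        exact (pow_le_pow_iff_right₀ (by norm_num)).1 h6
      have h5 : NN f K (j' - 1 + T) x ≤ NN f K (k + T) x :=
        NN_mono hf le_rfl (by omega) x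
      have h6 : NN f K (k + T) x = NN f' K (k + T) x := by
        unfold NN
        refine Finset.sum_congr rfl (fun i hi => ?_)
        rw [Finset.mem_Ico] at hi
        unfold AA
        congr 1
        refine setIntegral_congr_fun measurableSet_ball (fun y hy => ?_)
        have hyb : y ∈ br x₀ (k + 3) := by
          have hpi : 2 ^ 17 * p2 (k + 3) ≤ p2 i := by
            unfold p2
            rw [← pow_add]
            exact pow_le_pow_right₀ (by norm_num) (by omega)
          have hq3 := bs_p2 (k + 3)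
          have hr : 8 / p2 i ≤ 1 / (16384 * p2 (k + 3)) := by
            rw [div_le_div_iff₀ (bs_p2 i) (by positivity)]
            linarith
          rw [mem_ball_iff_norm] at hy
          have e1 : 1 / (16384 * p2 (k + 3)) = 1 / 16384 * (p2 (k + 3))⁻¹ := by
            field_simp
          have e2 : 1 / (2 * p2 (k + 3)) = 1 / 2 * (p2 (k + 3))⁻¹ := by field_simp
          have e3 : 1 / (8 * p2 (k + 3)) = 1 / 8 * (p2 (k + 3))⁻¹ := by field_simp
          have e4 : 4 / p2 (k + 3) = 4 * (p2 (k + 3))⁻¹ := by field_simp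
          have e5 : 16 / p2 (k + 3) = 16 * (p2 (k + 3))⁻¹ := by field_simp
          have hi0 : 0 < (p2 (k + 3))⁻¹ := by positivity
          obtain ⟨hx3, hx4⟩ := hx1
          have t1 : ‖x - x₀‖ ≤ ‖y - x‖ + ‖y - x₀‖ := by
            have := norm_sub_le (y - x₀) (y - x)
            have e : (y - x₀) - (y - x) = x - x₀ := by abel
            rw [e] at this
            linarith
          have t2 : ‖y - x₀‖ ≤ ‖y - x‖ + ‖x - x₀‖ := by
            have := norm_add_le (y - x) (x - x₀)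
            rwa [sub_add_sub_cancel] at this
          constructor
          · rw [e3]; rw [e2] at hx3; rw [e1] at hr; linarith
          · rw [e5]; rw [e4] at hx4; rw [e1] at hr; linarith
        rw [hf']
        exact (indicator_of_mem hyb f).symm
      have h7 : NN f' K (k + T) x ≤ NN f' K k x := NN_mono hM le_rfl (by omega) x
      show c < NN f' K k x
      linarith
  have hU : ∀ K : ℕ, volume {x | x ∈ ball x₀ (1 / p2 k) ∧ c < NN f' K k x} ≤
      ENNReal.ofReal B := by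
    intro K
    have h1 := hmom f' (C₁ * Y) hM q K k x₀
    have hcont : Continuous (fun y => NN f' K k y ^ q) := (NN_cont (by omega) hM.int K k).pow q
    have hint : IntegrableOn (fun y => NN f' K k y ^ q) (ball x₀ (1 / p2 k)) :=
      nint_cont hcont x₀ (1 / p2 k)
    have h2 := mul_meas_ge_le_integral_of_nonneg (μ := volume.restrict (ball x₀ (1 / p2 k)))
      (f := fun y => NN f' K k y ^ q)
      (Eventually.of_forall (fun y => pow_nonneg (NN_nonneg hM K k y) q)) hint (c ^ q)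
    have hcq : 0 < c ^ q := by positivity
    have h3 : (volume.restrict (ball x₀ (1 / p2 k))).real {x | c ^ q ≤ NN f' K k x ^ q} ≤ B := by
      rw [hB, le_div_iff₀ hcq, mul_comm]
      exact h2.trans h1
    have hvol := vol_ball x₀ (1 / p2 k) (by positivity)
    have hfin : volume (ball x₀ (1 / p2 k)) ≠ ⊤ := by rw [hvol]; exact ENNReal.ofReal_ne_top
    have h4 : volume {x | x ∈ ball x₀ (1 / p2 k) ∧ c < NN f' K k x} ≤
        (volume.restrict (ball x₀ (1 / p2 k))) {x | c ^ q ≤ NN f' K k x ^ q} := by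
      rw [Measure.restrict_apply' measurableSet_ball]
      refine measure_mono ?_
      rintro x ⟨hx1, hx2⟩
      exact ⟨pow_le_pow_left₀ hc.le (le_of_lt hx2) q, hx1⟩
    refine h4.trans ?_
    rw [← ENNReal.ofReal_toReal (a := (volume.restrict (ball x₀ (1 / p2 k)))
      {x | c ^ q ≤ NN f' K k x ^ q})]
    · exact ENNReal.ofReal_le_ofReal h3
    · rw [Measure.restrict_apply' measurableSet_ball]
      exact ne_top_of_le_ne_top hfin (measure_mono inter_subset_right)
  have hmono : Monotone (fun K : ℕ => {x | x ∈ ball x₀ (1 / p2 k) ∧ c < NN f' K k x}) := by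
    intro K K' hK x hx
    exact ⟨hx.1, lt_of_lt_of_le hx.2 (NN_mono hM hK le_rfl x)⟩
  have hV : volume (fr x₀ (k + 3) \ gs f x₀ T c) ≤ ENNReal.ofReal B := by
    refine (measure_mono hcov).trans ?_
    rw [hmono.measure_iUnion]
    exact iSup_le hU
  have hV' : (volume (fr x₀ (k + 3) \ gs f x₀ T c)).toReal ≤ B :=
    ENNReal.toReal_le_of_le_ofReal hB0 hV
  calc p2 (k + 3) ^ n * (volume (fr x₀ (k + 3) \ gs f x₀ T c)).toReal
      ≤ p2 (k + 3) ^ n * B := mul_le_mul_of_nonneg_left hV' (by unfold p2; positivity)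
    _ = 8 ^ n * (C₀ * (q.factorial * (C₀ * C₁) ^ q)) / c ^ q * Y ^ q := by
        rw [hB, hp3, mul_pow]
        have : p2 k ^ n ≠ 0 := by positivity
        field_simp
        ring
    _ ≤ _ := mul_le_mul_of_nonneg_right (le_max_right _ _) (by positivity)

end H28NP
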