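import Pool.Agent.H60.NT.Def

/-!
MP_d943ab_an, part on rings (Sections 4a, 4b, (4.1) of proofs id 299): definitions.
-/

set_option autoImplicit false

namespace H28NP

open H60NH H60NT MeasureTheory Metric Set Filter Topology
open scoped ENNReal NNReal ContDiff

/-- The hypotheses on a map `v` and its weak gradient `g` (all on the ball of radius 64). -/
structure VG {n m : ℕ} (v : E n → E m) (g : E n → Fin n → E m) : Prop where
  wg : IsWeakGrad (ball 0 64) v g
  out_v : ∀ x, x ∉ ball (0 : E n) 64 → v x = 0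
  out_g : ∀ x, x ∉ ball (0 : E n) 64 → ∀ i, g x i = 0
  int_v : Integrable v
  meas_g : ∀ i, Measurable (fun x => g x i)
  int_g : Integrable (fun x => gn (g x))
  int_gn : Integrable (fun x => gn (g x) ^ n)

/-- The averaged potential of `h` at the scale `2^-i`. -/
noncomputable def pw {n : ℕ} (h : E n → ℝ) (i : ℕ) (x : E n) : ℝ :=
  p2 i ^ (n - 1) * ∫ y in ball x (1 / p2 i), h y

/-- The sum of the potentials at the scales `2^-i`, `k ≤ i < K`. -/
noncomputable def ps {n : ℕ} (h : E n → ℝ) (K k : ℕ) (x : E n) : ℝ :=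
  ∑ i ∈ Finset.Ico k K, pw h i x

/-- The gradient restricted to the fat ring and to a set `S`. -/
noncomputable def gr {n m : ℕ} (g : E n → Fin n → E m) (x₀ : E n) (j : ℕ) (S : Set (E n))
    (x : E n) : ℝ :=
  (fr x₀ j ∩ S).indicator (fun y => gn (g y)) x

end H28NP
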