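import Pool.Agent.H28.NP.Def
import Pool.Agent.H60.NH.MBd
import Pool.Agent.H60.NT.RgGeo

/-!
# [H28 NP FRBALL] Small balls about points of the rings; derivative and increments of the mollified map

* `fr_ball`: `1/p2 i ≤ 1/(32 p2 j)` for `i ≥ j + 5`; `2/3 - 1/32 ≥ 1/2`, `3 + 1/32 ≤ 4`; triangle inequality.
* `gr_nonneg`, `gr_int`, `gr_pow_int`: indicator of `gn (g ·) ≥ 0` (`Real.sqrt_nonneg`); `Integrable.indicator` with the measurable set
  `fr x₀ j ∩ S` (`rg_meas`); `(indicator s f x)^q = indicator s (f^q) x` for `q ≠ 0`; for `1 ≤ q ≤ n`: `t^q ≤ t + t^n` for `t ≥ 0`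
  and measurability.
* `gr_ball`: `gr g x₀ j univ = gn (g ·)` on the ball, by `fr_ball`.
* `w_der`: `ubar_der_bd` with `k = j + 5`: `‖x‖ + 1/p2 (j+5) ≤ 2 + 3 + 1 < 64`, then the ball is contained in `fr x₀ j`
  (`setIntegral_mono_set`), `p2 (j+5)^n = 32^n p2 j^n`.
  A vector `h` is `∑ i, h i • ev i`, `|h i| ≤ ‖h‖`: the operator norm is at most the sum of the `‖fderiv … (ev i)‖`.
* `w_inc`: `ubar_diff_bd` in the same way, and sum over `i ∈ Ico (j+5) K` (`Finset.sum_range_succ`-type induction on `K`).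
-/

set_option autoImplicit false

namespace H28NP

open H60NH H60NT MeasureTheory Metric Set Filter Topology
open scoped ENNReal NNReal ContDiff

private theorem fb_p2 (j : ℕ) : 0 < p2 j := by unfold p2; positivity

private theorem fb_sc {i j : ℕ} (hi : j + 5 ≤ i) : 1 / p2 i ≤ 1 / 32 * (1 / p2 j) := by
  have h1 : 32 * p2 j ≤ p2 i := by
    have : (32 : ℝ) * p2 j = p2 (j + 5) := by unfold p2; rw [pow_add]; ring
    rw [this]
    unfold p2
    exact pow_le_pow_right₀ (by norm_num) hi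
  have hp := fb_p2 j
  calc 1 / p2 i ≤ 1 / (32 * p2 j) := one_div_le_one_div_of_le (by positivity) h1
    _ = 1 / 32 * (1 / p2 j) := by field_simp

private theorem fb_int {n m : ℕ} {v : E n → E m} {g : E n → Fin n → E m} (hv : VG v g)
    (q : ℕ) (hq : 1 ≤ q) (hqn : q ≤ n) : Integrable (fun x => gn (g x) ^ q) := by
  have hm : Measurable (fun x => gn (g x)) := by
    unfold gn
    exact (Finset.measurable_sum _ (fun i _ => (hv.meas_g i).norm.pow_const 2)).sqrt
  refine (hv.int_g.add hv.int_gn).mono' (hm.pow_const q).aestronglyMeasurable ?_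
  refine Eventually.of_forall (fun x => ?_)
  have h0 : 0 ≤ gn (g x) := Real.sqrt_nonneg _
  rw [Real.norm_of_nonneg (pow_nonneg h0 q), Pi.add_apply]
  rcases le_total (gn (g x)) 1 with h | h
  · have h1 : gn (g x) ^ q ≤ gn (g x) ^ 1 := pow_le_pow_of_le_one h0 h hq
    rw [pow_one] at h1
    have h2 : 0 ≤ gn (g x) ^ n := pow_nonneg h0 n
    linarith
  · have h1 : gn (g x) ^ q ≤ gn (g x) ^ n := pow_le_pow_right₀ h hqn
    linarith

theorem fr_ball {n : ℕ} (x₀ : E n) (j : ℕ) (x : E n) (h1 : 2 / (3 * p2 j) ≤ ‖x - x₀‖)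
    (h2 : ‖x - x₀‖ ≤ 3 / p2 j) (i : ℕ) (hi : j + 5 ≤ i) : ball x (1 / p2 i) ⊆ fr x₀ j := by
  intro y hy
  rw [mem_ball_iff_norm] at hy
  have h3 := fb_sc hi
  have hp := fb_p2 j
  have e1 : 2 / (3 * p2 j) = 2 / 3 * (1 / p2 j) := by field_simp
  have e2 : 3 / p2 j = 3 * (1 / p2 j) := by ring
  have e3 : 1 / (2 * p2 j) = 1 / 2 * (1 / p2 j) := by field_simp
  have e4 : 4 / p2 j = 4 * (1 / p2 j) := by ring
  have h0 : 0 < 1 / p2 j := by positivity
  rw [e1] at h1
  rw [e2] at h2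
  have t1 : ‖x - x₀‖ ≤ ‖y - x‖ + ‖y - x₀‖ := by
    have := norm_sub_le (y - x₀) (y - x)
    have e : (y - x₀) - (y - x) = x - x₀ := by abel
    rw [e] at this
    linarith
  have t2 : ‖y - x₀‖ ≤ ‖y - x‖ + ‖x - x₀‖ := by
    have := norm_add_le (y - x) (x - x₀)
    rwa [sub_add_sub_cancel] at this
  constructor
  · rw [e3]; linarith
  · rw [e4]; linarith

theorem gr_nonneg {n m : ℕ} (g : E n → Fin n → E m) (x₀ : E n) (j : ℕ) (S : Set (E n)) (x : E n) :
    0 ≤ gr g x₀ j S x :=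
  indicator_nonneg (fun y _ => Real.sqrt_nonneg _) x

theorem gr_int {n m : ℕ} (hn : 1 ≤ n) {v : E n → E m} {g : E n → Fin n → E m} (hv : VG v g)
    (x₀ : E n) (j : ℕ) (S : Set (E n)) (hS : MeasurableSet S) (q : ℕ) (hq : 1 ≤ q) (hqn : q ≤ n) :
    Integrable (fun x => gr g x₀ j S x ^ q) ∧
      ∫ x, gr g x₀ j S x ^ q = ∫ x in fr x₀ j ∩ S, gn (g x) ^ q := by
  have hfr : MeasurableSet (fr x₀ j ∩ S) := (rg_meas x₀ j).2.1.inter hS
  have hpow : (fun x => gr g x₀ j S x ^ q) =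
      (fr x₀ j ∩ S).indicator (fun x => gn (g x) ^ q) := by
    funext x
    unfold gr
    by_cases hx : x ∈ fr x₀ j ∩ S
    · rw [indicator_of_mem hx, indicator_of_mem hx]
    · rw [indicator_of_notMem hx, indicator_of_notMem hx, zero_pow (by omega)]
  rw [hpow]
  exact ⟨(fb_int hv q hq hqn).indicator hfr, integral_indicator hfr⟩

theorem gr_pw {n m : ℕ} (g : E n → Fin n → E m) (x₀ : E n) (j : ℕ) (x : E n) (hx : x ∈ rg x₀ j)
    (i : ℕ) (hi : j + 5 ≤ i) :
    ∫ y in ball x (1 / p2 i), gr g x₀ j univ y = ∫ y in ball x (1 / p2 i), gn (g y) := by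
  refine setIntegral_congr_fun measurableSet_ball (fun y hy => ?_)
  have hp := fb_p2 j
  have hy' : y ∈ fr x₀ j ∩ univ := by
    refine ⟨fr_ball x₀ j x ?_ ?_ i hi hy, mem_univ _⟩
    · refine le_trans ?_ hx.1
      rw [div_le_div_iff₀ (by positivity) hp]
      linarith
    · refine hx.2.trans ?_
      rw [div_le_div_iff₀ hp hp]
      linarith
  unfold gr
  exact indicator_of_mem hy' _

theorem w_der {n m : ℕ} (hn : 1 ≤ n) {φ : E n → ℝ} {Θ : Fin n → E n → ℝ} {M : ℝ}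
    (hφ : Moll φ Θ M) {v : E n → E m} {g : E n → Fin n → E m} (hv : VG v g) (x₀ : E n) (j : ℕ)
    (hx₀ : ‖x₀‖ ≤ 2) (x : E n) (h1 : 2 / (3 * p2 j) ≤ ‖x - x₀‖) (h2 : ‖x - x₀‖ ≤ 3 / p2 j) :
    ‖fderiv ℝ (ubar φ v (j + 5)) x‖ ≤ n * 32 ^ n * M * (p2 j ^ n * ∫ y in fr x₀ j, gn (g y)) := by
  have hp := fb_p2 j
  have hM := hφ.one_le
  have hp1 : 1 ≤ p2 j := by unfold p2; exact one_le_pow₀ (by norm_num)
  have hx : ‖x‖ + 1 / p2 (j + 5) < 64 := by
    have h3 := fb_sc (le_refl (j + 5))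
    have h4 : 1 / p2 j ≤ 1 := by rw [div_le_one hp]; exact hp1
    have h5 : 3 / p2 j ≤ 3 := by rw [div_le_iff₀ hp]; linarith
    have h6 := norm_add_le (x - x₀) x₀
    rw [sub_add_cancel] at h6
    linarith
  set I : ℝ := ∫ y in fr x₀ j, gn (g y) with hI
  have hI0 : 0 ≤ I := integral_nonneg (fun y => Real.sqrt_nonneg _)
  have hb : ∀ i : Fin n, ‖fderiv ℝ (ubar φ v (j + 5)) x (ev i)‖ ≤ 32 ^ n * M * (p2 j ^ n * I) := by
    intro i
    refine (ubar_der_bd hφ hv.wg hv.int_v hv.out_v hv.out_g hv.int_g (j + 5) x hx i).trans ?_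
    have h1 : ∫ y in ball x (1 / p2 (j + 5)), gn (g y) ≤ I :=
      setIntegral_mono_set hv.int_g.integrableOn
        (Eventually.of_forall (fun y => Real.sqrt_nonneg _))
        (LE.le.eventuallyLE (fr_ball x₀ j x h1 h2 (j + 5) le_rfl))
    have h2 : p2 (j + 5) ^ n = 32 ^ n * p2 j ^ n := by
      rw [← mul_pow]
      congr 1
      unfold p2
      rw [pow_add]
      ring
    rw [h2]
    have h3 : 0 ≤ 32 ^ n * p2 j ^ n := by positivity
    calc M * (32 ^ n * p2 j ^ n * ∫ y in ball x (1 / p2 (j + 5)), gn (g y))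
        ≤ M * (32 ^ n * p2 j ^ n * I) :=
          mul_le_mul_of_nonneg_left (mul_le_mul_of_nonneg_left h1 h3) (by linarith)
      _ = 32 ^ n * M * (p2 j ^ n * I) := by ring
  refine ContinuousLinearMap.opNorm_le_bound _ (by positivity) (fun h => ?_)
  have hsum : h = ∑ i, h i • (ev i : E n) := by
    ext k
    simp only [WithLp.ofLp_sum, WithLp.ofLp_smul, Finset.sum_apply, Pi.smul_apply, smul_eq_mul]
    rw [Finset.sum_eq_single k]
    · simp [ev]
    · intro b _ hb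
      simp [ev, hb.symm]
    · intro hk
      exact absurd (Finset.mem_univ k) hk
  have e1 : fderiv ℝ (ubar φ v (j + 5)) x h =
      ∑ i, h i • fderiv ℝ (ubar φ v (j + 5)) x (ev i) := by
    conv_lhs => rw [hsum]
    rw [map_sum]
    exact Finset.sum_congr rfl (fun i _ => by rw [map_smul])
  rw [e1]
  refine (norm_sum_le _ _).trans ?_
  have h4 : ∀ i ∈ (Finset.univ : Finset (Fin n)),
      ‖h i • fderiv ℝ (ubar φ v (j + 5)) x (ev i)‖ ≤ ‖h‖ * (32 ^ n * M * (p2 j ^ n * I)) := by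
    intro i _
    rw [norm_smul]
    exact mul_le_mul (PiLp.norm_apply_le h i) (hb i) (norm_nonneg _) (norm_nonneg _)
  refine (Finset.sum_le_sum h4).trans (le_of_eq ?_)
  rw [Finset.sum_const, Finset.card_univ, Fintype.card_fin, nsmul_eq_mul]
  ring

theorem w_inc {n m : ℕ} (hn : 1 ≤ n) {φ : E n → ℝ} {Θ : Fin n → E n → ℝ} {M : ℝ}
    (hφ : Moll φ Θ M) {v : E n → E m} {g : E n → Fin n → E m} (hv : VG v g) (x₀ : E n) (j : ℕ)
    (hx₀ : ‖x₀‖ ≤ 2) (x : E n) (hx : x ∈ rg x₀ j) (K : ℕ) (hK : j + 5 ≤ K) :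
    ‖ubar φ v K x - ubar φ v (j + 5) x‖ ≤ n * M * ps (gr g x₀ j univ) K (j + 5) x := by
  have hp := fb_p2 j
  have hp1 : 1 ≤ p2 j := by unfold p2; exact one_le_pow₀ (by norm_num)
  have hx' : ∀ i, j + 5 ≤ i → ‖x‖ + 1 / p2 i < 64 := by
    intro i hi
    have h3 := fb_sc hi
    have h4 : 1 / p2 j ≤ 1 := by rw [div_le_one hp]; exact hp1
    have h5 : 2 / p2 j ≤ 2 := by rw [div_le_iff₀ hp]; linarith
    have h6 := norm_add_le (x - x₀) x₀
    rw [sub_add_cancel] at h6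
    have h7 := hx.2
    linarith
  induction K, hK using Nat.le_induction with
  | base =>
    rw [sub_self, norm_zero]
    unfold ps
    rw [Finset.Ico_self, Finset.sum_empty, mul_zero]
  | succ K hK ih =>
    have h1 := ubar_diff_bd hn hφ hv.wg hv.int_v hv.out_v hv.out_g hv.int_g K x (hx' K hK)
    rw [← gr_pw g x₀ j x hx K hK] at h1
    have h2 : ps (gr g x₀ j univ) (K + 1) (j + 5) x =
        ps (gr g x₀ j univ) K (j + 5) x + pw (gr g x₀ j univ) K x := by
      unfold ps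
      rw [Finset.sum_Ico_succ_top hK]
    have h3 : ubar φ v (K + 1) x - ubar φ v (j + 5) x =
        (ubar φ v (K + 1) x - ubar φ v K x) + (ubar φ v K x - ubar φ v (j + 5) x) := by abel
    rw [h2, h3, mul_add]
    refine (norm_add_le _ _).trans ?_
    unfold pw
    linarith

end H28NP
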