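import Pool.Agent.H28.NP.RadPot
import Pool.Agent.H60.NH.MBd
import Pool.Agent.H60.NT.RgGeo

/-!
# [H28 NP MNDIFF] Means over two thin shells

`Ψ` from `rad_pot`, `p = p2 j`, `Ψj i x = p^(n-1) * Ψ i (p • (x - x₀))`: smooth, zero unless `5/4 < p ‖x - x₀‖ < 7/4`, so compactly
supported in `closedBall x₀ (7/4/p) ⊆ ball 0 64` (`‖x₀‖ ≤ 2`, `p ≥ 1`), and
`∂_i Ψj i x = p^n * (∂_i Ψ i)(p • (x - x₀))` (chain rule), so `∑ i, ∂_i Ψj i x = p^n (μ - μ')(p • (x - x₀))`. By `hv.wg.eq` for each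
`i` and `v = 0`, `g = 0` outside the ball (see `mder_full` in `H60.NH.MDer` for the passage from `∫ in ball 0 64` to `∫`):
`Mn μ x₀ j v - Mn μ' x₀ j v = ∫ ∑ i, (∂_i Ψj i) • v = -∑ i ∫ Ψj i • g i`. (Integrability: bounded continuous times the integrable
`v`, resp. `g · i`; `‖g x i‖ ≤ gn (g x)`.) Norm: `|Ψj i| ≤ C p^(n-1)` and it is zero outside
`rg x₀ j` (`1 ≤ 5/4`, `7/4 ≤ 2`), so `≤ n C p^(n-1) ∫ in rg, gn g` (`le_gn`).
-/

set_option autoImplicit false

namespace H28NP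

open H60NH H60NT MeasureTheory Metric Set Filter Topology
open scoped ENNReal NNReal ContDiff

private theorem md_p2 (j : ℕ) : 1 ≤ p2 j := by unfold p2; exact one_le_pow₀ (by norm_num)

private theorem md_full {n m : ℕ} {R : ℝ} {v : E n → E m} (a : E n → ℝ)
    (h0 : ∀ x, x ∉ ball (0 : E n) R → v x = 0) :
    ∫ y in ball (0 : E n) R, a y • v y = ∫ y, a y • v y := by
  apply setIntegral_eq_integral_of_forall_compl_eq_zero
  intro y hy
  rw [h0 y hy, smul_zero]

private theorem md_sup {n : ℕ} {f : E n → ℝ} (hs : ∀ x, 7 / 4 < ‖x‖ → f x = 0) (c : ℝ)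
    (j : ℕ) (x₀ : E n) :
    Function.support (fun y => c * f (p2 j • (y - x₀))) ⊆ closedBall x₀ (7 / 4) := by
  intro y hy
  rw [Function.mem_support] at hy
  have h1 : f (p2 j • (y - x₀)) ≠ 0 := fun h => hy (by rw [h, mul_zero])
  have h2 : ¬ 7 / 4 < ‖p2 j • (y - x₀)‖ := fun h => h1 (hs _ h)
  rw [not_lt, norm_smul, Real.norm_of_nonneg (by linarith [md_p2 j])] at h2
  rw [mem_closedBall, dist_eq_norm]
  have h3 : 1 * ‖y - x₀‖ ≤ p2 j * ‖y - x₀‖ :=
    mul_le_mul_of_nonneg_right (md_p2 j) (norm_nonneg _)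
  linarith

private theorem md_test {n : ℕ} {f : E n → ℝ} (hf : ContDiff ℝ ∞ f)
    (hs : ∀ x, 7 / 4 < ‖x‖ → f x = 0) (c : ℝ) (j : ℕ) (x₀ : E n) (hx : ‖x₀‖ ≤ 2) :
    ContDiff ℝ ∞ (fun y => c * f (p2 j • (y - x₀))) ∧
      HasCompactSupport (fun y => c * f (p2 j • (y - x₀))) ∧
      tsupport (fun y => c * f (p2 j • (y - x₀))) ⊆ ball 0 64 ∧
      ∀ y h, fderiv ℝ (fun y => c * f (p2 j • (y - x₀))) y h =
        c * p2 j * fderiv ℝ f (p2 j • (y - x₀)) h := by
  have hsup := md_sup hs c j x₀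
  have hts : tsupport (fun y => c * f (p2 j • (y - x₀))) ⊆ closedBall x₀ (7 / 4) :=
    closure_minimal hsup isClosed_closedBall
  refine ⟨?_, ?_, ?_, ?_⟩
  · exact contDiff_const.mul (hf.comp ((contDiff_id.sub contDiff_const).const_smul (p2 j)))
  · exact (isCompact_closedBall x₀ (7 / 4)).of_isClosed_subset (isClosed_tsupport _) hts
  · refine hts.trans ?_
    intro y hy
    rw [mem_closedBall, dist_eq_norm] at hy
    rw [mem_ball, dist_zero_right]
    have := norm_add_le (y - x₀) x₀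
    rw [sub_add_cancel] at this
    linarith
  · intro y h
    have hd : HasFDerivAt (fun y : E n => p2 j • (y - x₀))
        (p2 j • (ContinuousLinearMap.id ℝ (E n))) y :=
      ((hasFDerivAt_id y).sub_const x₀).const_smul (p2 j)
    have hfd : HasFDerivAt f (fderiv ℝ f (p2 j • (y - x₀))) (p2 j • (y - x₀)) :=
      (hf.differentiable (by simp)).differentiableAt.hasFDerivAt
    have h2 := (hfd.comp y hd).const_mul c
    have h3 : fderiv ℝ (fun y => c * f (p2 j • (y - x₀))) y =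
        c • ((fderiv ℝ f (p2 j • (y - x₀))).comp
          (p2 j • (ContinuousLinearMap.id ℝ (E n)))) := h2.fderiv
    rw [h3]
    simp
    ring

private theorem md_int {n m : ℕ} {a : E n → ℝ} (ha : Continuous a) (hc : HasCompactSupport a)
    {v : E n → E m} (hv : Integrable v) : Integrable (fun y => a y • v y) := by
  obtain ⟨C, hC⟩ := hc.exists_bound_of_continuous ha
  exact hv.bdd_smul C ha.aestronglyMeasurable (Eventually.of_forall hC)

theorem mn_diff (n m : ℕ) (hn : 1 ≤ n) : ∃ C : ℝ, 1 ≤ C ∧ ∀ (μ μ' : E n → ℝ) (κ κ' : ℝ),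
    κ ≤ 1 / 4 → κ' ≤ 1 / 4 → Thin μ κ → Thin μ' κ' →
    ∀ (v : E n → E m) (g : E n → Fin n → E m), VG v g → ∀ (x₀ : E n) (j : ℕ), ‖x₀‖ ≤ 2 →
      ‖Mn μ x₀ j v - Mn μ' x₀ j v‖ ≤ C * (p2 j ^ (n - 1) * ∫ y in rg x₀ j, gn (g y)) := by
  obtain ⟨C, hC, H⟩ := rad_pot n hn
  have hn1 : (1 : ℝ) ≤ n := by exact_mod_cast hn
  refine ⟨n * C, one_le_mul_of_one_le_of_one_le hn1 hC, ?_⟩
  intro μ μ' κ κ' hκ hκ' hμ hμ' v g hv x₀ j hx₀
  obtain ⟨Ψ, h1, h2, h3, h4⟩ := H μ μ' κ κ' hκ hκ' hμ hμ'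
  have hp := md_p2 j
  have hp0 : 0 < p2 j := by linarith
  have hpn : p2 j ^ n = p2 j ^ (n - 1) * p2 j := by
    rw [← pow_succ]
    congr 1
    omega
  have hsupμ : ∀ x, 7 / 4 < ‖x‖ → μ x = 0 := fun x hx => hμ.supp x (by
    rw [lt_abs]; left; linarith)
  have hsupμ' : ∀ x, 7 / 4 < ‖x‖ → μ' x = 0 := fun x hx => hμ'.supp x (by
    rw [lt_abs]; left; linarith)
  have hT := fun i => md_test (h1 i) (fun x hx => h2 i x (Or.inr hx.le)) (p2 j ^ (n - 1)) j x₀ hx₀
  obtain ⟨a1, a2, -, -⟩ := md_test hμ.smooth hsupμ (p2 j ^ n) j x₀ hx₀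
  obtain ⟨b1, b2, -, -⟩ := md_test hμ'.smooth hsupμ' (p2 j ^ n) j x₀ hx₀
  -- the difference of the means
  have hI : ∀ i, Integrable (fun y => (fderiv ℝ (fun y => p2 j ^ (n - 1) * Ψ i (p2 j • (y - x₀))) y
      (ev i)) • v y) := by
    intro i
    obtain ⟨c1, c2, -, -⟩ := hT i
    exact md_int ((c1.continuous_fderiv (by simp)).clm_apply continuous_const)
      (c2.fderiv_apply (𝕜 := ℝ) (ev i)) hv.int_v
  have e1 : Mn μ x₀ j v - Mn μ' x₀ j v = - ∑ i, ∫ y, (p2 j ^ (n - 1) * Ψ i (p2 j • (y - x₀))) • g y i := by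
    have e2 : ∀ i, ∫ y, (p2 j ^ (n - 1) * Ψ i (p2 j • (y - x₀))) • g y i =
        - ∫ y, (fderiv ℝ (fun y => p2 j ^ (n - 1) * Ψ i (p2 j • (y - x₀))) y (ev i)) • v y := by
      intro i
      obtain ⟨c1, c2, c3, -⟩ := hT i
      have h5 := hv.wg.eq _ c1 c2 c3 i
      rw [md_full _ hv.out_v, md_full (v := fun y => g y i) _ (fun x hx => hv.out_g x hx i)] at h5
      rw [h5, neg_neg]
    unfold Mn
    rw [← integral_sub (md_int a1.continuous a2 hv.int_v) (md_int b1.continuous b2 hv.int_v)]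
    simp_rw [e2]
    rw [Finset.sum_neg_distrib, neg_neg, ← integral_finsetSum _ (fun i _ => hI i)]
    congr 1
    funext y
    rw [← Finset.sum_smul, ← sub_smul]
    congr 1
    rw [Finset.sum_congr rfl (fun i _ => (hT i).2.2.2 y (ev i)), ← Finset.mul_sum, h4, ← hpn]
    ring
  rw [e1, norm_neg]
  refine (norm_sum_le _ _).trans ?_
  have hb : ∀ i, ‖∫ y, (p2 j ^ (n - 1) * Ψ i (p2 j • (y - x₀))) • g y i‖ ≤
      C * (p2 j ^ (n - 1) * ∫ y in rg x₀ j, gn (g y)) := by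
    intro i
    have hrg : MeasurableSet (rg x₀ j) := (rg_meas x₀ j).1
    have hint : Integrable ((rg x₀ j).indicator (fun y => C * p2 j ^ (n - 1) * gn (g y))) :=
      (hv.int_g.const_mul _).indicator hrg
    refine (norm_integral_le_of_norm_le hint (Eventually.of_forall (fun y => ?_))).trans ?_
    · by_cases hy : y ∈ rg x₀ j
      · rw [indicator_of_mem hy, norm_smul, norm_mul, Real.norm_of_nonneg (by positivity), mul_comm C]
        have h6 : ‖Ψ i (p2 j • (y - x₀))‖ ≤ C := h3 i _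
        exact mul_le_mul (mul_le_mul_of_nonneg_left h6 (by positivity)) (le_gn _ i) (norm_nonneg _)
          (by positivity)
      · rw [indicator_of_notMem hy]
        have h6 : Ψ i (p2 j • (y - x₀)) = 0 := by
          apply h2
          by_contra hc
          rw [not_or, not_le, not_le, norm_smul, Real.norm_of_nonneg hp0.le] at hc
          apply hy
          constructor
          · rw [div_le_iff₀ hp0]
            linarith
          · rw [le_div_iff₀ hp0]
            linarith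
        rw [h6, mul_zero, zero_smul, norm_zero]
    · rw [integral_indicator hrg, integral_const_mul]
      rw [mul_assoc]
  refine (Finset.sum_le_sum (fun i _ => hb i)).trans (le_of_eq ?_)
  rw [Finset.sum_const, Finset.card_univ, Fintype.card_fin, nsmul_eq_mul, mul_assoc]

end H28NP
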