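import Pool.Agent.H28.NP.PwLq

/-!
# [H28 NP PSLQ] L^q bound for the sum of the potentials

Pointwise, with the weights `w_l = (3/4)^l`, `l = i - k`: Hölder for finite sums (or Jensen, `inner_le_Lp_mul_Lq`,
`Real.inner_le_…`, or `Finset.sum` version `Real.pow_sum_div_card_le`; the weighted Jensen inequality
`ConvexOn.map_sum_le` for `t ↦ t^q` with weights `w_l / W`, `W = ∑ w_l ≤ 4`):
`(∑ a_l)^q ≤ W^(q-1) ∑ w_l^(1-q) a_l^q ≤ 4^(q-1) ∑ (4/3)^(l(q-1)) a_l^q`, for `a_l = pw h (k+l) x ≥ 0`. Integrate and use `pw_Lq` (constant `C₁`),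
`p2 (k+l) = p2 k 2^l`: `(p2 (k+l)^n |T|)^θ (1/p2 (k+l))^q = (p2 k^n |T|)^θ (1/p2 k)^q (2^(nθ))^l (2^(-q))^l`, and `2^(nθ) ≤ 2^(3/5) ≤ 8/5`
(`8^5 = 32768 ≤ …`: `2^3 ≤ (8/5)^5 = 10.48…`). So the sum over `l` has the ratio `(4/3)^(q-1) (8/5) 2^(-q) = (2/3)^(q-1) (4/5) ≤ 4/5`:
the geometric sum is at most `5`. `C = 5 4^(q-1) C₁`. Integrability: continuous (`pw_cont`) and dominated by the
integrable right side.
-/

set_option autoImplicit false

namespace H28NP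

open H60NH H60NT MeasureTheory Metric Set Filter Topology
open scoped ENNReal NNReal ContDiff

private theorem pl_p2 (j : ℕ) : 0 < p2 j := by unfold p2; positivity

theorem ps_nonneg {n : ℕ} {h : E n → ℝ} (h0 : ∀ x, 0 ≤ h x) (K k : ℕ) (x : E n) :
    0 ≤ ps h K k x := by
  unfold ps
  exact Finset.sum_nonneg (fun i _ => pw_nonneg h0 i x)

theorem ps_cont {n : ℕ} (hn : 1 ≤ n) {h : E n → ℝ} (hh : Integrable h) (K k : ℕ) :
    Continuous (ps h K k) := by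
  unfold ps
  exact continuous_finset_sum _ (fun i _ => pw_cont hn hh i)

private theorem pl_geo (r : ℝ) (h0 : 0 ≤ r) (c : ℝ) (hr : r ≤ c) (hc : c < 1) (L : ℕ) :
    ∑ l ∈ Finset.range L, r ^ l ≤ 1 / (1 - c) := by
  calc ∑ l ∈ Finset.range L, r ^ l ≤ ∑ l ∈ Finset.range L, c ^ l :=
        Finset.sum_le_sum (fun l _ => pow_le_pow_left₀ h0 hr l)
    _ = (c ^ L - 1) / (c - 1) := geom_sum_eq hc.ne L
    _ = (1 - c ^ L) / (1 - c) := by rw [← neg_div_neg_eq, neg_sub, neg_sub]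
    _ ≤ 1 / (1 - c) := by
        have : 0 ≤ c ^ L := pow_nonneg (h0.trans hr) L
        exact div_le_div_of_nonneg_right (by linarith) (by linarith)

private theorem pl_jen (q : ℕ) (hq : 1 ≤ q) (a : ℕ → ℝ) (ha : ∀ i, 0 ≤ a i) (L : ℕ) :
    (∑ l ∈ Finset.range L, a l) ^ q ≤
      4 ^ (q - 1) * ∑ l ∈ Finset.range L, ((4 / 3 : ℝ) ^ (q - 1)) ^ l * a l ^ q := by
  rcases Nat.eq_zero_or_pos L with hL | hL
  · subst hL
    simp only [Finset.range_zero, Finset.sum_empty, mul_zero]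
    rw [zero_pow (by omega)]
  set W : ℝ := ∑ l ∈ Finset.range L, (3 / 4 : ℝ) ^ l with hW
  have hW4 : W ≤ 4 := by
    have := pl_geo (3 / 4) (by norm_num) (3 / 4) le_rfl (by norm_num) L
    rw [← hW] at this
    linarith
  have hW0 : 0 < W := by
    have h1 : (3 / 4 : ℝ) ^ 0 ≤ W :=
      Finset.single_le_sum (f := fun l => (3 / 4 : ℝ) ^ l) (fun i _ => by positivity)
        (Finset.mem_range.mpr hL)
    rw [pow_zero] at h1
    linarith
  have hJ := Real.pow_arith_mean_le_arith_mean_pow (Finset.range L)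
    (fun l => (3 / 4 : ℝ) ^ l / W) (fun l => a l * W / (3 / 4 : ℝ) ^ l)
    (fun i _ => by positivity) (by rw [← Finset.sum_div, ← hW, div_self hW0.ne'])
    (fun i _ => by have := ha i; positivity) q
  have e1 : ∀ l, (3 / 4 : ℝ) ^ l / W * (a l * W / (3 / 4 : ℝ) ^ l) = a l := by
    intro l
    have : (3 / 4 : ℝ) ^ l ≠ 0 := by positivity
    field_simp
  simp only [e1] at hJ
  refine hJ.trans ?_
  rw [Finset.mul_sum]
  refine Finset.sum_le_sum (fun l _ => ?_)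
  have e2 : (3 / 4 : ℝ) ^ l / W * (a l * W / (3 / 4 : ℝ) ^ l) ^ q =
      W ^ (q - 1) * (((4 / 3 : ℝ) ^ (q - 1)) ^ l * a l ^ q) := by
    obtain ⟨p, rfl⟩ : ∃ p, q = p + 1 := ⟨q - 1, by omega⟩
    have h1 : (4 / 3 : ℝ) = (3 / 4)⁻¹ := by norm_num
    have h2 : ((4 / 3 : ℝ) ^ p) ^ l = (((3 / 4 : ℝ) ^ l) ^ p)⁻¹ := by
      rw [h1, inv_pow, inv_pow, ← pow_mul, ← pow_mul, mul_comm]
    rw [Nat.add_sub_cancel, h2]
    have h3 : (3 / 4 : ℝ) ^ l ≠ 0 := by positivity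
    generalize (3 / 4 : ℝ) ^ l = w at h3 ⊢
    rw [div_pow, mul_pow, pow_succ W p, pow_succ w p]
    have h4 : w ^ p ≠ 0 := pow_ne_zero _ h3
    field_simp
  rw [e2]
  have h5 : 0 ≤ ((4 / 3 : ℝ) ^ (q - 1)) ^ l * a l ^ q := by
    have := ha l
    positivity
  exact mul_le_mul_of_nonneg_right (pow_le_pow_left₀ hW0.le hW4 _) h5

theorem ps_Lq (n : ℕ) (hn : 1 ≤ n) (q : ℕ) (hq : 1 ≤ q) (θ : ℝ) (h0 : 0 ≤ θ) (h1 : θ ≤ q - 1)
    (h2 : n * θ ≤ 3 / 5) :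
    ∃ C : ℝ, 1 ≤ C ∧ ∀ (h : E n → ℝ) (T : Set (E n)), MeasurableSet T → volume T < ⊤ →
      (∀ x, 0 ≤ h x) → Integrable h → Integrable (fun x => h x ^ q) → (∀ x, x ∉ T → h x = 0) →
      ∀ K k : ℕ, Integrable (fun x => ps h K k x ^ q) ∧
        ∫ x, ps h K k x ^ q ≤
          C * ((p2 k ^ n * (volume T).toReal) ^ θ * (1 / p2 k) ^ q * ∫ x, h x ^ q) := by
  obtain ⟨C₁, hC₁, hpw⟩ := pw_Lq n hn q hq θ h0 h1
  refine ⟨5 * 4 ^ (q - 1) * C₁, ?_, ?_⟩
  · have h4 : (1 : ℝ) ≤ 4 ^ (q - 1) := one_le_pow₀ (by norm_num)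
    nlinarith
  intro h T hT hTf hh0 hh1 hhq hhT K k
  set L := K - k with hL
  have hps : ∀ x, ps h K k x = ∑ l ∈ Finset.range L, pw h (k + l) x := by
    intro x
    unfold ps
    rw [Finset.sum_Ico_eq_sum_range]
  set V : ℝ := (volume T).toReal with hV
  have hV0 : 0 ≤ V := ENNReal.toReal_nonneg
  set H : ℝ := ∫ x, h x ^ q with hH
  have hH0 : 0 ≤ H := integral_nonneg (fun x => pow_nonneg (hh0 x) q)
  set ρ : ℝ := (4 / 3 : ℝ) ^ (q - 1) with hρ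
  have hρ0 : 0 ≤ ρ := by positivity
  have hb : ∀ l, Integrable (fun x => pw h (k + l) x ^ q) ∧
      ∫ x, pw h (k + l) x ^ q ≤
        C₁ * ((p2 (k + l) ^ n * V) ^ θ * (1 / p2 (k + l)) ^ q * H) :=
    fun l => hpw h T hT hTf hh0 hh1 hhq hhT (k + l)
  have hpt : ∀ x, ps h K k x ^ q ≤
      4 ^ (q - 1) * ∑ l ∈ Finset.range L, ρ ^ l * pw h (k + l) x ^ q := by
    intro x
    rw [hps x]
    exact pl_jen q hq (fun l => pw h (k + l) x) (fun l => pw_nonneg hh0 _ x) L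
  have hdom : Integrable (fun x => 4 ^ (q - 1) *
      ∑ l ∈ Finset.range L, ρ ^ l * pw h (k + l) x ^ q) :=
    (integrable_finset_sum _ (fun l _ => (hb l).1.const_mul _)).const_mul _
  have hcont : Continuous (fun x => ps h K k x ^ q) := (ps_cont hn hh1 K k).pow q
  have hI : Integrable (fun x => ps h K k x ^ q) := by
    refine hdom.mono' hcont.aestronglyMeasurable (Eventually.of_forall (fun x => ?_))
    rw [Real.norm_of_nonneg (pow_nonneg (ps_nonneg hh0 K k x) q)]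
    exact hpt x
  refine ⟨hI, ?_⟩
  have hpk := pl_p2 k
  -- the ratio
  set s : ℝ := ((2 : ℝ) ^ n) ^ θ with hs
  have hs0 : 0 ≤ s := by positivity
  have hs1 : s ≤ 8 / 5 := by
    rw [hs, ← Real.rpow_natCast 2 n, ← Real.rpow_mul (by norm_num)]
    have h3 : (2 : ℝ) ^ ((n : ℝ) * θ) ≤ (2 : ℝ) ^ (3 / 5 : ℝ) :=
      Real.rpow_le_rpow_of_exponent_le (by norm_num) h2
    refine h3.trans ?_
    have h4 : (2 : ℝ) ^ (3 / 5 : ℝ) = ((2 : ℝ) ^ (3 : ℕ)) ^ (1 / 5 : ℝ) := by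
      rw [← Real.rpow_natCast, ← Real.rpow_mul (by norm_num)]
      norm_num
    rw [h4]
    have h5 : (8 / 5 : ℝ) = ((8 / 5 : ℝ) ^ (5 : ℕ)) ^ (1 / 5 : ℝ) := by
      rw [← Real.rpow_natCast, ← Real.rpow_mul (by norm_num)]
      norm_num
    rw [h5]
    exact Real.rpow_le_rpow (by norm_num) (by norm_num) (by norm_num)
  have hrat : ρ * s * (1 / 2) ^ q ≤ 4 / 5 := by
    obtain ⟨p, hp⟩ : ∃ p, q = p + 1 := ⟨q - 1, by omega⟩
    have e1 : ρ * (1 / 2 : ℝ) ^ q = (2 / 3) ^ p * (1 / 2) := by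
      rw [hρ, hp, Nat.add_sub_cancel, pow_succ, ← mul_assoc, ← mul_pow]
      norm_num
    have e2 : (2 / 3 : ℝ) ^ p ≤ 1 := pow_le_one₀ (by norm_num) (by norm_num)
    have e3 : ρ * s * (1 / 2) ^ q = (ρ * (1 / 2 : ℝ) ^ q) * s := by ring
    have e4 : 0 ≤ (2 / 3 : ℝ) ^ p := by positivity
    rw [e3, e1]
    nlinarith
  have hrat0 : 0 ≤ ρ * s * (1 / 2) ^ q := by positivity
  have hterm : ∀ l, (p2 (k + l) ^ n * V) ^ θ * (1 / p2 (k + l)) ^ q * H =
      (s * (1 / 2) ^ q) ^ l * ((p2 k ^ n * V) ^ θ * (1 / p2 k) ^ q * H) := by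
    intro l
    have e0 : p2 (k + l) = p2 k * 2 ^ l := by unfold p2; rw [pow_add]
    have e1 : p2 (k + l) ^ n * V = (2 ^ n) ^ l * (p2 k ^ n * V) := by
      rw [e0, mul_pow, ← pow_mul, ← pow_mul, mul_comm l n]
      ring
    have e2 : (((2 : ℝ) ^ n) ^ l) ^ θ = s ^ l := by
      rw [hs, ← Real.rpow_natCast (((2 : ℝ) ^ n)) l, ← Real.rpow_mul (by positivity),
        ← Real.rpow_natCast ((((2 : ℝ) ^ n)) ^ θ) l, ← Real.rpow_mul (by positivity), mul_comm]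
    rw [e1, Real.mul_rpow (by positivity) (by positivity), e2, e0, mul_pow s, ← pow_mul (1 / 2 : ℝ)]
    have e3 : (1 / (p2 k * 2 ^ l)) ^ q = (1 / p2 k) ^ q * (1 / 2) ^ (q * l) := by
      rw [mul_comm q l, pow_mul, ← mul_pow]
      congr 1
      rw [one_div_pow]
      field_simp
    rw [e3]
    ring
  set B : ℝ := (p2 k ^ n * V) ^ θ * (1 / p2 k) ^ q * H with hB
  have hB0 : 0 ≤ B := by positivity
  calc ∫ x, ps h K k x ^ q
      ≤ ∫ x, 4 ^ (q - 1) * ∑ l ∈ Finset.range L, ρ ^ l * pw h (k + l) x ^ q :=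
        integral_mono hI hdom hpt
    _ = 4 ^ (q - 1) * ∑ l ∈ Finset.range L, ρ ^ l * ∫ x, pw h (k + l) x ^ q := by
        rw [integral_const_mul, integral_finset_sum _ (fun l _ => (hb l).1.const_mul _)]
        congr 1
        exact Finset.sum_congr rfl (fun l _ => integral_const_mul _ _)
    _ ≤ 4 ^ (q - 1) * ∑ l ∈ Finset.range L, (ρ * s * (1 / 2) ^ q) ^ l * (C₁ * B) := by
        refine mul_le_mul_of_nonneg_left (Finset.sum_le_sum (fun l _ => ?_)) (by positivity)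
        calc ρ ^ l * ∫ x, pw h (k + l) x ^ q
            ≤ ρ ^ l * (C₁ * ((p2 (k + l) ^ n * V) ^ θ * (1 / p2 (k + l)) ^ q * H)) :=
              mul_le_mul_of_nonneg_left (hb l).2 (by positivity)
          _ = (ρ * s * (1 / 2) ^ q) ^ l * (C₁ * B) := by
              rw [hterm l, mul_assoc ρ, mul_pow ρ]
              ring
    _ = 4 ^ (q - 1) * ((∑ l ∈ Finset.range L, (ρ * s * (1 / 2) ^ q) ^ l) * (C₁ * B)) := by
        rw [Finset.sum_mul]
    _ ≤ 4 ^ (q - 1) * (5 * (C₁ * B)) := by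
        have h6 := pl_geo _ hrat0 (4 / 5) hrat (by norm_num) L
        norm_num at h6
        refine mul_le_mul_of_nonneg_left (mul_le_mul_of_nonneg_right h6 ?_) (by positivity)
        positivity
    _ = 5 * 4 ^ (q - 1) * C₁ * B := by ring

end H28NP
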