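import Pool.Agent.H28.NP.Def
import Pool.Agent.H60.NH.NInt
import Pool.Agent.H60.NH.NCont
import Pool.Agent.H60.NH.NR1a

/-!
# [H28 NP PWLQ] L^q bound for the potential at one scale

* `pw_cont`: `pw h i = 8^(-(n-1)) * AA h (i + 3)` (as `8/p2 (i+3) = 1/p2 i`, `p2 (i+3) = 8 p2 i`), `AA_cont`.
* `pw_Lq`. Let `B = ball x (1/p2 i)`, `p = p2 i`, `|B| = vb n / p^n` (`vol_ball`). As `h = 0` outside `T`, Hölder (Jensen for the
  power `q`, e.g. `inner_le_Lp_mul_Lq`-type, or `ConvexOn.map_average_le` for the restricted measure, or lintegral Hölder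
  `ENNReal.lintegral_mul_le_Lp_mul_Lq`) gives `(∫ in B, h)^q = (∫ in B ∩ T, h)^q ≤ |B ∩ T|^(q-1) ∫ in B, h^q`. Further
  `|B ∩ T|^(q-1) = |B ∩ T|^θ |B ∩ T|^(q-1-θ) ≤ |T|^θ (vb n / p^n)^(q-1-θ)` (real powers, `θ ≤ q - 1`; if `|B ∩ T| = 0` and `q ≥ 2`, the
  left side is zero; if `q = 1` then `θ = 0`). So `(pw h i x)^q ≤ p^(q(n-1)) |T|^θ (vb n/p^n)^(q-1-θ) ∫ in ball x (1/p), h^q`; integrate
  in `x` (Tonelli: `∫⁻ x, ∫⁻ y in ball x r, F y = ∫⁻ y, F y |ball y r| = |B| ∫⁻ F`; `nint_ball` is a version with `x` in a ball):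
  `∫ (pw h i)^q ≤ p^(q(n-1)) |T|^θ (vb n/p^n)^(q-θ) ∫ h^q`, and the power of `p` is `q(n-1) - nq + nθ = -q + nθ`:
  `= (vb n)^(q-θ) (p^n |T|)^θ p^(-q) ∫ h^q`. `C = max 1 ((vb n)^(q-θ))`.
-/

set_option autoImplicit false

namespace H28NP

open H60NH H60NT MeasureTheory Metric Set Filter Topology
open scoped ENNReal NNReal ContDiff

private theorem pw_p2 (j : ℕ) : 0 < p2 j := by unfold p2; positivity

private theorem pw_hold {α : Type*} [MeasurableSpace α] {ν : Measure α} [IsFiniteMeasure ν] (q : ℕ)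
    (hq : 1 ≤ q) (h : α → ℝ) (h0 : ∀ x, 0 ≤ h x) (h2 : Integrable (fun x => h x ^ q) ν) :
    (∫ x, h x ∂ν) ^ q ≤ (∫ x, h x ^ q ∂ν) * (ν.real univ) ^ (q - 1) := by
  rcases Nat.lt_or_ge 1 q with hq1 | hq1
  · have hq0 : (1 : ℝ) < q := by exact_mod_cast hq1
    have hq00 : (0 : ℝ) < q := by linarith
    have h1 := hold_w (ν := ν) (a := fun y => h y ^ q) (b := fun _ => (1 : ℝ)) h2
      (integrable_const _) (fun y => pow_nonneg (h0 y) _) (fun _ => zero_le_one)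
      (t := 1 - 1 / (q : ℝ)) (by rw [sub_pos, div_lt_one hq00]; exact hq0) (by
        have : 0 < 1 / (q : ℝ) := by positivity
        linarith)
    have h3 : ∀ y, (h y ^ q) ^ (1 - (1 - 1 / (q : ℝ))) * (1 : ℝ) ^ (1 - 1 / (q : ℝ)) = h y := by
      intro y
      rw [Real.one_rpow, mul_one, sub_sub_cancel, ← Real.rpow_natCast (h y) q,
        ← Real.rpow_mul (h0 y), mul_one_div_cancel hq00.ne', Real.rpow_one]
    simp_rw [h3] at h1
    rw [sub_sub_cancel, integral_const, smul_eq_mul, mul_one] at h1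
    have hJ0 : 0 ≤ ∫ x, h x ^ q ∂ν := integral_nonneg (fun x => pow_nonneg (h0 x) q)
    have hI0 : 0 ≤ ∫ x, h x ∂ν := integral_nonneg h0
    refine (pow_le_pow_left₀ hI0 h1 q).trans (le_of_eq ?_)
    rw [mul_pow, ← Real.rpow_natCast _ q, ← Real.rpow_mul hJ0, one_div_mul_cancel hq00.ne',
      Real.rpow_one, ← Real.rpow_natCast _ q, ← Real.rpow_mul measureReal_nonneg,
      ← Real.rpow_natCast _ (q - 1), Nat.cast_sub hq]
    congr 2
    push_cast
    field_simp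
  · obtain rfl : q = 1 := by omega
    simp

private theorem pw_ton {n : ℕ} (f : E n → ℝ) (hf : Integrable f) (h0 : ∀ x, 0 ≤ f x) (ρ : ℝ)
    (hρ : 0 < ρ) :
    ∫⁻ w, ENNReal.ofReal (∫ y in ball w ρ, f y) ≤ ENNReal.ofReal (vb n * ρ ^ n * ∫ y, f y) := by
  have hvb := vb_pos n
  have h1 : (⋃ k : ℕ, ball (0 : E n) (k : ℝ)) = univ := iUnion_ball_nat 0
  rw [← setLIntegral_univ, ← h1, setLIntegral_iUnion_of_directed]
  · refine iSup_le (fun k => (nint_ball_le f hf h0 0 k ρ hρ).trans ?_)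
    refine ENNReal.ofReal_le_ofReal (mul_le_mul_of_nonneg_left ?_ (by positivity))
    exact setIntegral_le_integral hf (Eventually.of_forall h0)
  · refine Monotone.directed_le (fun a b hab => ball_subset_ball ?_)
    exact_mod_cast hab

private theorem pw_eq {n : ℕ} (h : E n → ℝ) (i : ℕ) :
    pw h i = fun x => (8 ^ (n - 1))⁻¹ * AA h (i + 3) x := by
  funext x
  have hp := pw_p2 i
  have h1 : p2 (i + 3) = 8 * p2 i := by unfold p2; rw [pow_add]; ring
  unfold pw AA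
  have h2 : (8 : ℝ) / p2 (i + 3) = 1 / p2 i := by
    rw [h1]
    field_simp
  rw [h2, h1, mul_pow]
  have h3 : (8 : ℝ) ^ (n - 1) ≠ 0 := by positivity
  field_simp

theorem pw_cont {n : ℕ} (hn : 1 ≤ n) {h : E n → ℝ} (hh : Integrable h) (i : ℕ) :
    Continuous (pw h i) := by
  rw [pw_eq]
  exact continuous_const.mul (AA_cont hn hh (i + 3)).1

theorem pw_nonneg {n : ℕ} {h : E n → ℝ} (h0 : ∀ x, 0 ≤ h x) (i : ℕ) (x : E n) : 0 ≤ pw h i x := by
  unfold pw
  exact mul_nonneg (pow_nonneg (pw_p2 i).le _) (integral_nonneg h0)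

private theorem pw_pt (n : ℕ) (q : ℕ) (hq : 1 ≤ q) (θ : ℝ) (h0 : 0 ≤ θ) (h1 : θ ≤ q - 1)
    (h : E n → ℝ) (T : Set (E n)) (hT : MeasurableSet T) (hT' : volume T < ⊤)
    (hh0 : ∀ x, 0 ≤ h x) (hh2 : Integrable (fun x => h x ^ q))
    (hh3 : ∀ x, x ∉ T → h x = 0) (i : ℕ) (x : E n) :
    pw h i x ^ q ≤ (p2 i ^ (n - 1)) ^ q * ((volume T).toReal ^ θ *
      (vb n * (1 / p2 i) ^ n) ^ ((q : ℝ) - 1 - θ)) * ∫ y in ball x (1 / p2 i), h y ^ q := by
  have hp := pw_p2 i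
  have hvb := vb_pos n
  have e1 : ∫ y in ball x (1 / p2 i), h y = ∫ y in ball x (1 / p2 i) ∩ T, h y := by
    rw [← integral_indicator (measurableSet_ball.inter hT), ← integral_indicator measurableSet_ball]
    congr 1
    funext y
    by_cases hy : y ∈ ball x (1 / p2 i)
    · by_cases hy' : y ∈ T
      · rw [indicator_of_mem hy, indicator_of_mem (mem_inter hy hy')]
      · rw [indicator_of_mem hy, indicator_of_notMem (fun hc => hy' hc.2), hh3 y hy']
    · rw [indicator_of_notMem hy, indicator_of_notMem (fun hc => hy hc.1)]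
  have hvol := vol_ball x (1 / p2 i) (by positivity : (0 : ℝ) < 1 / p2 i)
  have hfin : volume (ball x (1 / p2 i) ∩ T) < ⊤ :=
    (measure_mono inter_subset_left).trans_lt (by rw [hvol]; exact ENNReal.ofReal_lt_top)
  have hF : IsFiniteMeasure (volume.restrict (ball x (1 / p2 i) ∩ T)) :=
    ⟨by rw [Measure.restrict_apply_univ]; exact hfin⟩
  have h3 := pw_hold (ν := volume.restrict (ball x (1 / p2 i) ∩ T)) q hq h hh0 hh2.integrableOn
  have h4 : ∫ y in ball x (1 / p2 i) ∩ T, h y ^ q ≤ ∫ y in ball x (1 / p2 i), h y ^ q :=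
    setIntegral_mono_set hh2.integrableOn (Eventually.of_forall (fun y => pow_nonneg (hh0 y) q))
      (LE.le.eventuallyLE inter_subset_left)
  set V : ℝ := (volume.restrict (ball x (1 / p2 i) ∩ T)).real univ with hV
  have hV0 : 0 ≤ V := measureReal_nonneg
  have hV1 : V ≤ (volume T).toReal := by
    rw [hV, Measure.real, Measure.restrict_apply_univ]
    exact ENNReal.toReal_mono hT'.ne (measure_mono inter_subset_right)
  have hV2 : V ≤ vb n * (1 / p2 i) ^ n := by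
    rw [hV, Measure.real, Measure.restrict_apply_univ]
    refine ENNReal.toReal_le_of_le_ofReal (by positivity) ?_
    rw [← hvol]
    exact measure_mono inter_subset_left
  have h5 : V ^ (q - 1) ≤ (volume T).toReal ^ θ *
      (vb n * (1 / p2 i) ^ n) ^ ((q : ℝ) - 1 - θ) := by
    have e2 : V ^ (q - 1) = V ^ θ * V ^ ((q : ℝ) - 1 - θ) := by
      rw [← Real.rpow_add_of_nonneg hV0 h0 (by linarith), ← Real.rpow_natCast V (q - 1),
        Nat.cast_sub hq]
      congr 1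
      push_cast
      ring
    rw [e2]
    exact mul_le_mul (Real.rpow_le_rpow hV0 hV1 h0) (Real.rpow_le_rpow hV0 hV2 (by linarith))
      (Real.rpow_nonneg hV0 _) (Real.rpow_nonneg (hV0.trans hV1) _)
  have hJ0 : 0 ≤ ∫ y in ball x (1 / p2 i), h y ^ q := integral_nonneg (fun y => pow_nonneg (hh0 y) q)
  unfold pw
  rw [mul_pow, e1, mul_assoc]
  refine mul_le_mul_of_nonneg_left ?_ (by positivity)
  refine h3.trans ?_
  rw [mul_comm]
  exact mul_le_mul h5 h4 (integral_nonneg (fun y => pow_nonneg (hh0 y) q))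
    ((pow_nonneg hV0 _).trans h5)

theorem pw_Lq (n : ℕ) (hn : 1 ≤ n) (q : ℕ) (hq : 1 ≤ q) (θ : ℝ) (h0 : 0 ≤ θ) (h1 : θ ≤ q - 1) :
    ∃ C : ℝ, 1 ≤ C ∧ ∀ (h : E n → ℝ) (T : Set (E n)), MeasurableSet T → volume T < ⊤ →
      (∀ x, 0 ≤ h x) → Integrable h → Integrable (fun x => h x ^ q) → (∀ x, x ∉ T → h x = 0) →
      ∀ i : ℕ, Integrable (fun x => pw h i x ^ q) ∧
        ∫ x, pw h i x ^ q ≤
          C * ((p2 i ^ n * (volume T).toReal) ^ θ * (1 / p2 i) ^ q * ∫ x, h x ^ q) := by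
  have hvb := vb_pos n
  refine ⟨max 1 (vb n ^ ((q : ℝ) - θ)), le_max_left _ _, ?_⟩
  intro h T hT hT' hh0 hh1 hh2 hh3 i
  have hp := pw_p2 i
  set A : ℝ := (p2 i ^ (n - 1)) ^ q * ((volume T).toReal ^ θ *
      (vb n * (1 / p2 i) ^ n) ^ ((q : ℝ) - 1 - θ)) with hA
  have ha0 : 0 < vb n * (1 / p2 i) ^ n := by positivity
  have hV0 : 0 ≤ (volume T).toReal := ENNReal.toReal_nonneg
  have hA0 : 0 ≤ A := by
    rw [hA]
    exact mul_nonneg (by positivity) (mul_nonneg (Real.rpow_nonneg hV0 _) (Real.rpow_nonneg ha0.le _))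
  have hJ0 : 0 ≤ ∫ y, h y ^ q := integral_nonneg (fun y => pow_nonneg (hh0 y) q)
  have hpt := pw_pt n q hq θ h0 h1 h T hT hT' hh0 hh2 hh3 i
  have hlin : ∫⁻ x, ENNReal.ofReal (pw h i x ^ q) ≤
      ENNReal.ofReal (A * (vb n * (1 / p2 i) ^ n * ∫ y, h y ^ q)) := by
    calc ∫⁻ x, ENNReal.ofReal (pw h i x ^ q)
        ≤ ∫⁻ x, ENNReal.ofReal A * ENNReal.ofReal (∫ y in ball x (1 / p2 i), h y ^ q) := by
          refine lintegral_mono (fun x => ?_)
          rw [← ENNReal.ofReal_mul hA0]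
          exact ENNReal.ofReal_le_ofReal (hpt x)
      _ = ENNReal.ofReal A * ∫⁻ x, ENNReal.ofReal (∫ y in ball x (1 / p2 i), h y ^ q) :=
          lintegral_const_mul' _ _ ENNReal.ofReal_ne_top
      _ ≤ ENNReal.ofReal A * ENNReal.ofReal (vb n * (1 / p2 i) ^ n * ∫ y, h y ^ q) := by
          refine mul_le_mul_right ?_ _
          exact pw_ton _ hh2 (fun y => pow_nonneg (hh0 y) q) (1 / p2 i) (by positivity)
      _ = _ := by rw [ENNReal.ofReal_mul hA0]
  have hconst : A * (vb n * (1 / p2 i) ^ n) =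
      vb n ^ ((q : ℝ) - θ) * ((p2 i ^ n * (volume T).toReal) ^ θ * (1 / p2 i) ^ q) := by
    have hP : 0 < p2 i ^ n := by positivity
    have e1 : (vb n * (1 / p2 i) ^ n) ^ ((q : ℝ) - 1 - θ) * (vb n * (1 / p2 i) ^ n) =
        (vb n * (1 / p2 i) ^ n) ^ ((q : ℝ) - θ) := by
      rw [← Real.rpow_add_one ha0.ne']
      congr 1
      ring
    have e2 : vb n * (1 / p2 i) ^ n = vb n * (p2 i ^ n)⁻¹ := by
      rw [one_div, inv_pow]
    have e3 : (vb n * (1 / p2 i) ^ n) ^ ((q : ℝ) - θ) =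
        vb n ^ ((q : ℝ) - θ) * ((p2 i ^ n) ^ θ * ((p2 i ^ n) ^ q)⁻¹) := by
      rw [e2, Real.mul_rpow hvb.le (by positivity), Real.inv_rpow hP.le, Real.rpow_sub hP,
        Real.rpow_natCast]
      congr 1
      rw [inv_div, div_eq_mul_inv]
    have e4 : (p2 i ^ n) ^ q = (p2 i ^ (n - 1)) ^ q * p2 i ^ q := by
      rw [← mul_pow, ← pow_succ]
      congr 2
      omega
    calc A * (vb n * (1 / p2 i) ^ n) = (p2 i ^ (n - 1)) ^ q * (volume T).toReal ^ θ *
          ((vb n * (1 / p2 i) ^ n) ^ ((q : ℝ) - 1 - θ) * (vb n * (1 / p2 i) ^ n)) := by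
          rw [hA]; ring
      _ = vb n ^ ((q : ℝ) - θ) * ((p2 i ^ n * (volume T).toReal) ^ θ * (1 / p2 i) ^ q) := by
          rw [e1, e3, e4, Real.mul_rpow hP.le hV0, one_div, inv_pow, mul_inv]
          have h5 : (p2 i ^ (n - 1)) ^ q ≠ 0 := by positivity
          field_simp
  have hcont : Continuous (fun x => pw h i x ^ q) := (pw_cont hn hh1 i).pow q
  have hpn : ∀ x, 0 ≤ pw h i x ^ q := fun x => pow_nonneg (pw_nonneg hh0 i x) q
  have hI : Integrable (fun x => pw h i x ^ q) := by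
    refine ⟨hcont.aestronglyMeasurable, ?_⟩
    rw [hasFiniteIntegral_iff_ofReal (Eventually.of_forall hpn)]
    exact hlin.trans_lt ENNReal.ofReal_lt_top
  refine ⟨hI, ?_⟩
  have hint : ∫ x, pw h i x ^ q ≤ A * (vb n * (1 / p2 i) ^ n * ∫ y, h y ^ q) := by
    rw [integral_eq_lintegral_of_nonneg_ae (Eventually.of_forall hpn) hcont.aestronglyMeasurable]
    exact ENNReal.toReal_le_of_le_ofReal (mul_nonneg hA0 (mul_nonneg ha0.le hJ0)) hlin
  calc ∫ x, pw h i x ^ q ≤ A * (vb n * (1 / p2 i) ^ n * ∫ y, h y ^ q) := hint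
    _ = (A * (vb n * (1 / p2 i) ^ n)) * ∫ y, h y ^ q := by ring
    _ = vb n ^ ((q : ℝ) - θ) * ((p2 i ^ n * (volume T).toReal) ^ θ * (1 / p2 i) ^ q *
          ∫ y, h y ^ q) := by rw [hconst]; ring
    _ ≤ _ := by
        refine mul_le_mul_of_nonneg_right (le_max_right _ _) ?_
        exact mul_nonneg (mul_nonneg (Real.rpow_nonneg (by positivity) _) (by positivity)) hJ0

end H28NP
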