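import Pool.Agent.H28.NP.RMean

/-!
# [H28 NP RL] (4b): Poincaré inequalities on the rings

`w = ubar φ v (j + 5)`, `p = p2 j`. On `rg x₀ j`: `‖v - Mn‖ ≤ ‖v - w‖ + ‖w - Mn‖`, and `‖w x - Mn‖ ≤ X := C₁ p^(n-1) ∫ in fr, gn g` (`ring_mean1`), so
`‖v - Mn‖^q ≤ 2^(q-1) (‖v - w‖^q + X^q)` (`add_pow_le`), integrable on `rg x₀ j` (finite volume; measurability of
`v - const` from `hv.int_v`). Multiply the integral by `p^n`; `p^n |rg| ≤ C` (`fr_vol`).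

`q = 2`: `vw_L2` and Cauchy-Schwarz `(∫ in fr, gn g)^2 ≤ |fr| ∫ in fr, gn g^2`, `p^(2(n-1)) |fr| ≤ C p^(n-2)` (`p^(2n-2) = p^n p^(n-2)`).

`q = n`: `vw_Ln`; `∫ in fr, gn g = ∫ in fr ∩ S + ∫ in fr \ S`, power `n` (`add_pow_le`), Hölder
`(∫ in A, h)^n ≤ |A|^(n-1) ∫ in A, h^n`: `(p^(n-1) ∫ in fr ∩ S, gn g)^n ≤ (p^n |fr|)^(n-1) ∫ in fr ∩ S, gn g^n` and
`(p^(n-1) ∫ in fr \ S, gn g)^n ≤ (p^n |fr \ S|)^(n-1) ∫ in fr \ S, gn g^n`; with `t = p^n |fr \ S| ≤ C`, `θ = 1/(2n-1) ≤ n - 1`: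
`t^(n-1) = t^θ t^(n-1-θ) ≤ t^θ C^(n-1)` (`C ≥ 1`; for `t = 0` both sides vanish).
`hold_pow` is this Hölder inequality (`ENNReal.lintegral_mul_le_Lp_mul_Lq`, or `ConvexOn` Jensen for the average).
-/

set_option autoImplicit false

namespace H28NP

open H60NH H60NT MeasureTheory Metric Set Filter Topology
open scoped ENNReal NNReal ContDiff

theorem hold_pow {n : ℕ} (q : ℕ) (hq : 1 ≤ q) (A : Set (E n)) (hA : MeasurableSet A)
    (hv : volume A < ⊤) (h : E n → ℝ) (h0 : ∀ x, 0 ≤ h x) (h1 : IntegrableOn h A)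
    (h2 : IntegrableOn (fun x => h x ^ q) A) :
    (∫ x in A, h x) ^ q ≤ (volume A).toReal ^ (q - 1) * ∫ x in A, h x ^ q := by
  by_cases hz : volume A = 0
  · have h3 : volume.restrict A = 0 := Measure.restrict_eq_zero.2 hz
    rw [h3, integral_zero_measure, integral_zero_measure, zero_pow (by omega), mul_zero]
  · have h3 := (convexOn_pow q).map_set_average_le (f := h) (t := A) (μ := volume)
      (continuous_pow q).continuousOn isClosed_Ici hz hv.ne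
      (Filter.Eventually.of_forall fun x => h0 x) h1 h2
    rw [setAverage_eq, setAverage_eq, smul_eq_mul, smul_eq_mul] at h3
    obtain ⟨V, hV⟩ : ∃ V : ℝ, V = (volume A).toReal := ⟨_, rfl⟩
    have hV0 : 0 < V := by
      rw [hV, ENNReal.toReal_pos_iff]
      exact ⟨pos_iff_ne_zero.2 hz, hv⟩
    have hVr : (volume : Measure (E n)).real A = V := by rw [hV]; rfl
    rw [hVr] at h3
    rw [← hV]
    obtain ⟨k, rfl⟩ : ∃ k, q = k + 1 := ⟨q - 1, by omega⟩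
    rw [Nat.add_sub_cancel]
    have h4 := mul_le_mul_of_nonneg_left h3 (show 0 ≤ V ^ (k + 1) by positivity)
    rw [← mul_pow, mul_inv_cancel_left₀ hV0.ne'] at h4
    refine h4.trans (le_of_eq ?_)
    rw [pow_succ]
    field_simp

theorem rl_core {n m : ℕ} {A : Set (E n)} (hA : MeasurableSet A) (hAv : volume A < ⊤) (q : ℕ)
    (v w : E n → E m) (c : E m) (X : ℝ) (hX : 0 ≤ X)
    (hv : AEStronglyMeasurable v (volume.restrict A))
    (hi : IntegrableOn (fun x => ‖v x - w x‖ ^ q) A) (hw : ∀ x ∈ A, ‖c - w x‖ ≤ X) :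
    IntegrableOn (fun x => ‖v x - c‖ ^ q) A ∧
      ∫ x in A, ‖v x - c‖ ^ q ≤
        2 ^ (q - 1) * ((∫ x in A, ‖v x - w x‖ ^ q) + (volume A).toReal * X ^ q) := by
  have hpt : ∀ x ∈ A, ‖v x - c‖ ^ q ≤ 2 ^ (q - 1) * (‖v x - w x‖ ^ q + X ^ q) := by
    intro x hx
    have h1 : ‖v x - c‖ ≤ ‖v x - w x‖ + X := by
      calc ‖v x - c‖ = ‖(v x - w x) - (c - w x)‖ := by rw [sub_sub_sub_cancel_right]
        _ ≤ ‖v x - w x‖ + ‖c - w x‖ := norm_sub_le _ _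
        _ ≤ _ := by linarith [hw x hx]
    exact (pow_le_pow_left₀ (norm_nonneg _) h1 q).trans (add_pow_le (norm_nonneg _) hX q)
  have hc : IntegrableOn (fun _ : E n => X ^ q) A := integrableOn_const hAv.ne
  have hg : IntegrableOn (fun x => 2 ^ (q - 1) * (‖v x - w x‖ ^ q + X ^ q)) A :=
    (hi.add hc).const_mul _
  have hint : IntegrableOn (fun x => ‖v x - c‖ ^ q) A := by
    refine Integrable.mono' hg ((hv.sub aestronglyMeasurable_const).norm.pow q) ?_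
    rw [ae_restrict_iff' hA]
    refine Filter.Eventually.of_forall fun x hx => ?_
    rw [Real.norm_of_nonneg (by positivity)]
    exact hpt x hx
  refine ⟨hint, ?_⟩
  refine (setIntegral_mono_on hint hg hA hpt).trans (le_of_eq ?_)
  rw [integral_const_mul, integral_add hi hc, setIntegral_const, smul_eq_mul]
  rfl

theorem rl_int {n m : ℕ} {v : E n → E m} {g : E n → Fin n → E m} (hv : VG v g) (q : ℕ)
    (hq : 1 ≤ q) (hqn : q ≤ n) : Integrable (fun y => gn (g y) ^ q) := by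
  have h0 : ∀ y, 0 ≤ gn (g y) := fun y => Real.sqrt_nonneg _
  refine Integrable.mono' (hv.int_g.add hv.int_gn) (hv.int_g.aestronglyMeasurable.pow q) ?_
  refine Filter.Eventually.of_forall fun y => ?_
  rw [Real.norm_of_nonneg (pow_nonneg (h0 y) q), Pi.add_apply]
  rcases le_total (gn (g y)) 1 with h1 | h1
  · have h2 : gn (g y) ^ q ≤ gn (g y) ^ 1 := pow_le_pow_of_le_one (h0 y) h1 hq
    rw [pow_one] at h2
    linarith [pow_nonneg (h0 y) n]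
  · have h2 : gn (g y) ^ q ≤ gn (g y) ^ n := pow_le_pow_right₀ h1 hqn
    linarith [h0 y]

theorem ring_L2' (n m : ℕ) (hn : 3 ≤ n) {φ : E n → ℝ} {Θ : Fin n → E n → ℝ} {M : ℝ}
    (hφ : Moll φ Θ M) : ∃ C : ℝ, 1 ≤ C ∧ ∀ (μ : E n → ℝ) (κ : ℝ), κ ≤ 1 / 4 → Thin μ κ →
    ∀ (v : E n → E m) (g : E n → Fin n → E m), VG v g → ∀ (x₀ : E n) (j : ℕ), ‖x₀‖ ≤ 2 →
      IntegrableOn (fun x => ‖v x - Mn μ x₀ j v‖ ^ 2) (rg x₀ j) ∧
      p2 j ^ n * ∫ x in rg x₀ j, ‖v x - Mn μ x₀ j v‖ ^ 2 ≤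
        C * (p2 j ^ (n - 2) * ∫ y in fr x₀ j, gn (g y) ^ 2) := by
  obtain ⟨C1, hC1, H1⟩ := vw_L2 n m hn hφ
  obtain ⟨C2, hC2, H2⟩ := ring_mean1 n m hn hφ
  obtain ⟨C3, hC3, H3⟩ := fr_vol n (by omega)
  refine ⟨2 * (C1 + C3 * (C2 ^ 2 * C3)), by
    have : 0 ≤ C3 * (C2 ^ 2 * C3) := by positivity
    linarith, ?_⟩
  intro μ κ hκ hμ v g hv x₀ j hx₀
  obtain ⟨i1, e1⟩ := H1 v g hv x₀ j hx₀
  have hw := H2 μ κ hκ hμ v g hv x₀ j hx₀
  obtain ⟨w1, w2, w3, w4⟩ := H3 x₀ j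
  have hp := (p2_succ j).2.1
  obtain ⟨hrm, hfm, -⟩ := rg_meas x₀ j
  obtain ⟨I, hI⟩ : ∃ I : ℝ, I = ∫ y in fr x₀ j, gn (g y) := ⟨_, rfl⟩
  obtain ⟨J, hJ⟩ : ∃ J : ℝ, J = ∫ y in fr x₀ j, gn (g y) ^ 2 := ⟨_, rfl⟩
  have hI0 : 0 ≤ I := by rw [hI]; exact integral_nonneg fun y => Real.sqrt_nonneg _
  have hJ0 : 0 ≤ J := by
    rw [hJ]; exact integral_nonneg fun y => pow_nonneg (Real.sqrt_nonneg _) _
  rw [← hI] at hw
  rw [← hJ] at e1 ⊢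
  have hrv : volume (rg x₀ j) < ⊤ := by
    by_contra hcon
    push Not at hcon
    rw [top_le_iff.1 hcon, ENNReal.toReal_top, mul_zero, mul_zero] at w4
    linarith
  have hX0 : 0 ≤ C2 * (p2 j ^ (n - 1) * I) := by positivity
  obtain ⟨h1, h2⟩ := rl_core hrm hrv 2 v (ubar φ v (j + 5)) (Mn μ x₀ j v)
    (C2 * (p2 j ^ (n - 1) * I)) hX0 hv.int_v.aestronglyMeasurable.restrict i1 hw
  refine ⟨h1, ?_⟩
  have hH : I ^ 2 ≤ (volume (fr x₀ j)).toReal * J := by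
    have h3 := hold_pow 2 (by norm_num) (fr x₀ j) hfm w2 (fun y => gn (g y))
      (fun y => Real.sqrt_nonneg _) hv.int_g.integrableOn
      (rl_int hv 2 (by norm_num) (by omega)).integrableOn
    rw [← hI, ← hJ] at h3
    simpa using h3
  have hpp : p2 j ^ (n - 1) * p2 j ^ (n - 1) = p2 j ^ n * p2 j ^ (n - 2) := by
    rw [← pow_add, ← pow_add]
    congr 1
    omega
  have hXX : (C2 * (p2 j ^ (n - 1) * I)) ^ 2 ≤ C2 ^ 2 * C3 * (p2 j ^ (n - 2) * J) := by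
    calc (C2 * (p2 j ^ (n - 1) * I)) ^ 2 = C2 ^ 2 * ((p2 j ^ (n - 1) * p2 j ^ (n - 1)) * I ^ 2) := by
          ring
      _ ≤ C2 ^ 2 * ((p2 j ^ (n - 1) * p2 j ^ (n - 1)) * ((volume (fr x₀ j)).toReal * J)) := by
          gcongr
      _ = C2 ^ 2 * ((p2 j ^ n * (volume (fr x₀ j)).toReal) * (p2 j ^ (n - 2) * J)) := by
          rw [hpp]; ring
      _ ≤ C2 ^ 2 * (C3 * (p2 j ^ (n - 2) * J)) := by gcongr
      _ = _ := by ring
  calc p2 j ^ n * ∫ x in rg x₀ j, ‖v x - Mn μ x₀ j v‖ ^ 2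
      ≤ p2 j ^ n * (2 ^ (2 - 1) * ((∫ x in rg x₀ j, ‖v x - ubar φ v (j + 5) x‖ ^ 2) +
        (volume (rg x₀ j)).toReal * (C2 * (p2 j ^ (n - 1) * I)) ^ 2)) :=
        mul_le_mul_of_nonneg_left h2 (by positivity)
    _ = 2 * ((p2 j ^ n * ∫ x in rg x₀ j, ‖v x - ubar φ v (j + 5) x‖ ^ 2) +
        (p2 j ^ n * (volume (rg x₀ j)).toReal) * (C2 * (p2 j ^ (n - 1) * I)) ^ 2) := by
        norm_num
        ring
    _ ≤ 2 * (C1 * (p2 j ^ (n - 2) * J) + C3 * (C2 ^ 2 * C3 * (p2 j ^ (n - 2) * J))) := by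
        gcongr
    _ = 2 * (C1 + C3 * (C2 ^ 2 * C3)) * (p2 j ^ (n - 2) * J) := by ring

theorem rl_t {n : ℕ} (hn : 3 ≤ n) {t C : ℝ} (ht : 0 ≤ t) (hC : 1 ≤ C) (htC : t ≤ C) :
    t ^ (n - 1) ≤ C ^ (n - 1) * t ^ (1 / (2 * n - 1 : ℝ)) := by
  have hn3 : (3 : ℝ) ≤ n := by exact_mod_cast hn
  rcases ht.eq_or_lt with h0 | h0
  · rw [← h0, zero_pow (by omega)]
    exact mul_nonneg (by positivity) (Real.rpow_nonneg le_rfl _)
  · obtain ⟨θ, hθ⟩ : ∃ θ : ℝ, θ = 1 / (2 * n - 1 : ℝ) := ⟨_, rfl⟩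
    have hθ0 : 0 ≤ θ := by
      rw [hθ]
      exact div_nonneg zero_le_one (by linarith)
    have hθ1 : θ ≤ 1 := by
      rw [hθ, div_le_one (by linarith)]
      linarith
    rw [← hθ]
    have hk : ((n - 1 : ℕ) : ℝ) = n - 1 := by
      rw [Nat.cast_sub (by omega), Nat.cast_one]
    have h1 : t ^ (n - 1) = t ^ ((n : ℝ) - 1 - θ) * t ^ θ := by
      rw [← Real.rpow_add h0, ← Real.rpow_natCast, hk]
      congr 1
      ring
    rw [h1]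
    apply mul_le_mul_of_nonneg_right _ (by positivity)
    calc t ^ ((n : ℝ) - 1 - θ) ≤ C ^ ((n : ℝ) - 1 - θ) :=
          Real.rpow_le_rpow ht htC (by linarith)
      _ ≤ C ^ ((n : ℝ) - 1) := Real.rpow_le_rpow_of_exponent_le hC (by linarith)
      _ = C ^ (n - 1) := by rw [← Real.rpow_natCast, hk]

theorem ring_Ln' (n m : ℕ) (hn : 3 ≤ n) {φ : E n → ℝ} {Θ : Fin n → E n → ℝ} {M : ℝ}
    (hφ : Moll φ Θ M) : ∃ C : ℝ, 1 ≤ C ∧ ∀ (μ : E n → ℝ) (κ : ℝ), κ ≤ 1 / 4 → Thin μ κ →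
    ∀ (v : E n → E m) (g : E n → Fin n → E m), VG v g → ∀ (x₀ : E n) (j : ℕ), ‖x₀‖ ≤ 2 →
    ∀ S : Set (E n), MeasurableSet S →
      IntegrableOn (fun x => ‖v x - Mn μ x₀ j v‖ ^ n) (rg x₀ j) ∧
      p2 j ^ n * ∫ x in rg x₀ j, ‖v x - Mn μ x₀ j v‖ ^ n ≤
        C * ((∫ y in fr x₀ j ∩ S, gn (g y) ^ n) +
          (p2 j ^ n * (volume (fr x₀ j \ S)).toReal) ^ (1 / (2 * n - 1 : ℝ)) *
            ∫ y in fr x₀ j, gn (g y) ^ n) := by
  obtain ⟨C1, hC1, H1⟩ := vw_Ln n m hn hφ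
  obtain ⟨C2, hC2, H2⟩ := ring_mean1 n m hn hφ
  obtain ⟨C3, hC3, H3⟩ := fr_vol n (by omega)
  have h2n : (1 : ℝ) ≤ 2 ^ (n - 1) := one_le_pow₀ (by norm_num)
  refine ⟨2 ^ (n - 1) * (C1 + C3 * (C2 ^ n * (2 ^ (n - 1) * C3 ^ (n - 1)))), by
    have h3 : 0 ≤ C3 * (C2 ^ n * (2 ^ (n - 1) * C3 ^ (n - 1))) := by positivity
    exact one_le_mul_of_one_le_of_one_le h2n (by linarith), ?_⟩
  intro μ κ hκ hμ v g hv x₀ j hx₀ S hS
  obtain ⟨i1, e1⟩ := H1 v g hv x₀ j hx₀ S hS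
  have hw := H2 μ κ hκ hμ v g hv x₀ j hx₀
  obtain ⟨w1, w2, w3, w4⟩ := H3 x₀ j
  have hp := (p2_succ j).2.1
  obtain ⟨hrm, hfm, -⟩ := rg_meas x₀ j
  have hg0 : ∀ y, 0 ≤ gn (g y) := fun y => Real.sqrt_nonneg _
  have hgi : Integrable (fun y => gn (g y)) := hv.int_g
  have hgn : Integrable (fun y => gn (g y) ^ n) := hv.int_gn
  obtain ⟨I, hI⟩ : ∃ I : ℝ, I = ∫ y in fr x₀ j, gn (g y) := ⟨_, rfl⟩
  obtain ⟨I1, hI1⟩ : ∃ I : ℝ, I = ∫ y in fr x₀ j ∩ S, gn (g y) := ⟨_, rfl⟩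
  obtain ⟨I2, hI2⟩ : ∃ I : ℝ, I = ∫ y in fr x₀ j \ S, gn (g y) := ⟨_, rfl⟩
  obtain ⟨J, hJ⟩ : ∃ J : ℝ, J = ∫ y in fr x₀ j, gn (g y) ^ n := ⟨_, rfl⟩
  obtain ⟨J1, hJ1⟩ : ∃ J : ℝ, J = ∫ y in fr x₀ j ∩ S, gn (g y) ^ n := ⟨_, rfl⟩
  have hI0 : 0 ≤ I := by rw [hI]; exact integral_nonneg fun y => hg0 y
  have hI10 : 0 ≤ I1 := by rw [hI1]; exact integral_nonneg fun y => hg0 y
  have hI20 : 0 ≤ I2 := by rw [hI2]; exact integral_nonneg fun y => hg0 y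
  have hJ0 : 0 ≤ J := by rw [hJ]; exact integral_nonneg fun y => pow_nonneg (hg0 y) _
  have hJ10 : 0 ≤ J1 := by rw [hJ1]; exact integral_nonneg fun y => pow_nonneg (hg0 y) _
  obtain ⟨t, ht⟩ : ∃ t : ℝ, t = p2 j ^ n * (volume (fr x₀ j \ S)).toReal := ⟨_, rfl⟩
  have ht0 : 0 ≤ t := by rw [ht]; positivity
  have htC : t ≤ C3 := by
    rw [ht]
    refine le_trans ?_ w1
    apply mul_le_mul_of_nonneg_left _ (by positivity)
    exact ENNReal.toReal_mono w2.ne (measure_mono sdiff_subset)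
  rw [← hI] at hw
  rw [← hJ, ← hJ1, ← ht] at e1 ⊢
  obtain ⟨Y, hY⟩ : ∃ Y : ℝ, Y = J1 + t ^ (1 / (2 * n - 1 : ℝ)) * J := ⟨_, rfl⟩
  rw [← hY] at e1 ⊢
  have htθ : 0 ≤ t ^ (1 / (2 * n - 1 : ℝ)) := Real.rpow_nonneg ht0 _
  have hY0 : 0 ≤ Y := by rw [hY]; positivity
  have hrv : volume (rg x₀ j) < ⊤ := by
    by_contra hcon
    push Not at hcon
    rw [top_le_iff.1 hcon, ENNReal.toReal_top, mul_zero, mul_zero] at w4
    linarith
  have hX0 : 0 ≤ C2 * (p2 j ^ (n - 1) * I) := by positivity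
  obtain ⟨h1, h2⟩ := rl_core hrm hrv n v (ubar φ v (j + 5)) (Mn μ x₀ j v)
    (C2 * (p2 j ^ (n - 1) * I)) hX0 hv.int_v.aestronglyMeasurable.restrict i1 hw
  refine ⟨h1, ?_⟩
  have hIs : I = I1 + I2 := by
    rw [hI, hI1, hI2]
    exact (integral_inter_add_sdiff hS hgi.integrableOn).symm
  have hpn : (p2 j ^ (n - 1)) ^ n = (p2 j ^ n) ^ (n - 1) := by
    rw [← pow_mul, ← pow_mul, mul_comm]
  have hH1 : (p2 j ^ (n - 1)) ^ n * I1 ^ n ≤ C3 ^ (n - 1) * J1 := by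
    have h3 := hold_pow n (by omega) (fr x₀ j ∩ S) (hfm.inter hS)
      ((measure_mono inter_subset_left).trans_lt w2) (fun y => gn (g y)) hg0 hgi.integrableOn
      hgn.integrableOn
    rw [← hI1, ← hJ1] at h3
    have h4 : (volume (fr x₀ j ∩ S)).toReal ≤ (volume (fr x₀ j)).toReal :=
      ENNReal.toReal_mono w2.ne (measure_mono inter_subset_left)
    calc (p2 j ^ (n - 1)) ^ n * I1 ^ n
        ≤ (p2 j ^ (n - 1)) ^ n * ((volume (fr x₀ j ∩ S)).toReal ^ (n - 1) * J1) :=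
          mul_le_mul_of_nonneg_left h3 (by positivity)
      _ = (p2 j ^ n * (volume (fr x₀ j ∩ S)).toReal) ^ (n - 1) * J1 := by
          rw [hpn, mul_pow]; ring
      _ ≤ C3 ^ (n - 1) * J1 := by
          apply mul_le_mul_of_nonneg_right _ hJ10
          apply pow_le_pow_left₀ (by positivity)
          exact (mul_le_mul_of_nonneg_left h4 (by positivity)).trans w1
  have hH2 : (p2 j ^ (n - 1)) ^ n * I2 ^ n ≤
      C3 ^ (n - 1) * (t ^ (1 / (2 * n - 1 : ℝ)) * J) := by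
    have h3 := hold_pow n (by omega) (fr x₀ j \ S) (hfm.diff hS)
      ((measure_mono sdiff_subset).trans_lt w2) (fun y => gn (g y)) hg0 hgi.integrableOn
      hgn.integrableOn
    rw [← hI2] at h3
    have h4 : ∫ y in fr x₀ j \ S, gn (g y) ^ n ≤ J := by
      rw [hJ]
      exact setIntegral_mono_set hgn.integrableOn
        (Filter.Eventually.of_forall fun y => pow_nonneg (hg0 y) _)
        (Filter.Eventually.of_forall sdiff_subset)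
    calc (p2 j ^ (n - 1)) ^ n * I2 ^ n
        ≤ (p2 j ^ (n - 1)) ^ n * ((volume (fr x₀ j \ S)).toReal ^ (n - 1) * J) :=
          mul_le_mul_of_nonneg_left (h3.trans (mul_le_mul_of_nonneg_left h4 (by positivity)))
            (by positivity)
      _ = t ^ (n - 1) * J := by
          rw [hpn, ht, mul_pow]; ring
      _ ≤ (C3 ^ (n - 1) * t ^ (1 / (2 * n - 1 : ℝ))) * J :=
          mul_le_mul_of_nonneg_right (rl_t hn ht0 hC3 htC) hJ0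
      _ = _ := by ring
  have hXX : (C2 * (p2 j ^ (n - 1) * I)) ^ n ≤ C2 ^ n * (2 ^ (n - 1) * C3 ^ (n - 1)) * Y := by
    calc (C2 * (p2 j ^ (n - 1) * I)) ^ n = C2 ^ n * ((p2 j ^ (n - 1)) ^ n * (I1 + I2) ^ n) := by
          rw [hIs, mul_pow, mul_pow]
      _ ≤ C2 ^ n * ((p2 j ^ (n - 1)) ^ n * (2 ^ (n - 1) * (I1 ^ n + I2 ^ n))) := by
          apply mul_le_mul_of_nonneg_left _ (by positivity)
          exact mul_le_mul_of_nonneg_left (add_pow_le hI10 hI20 n) (by positivity)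
      _ = C2 ^ n * (2 ^ (n - 1) * ((p2 j ^ (n - 1)) ^ n * I1 ^ n +
          (p2 j ^ (n - 1)) ^ n * I2 ^ n)) := by ring
      _ ≤ C2 ^ n * (2 ^ (n - 1) * (C3 ^ (n - 1) * J1 +
          C3 ^ (n - 1) * (t ^ (1 / (2 * n - 1 : ℝ)) * J))) := by
          apply mul_le_mul_of_nonneg_left _ (by positivity)
          exact mul_le_mul_of_nonneg_left (add_le_add hH1 hH2) (by positivity)
      _ = C2 ^ n * (2 ^ (n - 1) * C3 ^ (n - 1)) * Y := by rw [hY]; ring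
  calc p2 j ^ n * ∫ x in rg x₀ j, ‖v x - Mn μ x₀ j v‖ ^ n
      ≤ p2 j ^ n * (2 ^ (n - 1) * ((∫ x in rg x₀ j, ‖v x - ubar φ v (j + 5) x‖ ^ n) +
        (volume (rg x₀ j)).toReal * (C2 * (p2 j ^ (n - 1) * I)) ^ n)) :=
        mul_le_mul_of_nonneg_left h2 (by positivity)
    _ = 2 ^ (n - 1) * ((p2 j ^ n * ∫ x in rg x₀ j, ‖v x - ubar φ v (j + 5) x‖ ^ n) +
        (p2 j ^ n * (volume (rg x₀ j)).toReal) * (C2 * (p2 j ^ (n - 1) * I)) ^ n) := by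
        ring
    _ ≤ 2 ^ (n - 1) * (C1 * Y + C3 * (C2 ^ n * (2 ^ (n - 1) * C3 ^ (n - 1)) * Y)) := by
        apply mul_le_mul_of_nonneg_left _ (by positivity)
        exact add_le_add e1 (mul_le_mul w3 hXX (by positivity) (by linarith))
    _ = 2 ^ (n - 1) * (C1 + C3 * (C2 ^ n * (2 ^ (n - 1) * C3 ^ (n - 1)))) * Y := by ring

end H28NP
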