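import Pool.Agent.H28.NP.Def

/-!
# [H28 NP THINEX] Existence of thin radial densities

`g₀ : ℝ → ℝ` a smooth bump: `ContDiffBump` (centre `3/2`, `rIn = κ/2`, `rOut = κ`), so `g₀ ≥ 0`, smooth, `g₀ t = 0` for
`κ ≤ |t - 3/2|` and `g₀ t > 0` for `|t - 3/2| < κ`. Put `μ₀ x = g₀ ‖x‖`. It is smooth: on the open set `{x ≠ 0}` the norm is
smooth (`contDiffAt_norm`), and on `ball 0 1` the function is constantly `0`, because `|‖x‖ - 3/2| ≥ 1/2 > κ` there.
It is nonnegative, continuous, vanishes outside `closedBall 0 2` (compact support, so integrable), and positive on the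
nonempty open set `{x | |‖x‖ - 3/2| < κ}` (it contains `(3/2) e_0`; `n ≥ 1`), so `I = ∫ μ₀ > 0`
(`Continuous.integral_pos_of_hasCompactSupport_nonneg_nonzero` or `integral_pos_iff_support_of_nonneg`). Take `μ = μ₀ / I`
with the profile `g = g₀ / I`.
-/

set_option autoImplicit false

namespace H28NP

open H60NH H60NT MeasureTheory Metric Set Filter Topology
open scoped ENNReal NNReal ContDiff

theorem thin_ex (n : ℕ) (hn : 1 ≤ n) (κ : ℝ) (h0 : 0 < κ) (h1 : κ ≤ 1 / 4) :
    ∃ μ : E n → ℝ, Thin μ κ := by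
  classical
  let g₀ : ContDiffBump (3 / 2 : ℝ) := ⟨κ / 2, κ, by linarith, by linarith⟩
  have hg0s : ContDiff ℝ ∞ (fun t : ℝ => g₀ t) := g₀.contDiff
  have hg0n : ∀ t : ℝ, 0 ≤ g₀ t := fun t => g₀.nonneg
  have hg0z : ∀ t : ℝ, κ ≤ |t - 3 / 2| → g₀ t = 0 := by
    intro t ht
    apply g₀.zero_of_le_dist
    rw [Real.dist_eq]
    exact ht
  have hg0p : ∀ t : ℝ, |t - 3 / 2| < κ → 0 < g₀ t := by
    intro t ht
    apply g₀.pos_of_mem_ball
    rw [mem_ball, Real.dist_eq]
    exact ht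
  set μ₀ : E n → ℝ := fun x => g₀ ‖x‖ with hμ₀
  have hsm : ContDiff ℝ ∞ μ₀ := by
    rw [contDiff_iff_contDiffAt]
    intro x
    by_cases hx : x = 0
    · have hz : μ₀ =ᶠ[𝓝 x] fun _ => (0 : ℝ) := by
        filter_upwards [ball_mem_nhds x (zero_lt_one)] with y hy
        rw [hx, mem_ball, dist_zero_right] at hy
        apply hg0z
        rw [abs_sub_comm, abs_of_nonneg (by linarith)]
        linarith
      exact (contDiffAt_const).congr_of_eventuallyEq hz
    · exact (hg0s.contDiffAt).comp x (contDiffAt_norm ℝ hx)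
  have hnn : ∀ x, 0 ≤ μ₀ x := fun x => hg0n _
  have hsup : ∀ x, x ∉ closedBall (0 : E n) 2 → μ₀ x = 0 := by
    intro x hx
    rw [mem_closedBall, dist_zero_right, not_le] at hx
    apply hg0z
    rw [abs_of_nonneg (by linarith)]
    linarith
  have hcs : HasCompactSupport μ₀ := HasCompactSupport.intro (isCompact_closedBall (0 : E n) 2) hsup
  have hint : Integrable μ₀ := hsm.continuous.integrable_of_hasCompactSupport hcs
  have hpos : 0 < ∫ x, μ₀ x := by
    have i0 : Fin n := ⟨0, hn⟩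
    have hx0 : μ₀ (EuclideanSpace.single i0 (3 / 2 : ℝ)) ≠ 0 := by
      apply ne_of_gt
      apply hg0p
      rw [EuclideanSpace.norm_single]
      norm_num
      exact h0
    exact hsm.continuous.integral_pos_of_hasCompactSupport_nonneg_nonzero hcs hnn hx0
  set I := ∫ x, μ₀ x with hI
  refine ⟨fun x => μ₀ x / I, ?_, ?_, ?_, ?_, ?_⟩
  · exact hsm.div_const I
  · intro x
    exact div_nonneg (hnn x) hpos.le
  · rw [integral_div, ← hI]
    exact div_self hpos.ne'
  · intro x hx
    show μ₀ x / I = 0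
    rw [hμ₀]
    show g₀ ‖x‖ / I = 0
    rw [hg0z _ hx.le, zero_div]
  · exact ⟨fun t => g₀ t / I, hg0s.div_const I, fun x => rfl⟩

end H28NP
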