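import Pool.Agent.H28.NP.VwFat

/-!
# [H28 NP VWL] The distance between the map and its mollification on a ring, in L^1, L^2 and L^n

* `vw_L1`: `ps_Lq` with `q = 1`, `θ = 0` (`T = fr x₀ j`, finite volume by `fr_vol`), `h = gr g x₀ j univ` (`gr_int`,
  `∫ h = ∫ in fr x₀ j, gn g`), `k = j + 5`, `(1/p2 (j+5)) ≤ 1/p2 j`, then `vw_fatou` with
  `B = C₁ (1/p2 j) ∫ in fr, gn g`; multiply by `p2 j^n`.
* `vw_L2`: the same with `q = 2`, `θ = 0` (here `2 ≤ n`).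
* `vw_Ln`: `h = gr g x₀ j univ = h₁ + h₂`, `h₁ = gr g x₀ j S`, `h₂ = gr g x₀ j Sᶜ`, `ps h = ps h₁ + ps h₂`, `(a + b)^n ≤ 2^(n-1) (a^n + b^n)`
  (`add_pow_le`). For `h₁`: `ps_Lq` with `q = n`, `θ = 0`. For `h₂`: `ps_Lq` with `q = n`, `θ = 1/(2n-1)` (`nθ ≤ 3/5` as `n ≥ 3`, `θ ≤ n - 1`) and
  `T = fr x₀ j \ S`: with `p2 (j+5) = 32 p2 j`, `(p2 (j+5)^n |T|)^θ ≤ 32^n (p2 j^n |T|)^θ` (`θ ≤ 1`), and `∫ h₂^n ≤ ∫ in fr, gn g^n`.
  Then `vw_fatou` and multiply by `p2 j^n` (`(1/p2 (j+5))^n ≤ (1/p2 j)^n`).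
-/

set_option autoImplicit false

namespace H28NP

open H60NH H60NT MeasureTheory Metric Set Filter Topology
open scoped ENNReal NNReal ContDiff

private theorem vwl_out {n m : ℕ} (g : E n → Fin n → E m) (x₀ : E n) (j : ℕ) (S : Set (E n))
    (T : Set (E n)) (hT : fr x₀ j ∩ S ⊆ T) (x : E n) (hx : x ∉ T) : gr g x₀ j S x = 0 := by
  unfold gr
  exact indicator_of_notMem (fun h => hx (hT h)) _

private theorem vwl_p2 (j : ℕ) : 0 < p2 j ∧ p2 (j + 5) = 32 * p2 j := by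
  unfold p2
  constructor
  · positivity
  · ring

private theorem vwl_q (n m : ℕ) (hn : 3 ≤ n) {φ : E n → ℝ} {Θ : Fin n → E n → ℝ} {M : ℝ}
    (hφ : Moll φ Θ M) (q : ℕ) (hq : 1 ≤ q) (hqn : q ≤ n) : ∃ C : ℝ, 1 ≤ C ∧
    ∀ (v : E n → E m) (g : E n → Fin n → E m), VG v g → ∀ (x₀ : E n) (j : ℕ), ‖x₀‖ ≤ 2 →
      IntegrableOn (fun x => ‖v x - ubar φ v (j + 5) x‖ ^ q) (rg x₀ j) ∧
      p2 j ^ n * ∫ x in rg x₀ j, ‖v x - ubar φ v (j + 5) x‖ ^ q ≤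
        C * (p2 j ^ (n - q) * ∫ y in fr x₀ j, gn (g y) ^ q) := by
  have hn1 : 1 ≤ n := by omega
  have hq1 : (1 : ℝ) ≤ q := by exact_mod_cast hq
  obtain ⟨C1, hC1, H⟩ := ps_Lq n hn1 q hq 0 le_rfl (by linarith) (by norm_num)
  obtain ⟨_, _, hvol⟩ := fr_vol n hn1
  have hM := hφ.one_le
  have hnM : 1 ≤ (n : ℝ) * M :=
    one_le_mul_of_one_le_of_one_le (by exact_mod_cast hn1) hM
  refine ⟨(n * M) ^ q * C1, one_le_mul_of_one_le_of_one_le (one_le_pow₀ hnM) hC1, ?_⟩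
  intro v g hv x₀ j hx₀
  obtain ⟨hp, hp5⟩ := vwl_p2 j
  obtain ⟨hiq, heq⟩ := gr_int hn1 hv x₀ j univ MeasurableSet.univ q hq hqn
  have hi1 : Integrable (gr g x₀ j univ) := by
    have h1 := (gr_int hn1 hv x₀ j univ MeasurableSet.univ 1 le_rfl hn1).1
    simpa only [pow_one] using h1
  have hH := H (gr g x₀ j univ) (fr x₀ j) (rg_meas x₀ j).2.1 (hvol x₀ j).2.1
    (gr_nonneg g x₀ j univ) hi1 hiq
    (fun x hx => vwl_out g x₀ j univ (fr x₀ j) inter_subset_left x hx)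
  obtain ⟨Iq, hIq⟩ : ∃ Iq : ℝ, Iq = ∫ y in fr x₀ j, gn (g y) ^ q := ⟨_, rfl⟩
  have hIq0 : 0 ≤ Iq := by
    rw [hIq]
    exact integral_nonneg fun y => pow_nonneg (Real.sqrt_nonneg _) _
  rw [inter_univ, ← hIq] at heq
  obtain ⟨h1, h2⟩ := vw_fatou hn1 hφ hv x₀ j hx₀ q hq (C1 * ((1 / p2 (j + 5)) ^ q * Iq))
    (fun K => (hH K (j + 5)).1) (fun K => by
      refine (hH K (j + 5)).2.trans (le_of_eq ?_)
      rw [heq, Real.rpow_zero, one_mul])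
  refine ⟨h1, ?_⟩
  rw [← hIq]
  have h3 : (1 / p2 (j + 5)) ^ q ≤ (1 / p2 j) ^ q := by
    refine pow_le_pow_left₀ (by rw [hp5]; positivity) ?_ q
    rw [hp5]
    exact div_le_div_of_nonneg_left zero_le_one hp (by linarith)
  have h4 : p2 j ^ n * (1 / p2 j) ^ q = p2 j ^ (n - q) := by
    have h5 : p2 j ^ n = p2 j ^ (n - q) * p2 j ^ q := by
      rw [← pow_add, Nat.sub_add_cancel hqn]
    rw [h5, mul_assoc, ← mul_pow, mul_one_div_cancel hp.ne', one_pow, mul_one]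
  calc p2 j ^ n * ∫ x in rg x₀ j, ‖v x - ubar φ v (j + 5) x‖ ^ q
      ≤ p2 j ^ n * ((n * M) ^ q * (C1 * ((1 / p2 (j + 5)) ^ q * Iq))) :=
        mul_le_mul_of_nonneg_left h2 (by positivity)
    _ = (n * M) ^ q * C1 * (p2 j ^ n * (1 / p2 (j + 5)) ^ q * Iq) := by ring
    _ ≤ (n * M) ^ q * C1 * (p2 j ^ n * (1 / p2 j) ^ q * Iq) := by
        refine mul_le_mul_of_nonneg_left ?_ (by positivity)
        exact mul_le_mul_of_nonneg_right (mul_le_mul_of_nonneg_left h3 (by positivity)) hIq0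
    _ = (n * M) ^ q * C1 * (p2 j ^ (n - q) * Iq) := by rw [h4]

theorem vw_L1 (n m : ℕ) (hn : 3 ≤ n) {φ : E n → ℝ} {Θ : Fin n → E n → ℝ} {M : ℝ}
    (hφ : Moll φ Θ M) : ∃ C : ℝ, 1 ≤ C ∧
    ∀ (v : E n → E m) (g : E n → Fin n → E m), VG v g → ∀ (x₀ : E n) (j : ℕ), ‖x₀‖ ≤ 2 →
      IntegrableOn (fun x => ‖v x - ubar φ v (j + 5) x‖) (rg x₀ j) ∧
      p2 j ^ n * ∫ x in rg x₀ j, ‖v x - ubar φ v (j + 5) x‖ ≤
        C * (p2 j ^ (n - 1) * ∫ y in fr x₀ j, gn (g y)) := by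
  obtain ⟨C, hC, H⟩ := vwl_q n m hn hφ 1 le_rfl (by omega)
  refine ⟨C, hC, ?_⟩
  simpa only [pow_one] using H

theorem vw_L2 (n m : ℕ) (hn : 3 ≤ n) {φ : E n → ℝ} {Θ : Fin n → E n → ℝ} {M : ℝ}
    (hφ : Moll φ Θ M) : ∃ C : ℝ, 1 ≤ C ∧
    ∀ (v : E n → E m) (g : E n → Fin n → E m), VG v g → ∀ (x₀ : E n) (j : ℕ), ‖x₀‖ ≤ 2 →
      IntegrableOn (fun x => ‖v x - ubar φ v (j + 5) x‖ ^ 2) (rg x₀ j) ∧
      p2 j ^ n * ∫ x in rg x₀ j, ‖v x - ubar φ v (j + 5) x‖ ^ 2 ≤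
        C * (p2 j ^ (n - 2) * ∫ y in fr x₀ j, gn (g y) ^ 2) :=
  vwl_q n m hn hφ 2 (by norm_num) (by omega)

private theorem vwl_split {n m : ℕ} (hn : 1 ≤ n) {v : E n → E m} {g : E n → Fin n → E m}
    (hv : VG v g) (x₀ : E n) (j : ℕ) (S : Set (E n)) (hS : MeasurableSet S) (K k : ℕ) (x : E n) :
    ps (gr g x₀ j univ) K k x = ps (gr g x₀ j S) K k x + ps (gr g x₀ j Sᶜ) K k x := by
  have hi : ∀ T : Set (E n), MeasurableSet T → Integrable (gr g x₀ j T) := by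
    intro T hT
    have h1 := (gr_int hn hv x₀ j T hT 1 le_rfl hn).1
    simpa only [pow_one] using h1
  have h2 : ∀ y, gr g x₀ j univ y = gr g x₀ j S y + gr g x₀ j Sᶜ y := by
    intro y
    unfold gr
    by_cases h3 : y ∈ fr x₀ j
    · by_cases h4 : y ∈ S
      · rw [indicator_of_mem (mem_inter h3 (mem_univ y)),
          indicator_of_mem (mem_inter h3 h4),
          indicator_of_notMem (fun h : y ∈ fr x₀ j ∩ Sᶜ => h.2 h4), add_zero]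
      · rw [indicator_of_mem (mem_inter h3 (mem_univ y)),
          indicator_of_notMem (fun h : y ∈ fr x₀ j ∩ S => h4 h.2),
          indicator_of_mem (mem_inter h3 (mem_compl h4)), zero_add]
    · rw [indicator_of_notMem (fun h : y ∈ fr x₀ j ∩ univ => h3 h.1),
        indicator_of_notMem (fun h : y ∈ fr x₀ j ∩ S => h3 h.1),
        indicator_of_notMem (fun h : y ∈ fr x₀ j ∩ Sᶜ => h3 h.1), add_zero]
  unfold ps
  rw [← Finset.sum_add_distrib]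
  refine Finset.sum_congr rfl fun i _ => ?_
  unfold pw
  rw [← mul_add, ← integral_add (hi S hS).integrableOn (hi Sᶜ hS.compl).integrableOn]
  congr 1
  exact integral_congr_ae (Filter.Eventually.of_forall h2)

theorem vw_Ln (n m : ℕ) (hn : 3 ≤ n) {φ : E n → ℝ} {Θ : Fin n → E n → ℝ} {M : ℝ}
    (hφ : Moll φ Θ M) : ∃ C : ℝ, 1 ≤ C ∧
    ∀ (v : E n → E m) (g : E n → Fin n → E m), VG v g → ∀ (x₀ : E n) (j : ℕ), ‖x₀‖ ≤ 2 →
    ∀ S : Set (E n), MeasurableSet S →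
      IntegrableOn (fun x => ‖v x - ubar φ v (j + 5) x‖ ^ n) (rg x₀ j) ∧
      p2 j ^ n * ∫ x in rg x₀ j, ‖v x - ubar φ v (j + 5) x‖ ^ n ≤
        C * ((∫ y in fr x₀ j ∩ S, gn (g y) ^ n) +
          (p2 j ^ n * (volume (fr x₀ j \ S)).toReal) ^ (1 / (2 * n - 1 : ℝ)) *
            ∫ y in fr x₀ j, gn (g y) ^ n) := by
  have hn1 : 1 ≤ n := by omega
  have hn3 : (3 : ℝ) ≤ n := by exact_mod_cast hn
  obtain ⟨θ, hθ⟩ : ∃ θ : ℝ, θ = 1 / (2 * n - 1 : ℝ) := ⟨_, rfl⟩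
  have hθ0 : 0 ≤ θ := by
    rw [hθ]
    exact div_nonneg zero_le_one (by linarith)
  have hθ1 : θ ≤ 1 := by
    rw [hθ, div_le_one (by linarith)]
    linarith
  have hθn : n * θ ≤ 3 / 5 := by
    rw [hθ, mul_one_div, div_le_div_iff₀ (by linarith) (by norm_num)]
    linarith
  obtain ⟨Ca, hCa, Ha⟩ := ps_Lq n hn1 n hn1 0 le_rfl (by linarith) (by norm_num)
  obtain ⟨Cb, hCb, Hb⟩ := ps_Lq n hn1 n hn1 θ hθ0 (by linarith) hθn
  obtain ⟨_, _, hvol⟩ := fr_vol n hn1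
  have hM := hφ.one_le
  have hnM : 1 ≤ (n : ℝ) * M :=
    one_le_mul_of_one_le_of_one_le (by exact_mod_cast hn1) hM
  have h32 : (1 : ℝ) ≤ 32 ^ n := one_le_pow₀ (by norm_num)
  obtain ⟨D, hD⟩ : ∃ D : ℝ, D = Ca + Cb * 32 ^ n := ⟨_, rfl⟩
  have hCb32 : 1 ≤ Cb * 32 ^ n := one_le_mul_of_one_le_of_one_le hCb h32
  have hD1 : 1 ≤ D := by
    rw [hD]
    linarith
  refine ⟨(n * M) ^ n * (2 ^ (n - 1) * D), one_le_mul_of_one_le_of_one_le (one_le_pow₀ hnM)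
    (one_le_mul_of_one_le_of_one_le (one_le_pow₀ (by norm_num)) hD1), ?_⟩
  intro v g hv x₀ j hx₀ S hS
  rw [← hθ]
  obtain ⟨hp, hp5⟩ := vwl_p2 j
  have hp5' : 0 < p2 (j + 5) := by rw [hp5]; positivity
  have hfrm : MeasurableSet (fr x₀ j) := (rg_meas x₀ j).2.1
  have hfin := (hvol x₀ j).2.1
  have hi1 : ∀ T : Set (E n), MeasurableSet T → Integrable (gr g x₀ j T) := by
    intro T hT
    have h1 := (gr_int hn1 hv x₀ j T hT 1 le_rfl hn1).1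
    simpa only [pow_one] using h1
  obtain ⟨hiu, -⟩ := gr_int hn1 hv x₀ j univ MeasurableSet.univ n hn1 le_rfl
  obtain ⟨hiS, heS⟩ := gr_int hn1 hv x₀ j S hS n hn1 le_rfl
  obtain ⟨hiC, heC⟩ := gr_int hn1 hv x₀ j Sᶜ hS.compl n hn1 le_rfl
  have hU := Ha (gr g x₀ j univ) (fr x₀ j) hfrm hfin (gr_nonneg g x₀ j univ)
    (hi1 univ MeasurableSet.univ) hiu
    (fun x hx => vwl_out g x₀ j univ (fr x₀ j) inter_subset_left x hx)
  have hSa := Ha (gr g x₀ j S) (fr x₀ j) hfrm hfin (gr_nonneg g x₀ j S) (hi1 S hS) hiS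
    (fun x hx => vwl_out g x₀ j S (fr x₀ j) inter_subset_left x hx)
  have hCa' := Hb (gr g x₀ j Sᶜ) (fr x₀ j \ S) (hfrm.diff hS)
    ((measure_mono sdiff_subset).trans_lt hfin) (gr_nonneg g x₀ j Sᶜ) (hi1 Sᶜ hS.compl) hiC
    (fun x hx => vwl_out g x₀ j Sᶜ (fr x₀ j \ S) (fun y hy => ⟨hy.1, hy.2⟩) x hx)
  obtain ⟨I1, hI1⟩ : ∃ I1 : ℝ, I1 = ∫ y in fr x₀ j ∩ S, gn (g y) ^ n := ⟨_, rfl⟩
  obtain ⟨I2, hI2⟩ : ∃ I2 : ℝ, I2 = ∫ y in fr x₀ j, gn (g y) ^ n := ⟨_, rfl⟩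
  obtain ⟨X, hX⟩ : ∃ X : ℝ, X = (p2 j ^ n * (volume (fr x₀ j \ S)).toReal) ^ θ := ⟨_, rfl⟩
  rw [← hI1, ← hI2, ← hX]
  rw [← hI1] at heS
  have hI10 : 0 ≤ I1 := by
    rw [hI1]
    exact integral_nonneg fun y => pow_nonneg (Real.sqrt_nonneg _) _
  have hI20 : 0 ≤ I2 := by
    rw [hI2]
    exact integral_nonneg fun y => pow_nonneg (Real.sqrt_nonneg _) _
  have hX0 : 0 ≤ X := by
    rw [hX]
    exact Real.rpow_nonneg (mul_nonneg (pow_nonneg hp.le _) ENNReal.toReal_nonneg) _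
  have hIC : ∫ x, gr g x₀ j Sᶜ x ^ n ≤ I2 := by
    rw [heC, hI2]
    exact setIntegral_mono_set hv.int_gn.integrableOn
      (Filter.Eventually.of_forall fun y => pow_nonneg (Real.sqrt_nonneg _) _)
      (Filter.Eventually.of_forall inter_subset_left)
  have hIC0 : 0 ≤ ∫ x, gr g x₀ j Sᶜ x ^ n :=
    integral_nonneg fun y => pow_nonneg (gr_nonneg g x₀ j Sᶜ y) _
  have hXX : (p2 (j + 5) ^ n * (volume (fr x₀ j \ S)).toReal) ^ θ ≤ 32 ^ n * X := by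
    have h1 : p2 (j + 5) ^ n * (volume (fr x₀ j \ S)).toReal =
        32 ^ n * (p2 j ^ n * (volume (fr x₀ j \ S)).toReal) := by
      rw [hp5, mul_pow]
      ring
    rw [h1, Real.mul_rpow (by positivity)
      (mul_nonneg (pow_nonneg hp.le _) ENNReal.toReal_nonneg), ← hX]
    refine mul_le_mul_of_nonneg_right ?_ hX0
    calc ((32 : ℝ) ^ n) ^ θ ≤ ((32 : ℝ) ^ n) ^ (1 : ℝ) :=
          Real.rpow_le_rpow_of_exponent_le h32 hθ1
      _ = 32 ^ n := Real.rpow_one _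
  obtain ⟨t, ht⟩ : ∃ t : ℝ, t = (1 / p2 (j + 5)) ^ n := ⟨_, rfl⟩
  have ht0 : 0 ≤ t := by
    rw [ht]
    positivity
  have htp : p2 j ^ n * t ≤ 1 := by
    rw [ht, ← mul_pow]
    refine pow_le_one₀ (by positivity) ?_
    rw [hp5, mul_one_div, div_le_one (by positivity)]
    linarith
  obtain ⟨h1, h2⟩ := vw_fatou hn1 hφ hv x₀ j hx₀ n hn1
    (2 ^ (n - 1) * (D * (t * (I1 + X * I2)))) (fun K => (hU K (j + 5)).1) (fun K => by
      have hb1 : ∫ x, ps (gr g x₀ j univ) K (j + 5) x ^ n ≤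
          ∫ x, (2 ^ (n - 1) * (ps (gr g x₀ j S) K (j + 5) x ^ n +
            ps (gr g x₀ j Sᶜ) K (j + 5) x ^ n)) := by
        refine integral_mono (hU K (j + 5)).1
          (((hSa K (j + 5)).1.add (hCa' K (j + 5)).1).const_mul _) fun x => ?_
        beta_reduce
        rw [vwl_split hn1 hv x₀ j S hS K (j + 5) x]
        exact add_pow_le (ps_nonneg (gr_nonneg g x₀ j S) K (j + 5) x)
          (ps_nonneg (gr_nonneg g x₀ j Sᶜ) K (j + 5) x) n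
      rw [integral_const_mul, integral_add (hSa K (j + 5)).1 (hCa' K (j + 5)).1] at hb1
      refine hb1.trans (mul_le_mul_of_nonneg_left ?_ (by positivity))
      have hb2 := (hSa K (j + 5)).2
      rw [heS, Real.rpow_zero, one_mul, ← ht] at hb2
      have hb3 := (hCa' K (j + 5)).2
      rw [← ht] at hb3
      have hb4 : (p2 (j + 5) ^ n * (volume (fr x₀ j \ S)).toReal) ^ θ * t *
          ∫ x, gr g x₀ j Sᶜ x ^ n ≤ 32 ^ n * X * t * I2 :=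
        mul_le_mul (mul_le_mul_of_nonneg_right hXX ht0) hIC hIC0 (by positivity)
      have hb5 := mul_le_mul_of_nonneg_left hb4 (show 0 ≤ Cb by linarith)
      have hb6 : D * (t * (I1 + X * I2)) = Ca * (t * I1) + Cb * (32 ^ n * X * t * I2) +
          (Cb * 32 ^ n * (t * I1) + Ca * (t * (X * I2))) := by
        rw [hD]
        ring
      have hb7 : 0 ≤ Cb * 32 ^ n * (t * I1) + Ca * (t * (X * I2)) := by positivity
      rw [hb6]
      linarith)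
  refine ⟨h1, ?_⟩
  have hR0 : 0 ≤ I1 + X * I2 := by positivity
  calc p2 j ^ n * ∫ x in rg x₀ j, ‖v x - ubar φ v (j + 5) x‖ ^ n
      ≤ p2 j ^ n * ((n * M) ^ n * (2 ^ (n - 1) * (D * (t * (I1 + X * I2))))) :=
        mul_le_mul_of_nonneg_left h2 (by positivity)
    _ = (n * M) ^ n * (2 ^ (n - 1) * D) * ((p2 j ^ n * t) * (I1 + X * I2)) := by ring
    _ ≤ (n * M) ^ n * (2 ^ (n - 1) * D) * (1 * (I1 + X * I2)) := by
        refine mul_le_mul_of_nonneg_left (mul_le_mul_of_nonneg_right htp hR0) (by positivity)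
    _ = (n * M) ^ n * (2 ^ (n - 1) * D) * (I1 + X * I2) := by rw [one_mul]

end H28NP
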