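import Pool.Agent.H28.NP.FrBall
import Pool.Agent.H60.NH.MSmooth

/-!
# [H28 NP WPATH] The mollified map varies little on a ring

`w = ubar φ v (j + 5)` is smooth (`ubar_smooth`). Let `a = x - x₀`, `a' = x' - x₀`, `R = 1/p2 j`, `R ≤ ‖a‖, ‖a'‖ ≤ 2R`. As `n ≥ 3` there
is a unit vector `e` orthogonal to `a` and `a'` (the orthogonal complement of the span of two vectors has dimension at
least one: `finrank_add_finrank_orthogonal`-type lemma, `exists_ne_zero…`; normalise). Let `z = x₀ + R • e`. For `t ∈ [0, 1]` the point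
`x₀ + (1-t) • a + (t R) • e` of the segment `[x, z]` has distance `d` from `x₀` with `d^2 = (1-t)^2 ‖a‖^2 + t^2 R^2`, so
`d^2 ≥ ((1-t)^2 + t^2) R^2 ≥ R^2/2 ≥ (2/3)^2 R^2` and `d ≤ 2 R ≤ 3 R`. So `‖fderiv w‖ ≤ n 32^n M (p^n ∫ in fr, gn g)` on the segment
(`w_der`) and by `Convex.norm_image_sub_le_of_norm_fderiv_le` (segment `[x -[ℝ] z]`, convex)
`‖w z - w x‖ ≤ n 32^n M (p^n ∫) ‖z - x‖`, `‖z - x‖ ≤ 3R`, `p^n R = p^(n-1)`. Same for `x'`. `C = 6 n 32^n M` (at least one).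
-/

set_option autoImplicit false

namespace H28NP

open H60NH H60NT MeasureTheory Metric Set Filter Topology
open scoped ENNReal NNReal ContDiff

private theorem wp_perp {n : ℕ} (hn : 3 ≤ n) (a a' : E n) :
    ∃ e : E n, ‖e‖ = 1 ∧ inner ℝ a e = 0 ∧ inner ℝ a' e = 0 := by
  set W : Submodule ℝ (E n) := Submodule.span ℝ (({a, a'} : Finset (E n)) : Set (E n)) with hW
  have h1 : Module.finrank ℝ W ≤ 2 :=
    (finrank_span_finset_le_card _).trans Finset.card_le_two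
  have h2 : Wᗮ ≠ ⊥ := by
    intro h
    rw [Submodule.orthogonal_eq_bot_iff] at h
    rw [h, finrank_top, finrank_euclideanSpace, Fintype.card_fin] at h1
    omega
  obtain ⟨e, he, he0⟩ := Submodule.exists_mem_ne_zero_of_ne_bot h2
  have hne : ‖e‖ ≠ 0 := norm_ne_zero_iff.2 he0
  have ha : a ∈ W := Submodule.subset_span (by simp)
  have ha' : a' ∈ W := Submodule.subset_span (by simp)
  rw [Submodule.mem_orthogonal] at he
  refine ⟨(‖e‖)⁻¹ • e, ?_, ?_, ?_⟩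
  · rw [norm_smul, norm_inv, norm_norm, inv_mul_cancel₀ hne]
  · rw [real_inner_smul_right, he a ha, mul_zero]
  · rw [real_inner_smul_right, he a' ha', mul_zero]

private theorem wp_norm {n : ℕ} (a e : E n) (he : ‖e‖ = 1) (hae : inner ℝ a e = 0) (s t : ℝ) :
    ‖s • a + t • e‖ ^ 2 = s ^ 2 * ‖a‖ ^ 2 + t ^ 2 := by
  rw [norm_add_sq_real, real_inner_smul_left, real_inner_smul_right, hae, norm_smul, norm_smul, he,
    mul_pow, mul_pow, Real.norm_eq_abs, Real.norm_eq_abs, sq_abs, sq_abs]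
  ring

private theorem wp_seg {n m : ℕ} (w : E n → E m) (hw : Differentiable ℝ w) (x₀ x e : E n) (R D : ℝ)
    (hR : 0 < R) (h1 : R ≤ ‖x - x₀‖) (h2 : ‖x - x₀‖ ≤ 2 * R) (he : ‖e‖ = 1)
    (hae : inner ℝ (x - x₀) e = 0)
    (hD : ∀ y, 2 / 3 * R ≤ ‖y - x₀‖ → ‖y - x₀‖ ≤ 3 * R → ‖fderiv ℝ w y‖ ≤ D) :
    ‖w (x₀ + R • e) - w x‖ ≤ D * (3 * R) := by
  have hseg : ∀ y ∈ segment ℝ x (x₀ + R • e), ‖fderiv ℝ w y‖ ≤ D := by
    intro y hy
    rw [segment_eq_image] at hy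
    obtain ⟨t, ⟨ht0, ht1⟩, rfl⟩ := hy
    have e1 : (1 - t) • x + t • (x₀ + R • e) - x₀ = (1 - t) • (x - x₀) + (t * R) • e := by
      rw [smul_add, smul_smul, smul_sub, sub_smul, sub_smul, one_smul, one_smul]
      abel
    have e2 := wp_norm (x - x₀) e he hae (1 - t) (t * R)
    have hA : R ^ 2 ≤ ‖x - x₀‖ ^ 2 := pow_le_pow_left₀ hR.le h1 2
    have hB : ‖x - x₀‖ ^ 2 ≤ (2 * R) ^ 2 := pow_le_pow_left₀ (norm_nonneg _) h2 2
    apply hD
    · rw [e1]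
      refine le_of_sq_le_sq ?_ (norm_nonneg _)
      rw [e2]
      have h3 : (1 - t) ^ 2 * R ^ 2 ≤ (1 - t) ^ 2 * ‖x - x₀‖ ^ 2 :=
        mul_le_mul_of_nonneg_left hA (sq_nonneg _)
      have h4 : (1 : ℝ) / 2 ≤ (1 - t) ^ 2 + t ^ 2 := by nlinarith [sq_nonneg (2 * t - 1)]
      have h5 : 1 / 2 * R ^ 2 ≤ ((1 - t) ^ 2 + t ^ 2) * R ^ 2 :=
        mul_le_mul_of_nonneg_right h4 (sq_nonneg _)
      nlinarith [sq_nonneg R]
    · rw [e1]
      refine le_of_sq_le_sq ?_ (by positivity)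
      rw [e2]
      have h3 : (1 - t) ^ 2 * ‖x - x₀‖ ^ 2 ≤ (1 - t) ^ 2 * (2 * R) ^ 2 :=
        mul_le_mul_of_nonneg_left hB (sq_nonneg _)
      have h4 : (1 - t) ^ 2 ≤ 1 := by nlinarith
      have h5 : t ^ 2 ≤ 1 := by nlinarith
      have h6 : (1 - t) ^ 2 * R ^ 2 ≤ 1 * R ^ 2 := mul_le_mul_of_nonneg_right h4 (sq_nonneg _)
      have h7 : t ^ 2 * R ^ 2 ≤ 1 * R ^ 2 := mul_le_mul_of_nonneg_right h5 (sq_nonneg _)
      nlinarith [sq_nonneg R]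
  have h3 := (convex_segment x (x₀ + R • e)).norm_image_sub_le_of_norm_fderiv_le
    (fun y _ => hw y) hseg (left_mem_segment ℝ _ _) (right_mem_segment ℝ _ _)
  have hD0 : 0 ≤ D := (norm_nonneg _).trans (hseg x (left_mem_segment ℝ _ _))
  refine h3.trans (mul_le_mul_of_nonneg_left ?_ hD0)
  have e3 : x₀ + R • e - x = R • e - (x - x₀) := by abel
  rw [e3]
  refine (norm_sub_le _ _).trans ?_
  rw [norm_smul, he, Real.norm_of_nonneg hR.le]
  linarith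

theorem w_path (n m : ℕ) (hn : 3 ≤ n) {φ : E n → ℝ} {Θ : Fin n → E n → ℝ} {M : ℝ}
    (hφ : Moll φ Θ M) : ∃ C : ℝ, 1 ≤ C ∧
    ∀ (v : E n → E m) (g : E n → Fin n → E m), VG v g → ∀ (x₀ : E n) (j : ℕ), ‖x₀‖ ≤ 2 →
      ∀ x ∈ rg x₀ j, ∀ x' ∈ rg x₀ j, ‖ubar φ v (j + 5) x - ubar φ v (j + 5) x'‖ ≤
        C * (p2 j ^ (n - 1) * ∫ y in fr x₀ j, gn (g y)) := by
  have hn1 : (1 : ℝ) ≤ n := by exact_mod_cast (by omega : 1 ≤ n)
  have hM := hφ.one_le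
  have h32 : (1 : ℝ) ≤ 32 ^ n := one_le_pow₀ (by norm_num)
  refine ⟨6 * (n * 32 ^ n * M), ?_, ?_⟩
  · have h1 : (1 : ℝ) ≤ n * 32 ^ n := one_le_mul_of_one_le_of_one_le hn1 h32
    have h2 : (1 : ℝ) ≤ n * 32 ^ n * M := one_le_mul_of_one_le_of_one_le h1 hM
    linarith
  intro v g hv x₀ j hx₀ x hx x' hx'
  have hp : 0 < p2 j := by unfold p2; positivity
  obtain ⟨e, he, h1, h2⟩ := wp_perp hn (x - x₀) (x' - x₀)
  have hw : Differentiable ℝ (ubar φ v (j + 5)) :=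
    (ubar_smooth hφ v hv.int_v (j + 5)).differentiable (by simp)
  set I : ℝ := ∫ y in fr x₀ j, gn (g y) with hI
  have hD : ∀ y, 2 / 3 * (1 / p2 j) ≤ ‖y - x₀‖ → ‖y - x₀‖ ≤ 3 * (1 / p2 j) →
      ‖fderiv ℝ (ubar φ v (j + 5)) y‖ ≤ n * 32 ^ n * M * (p2 j ^ n * I) := by
    intro y hy1 hy2
    refine w_der (by omega) hφ hv x₀ j hx₀ y ?_ ?_
    · refine le_trans (le_of_eq ?_) hy1
      field_simp
    · refine hy2.trans (le_of_eq ?_)
      field_simp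
  have hR : 0 < 1 / p2 j := by positivity
  have e2 : 2 / p2 j = 2 * (1 / p2 j) := by ring
  have s1 := wp_seg (ubar φ v (j + 5)) hw x₀ x e (1 / p2 j) _ hR hx.1 (by rw [← e2]; exact hx.2) he
    h1 hD
  have s2 := wp_seg (ubar φ v (j + 5)) hw x₀ x' e (1 / p2 j) _ hR hx'.1
    (by rw [← e2]; exact hx'.2) he h2 hD
  have e3 : n * 32 ^ n * M * (p2 j ^ n * I) * (3 * (1 / p2 j)) =
      3 * (n * 32 ^ n * M) * (p2 j ^ (n - 1) * I) := by
    have e4 : p2 j ^ n = p2 j ^ (n - 1) * p2 j := by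
      rw [← pow_succ]
      congr 1
      omega
    rw [e4]
    field_simp
  rw [e3] at s1 s2
  have e5 : ubar φ v (j + 5) x - ubar φ v (j + 5) x' =
      (ubar φ v (j + 5) (x₀ + (1 / p2 j) • e) - ubar φ v (j + 5) x') -
        (ubar φ v (j + 5) (x₀ + (1 / p2 j) • e) - ubar φ v (j + 5) x) := by abel
  rw [e5]
  refine (norm_sub_le _ _).trans ?_
  linarith

end H28NP
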