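import Pool.Agent.H28.NP.MnDiff
import Pool.Agent.H28.NP.WPath
import Pool.Agent.H28.NP.VwL
import Pool.Agent.H28.NP.ThinEx

/-!
# [H28 NP RMEAN] (4a): the mean over a thin shell and the mollified map

Part 1. Fix `μ'` with `Thin μ' (1/4)` (`thin_ex`); it is continuous with compact support, so `|μ'| ≤ C'`. `w = ubar φ v (j + 5)`, `p = p2 j`.
`Mn μ v - w x = (Mn μ v - Mn μ' v) + (Mn μ' v - Mn μ' w) + (Mn μ' w - w x)`. First: `mn_diff` (and `rg ⊆ fr`, `setIntegral_mono_set`,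
`gn g` integrable and nonnegative). Second: `μ'(p • (y - x₀)) = 0` unless `y ∈ rg x₀ j`, so the norm is at most
`C' p^n ∫ in rg, ‖v - w‖`, `vw_L1`. Third: `∫ p^n μ'(p • (y - x₀)) dy = 1` (change of variables, `integral_comp_smul`-type, translation), so
`Mn μ' w - w x = ∫ (p^n μ'(p • (y - x₀))) • (w y - w x)`, norm at most `C (p^(n-1) ∫ in fr, gn g)` by `w_path` (the kernel is nonnegative with integral
one and vanishes outside `rg x₀ j`; `x ∈ rg x₀ j`).

Part 2. Let `x` be a point with `‖x - x₀‖ = 1/p2 j`: it is in `rg x₀ j` and in `rg x₀ (j+1)` (`2/p2 (j+1) = 1/p2 j`). Part 1 for `j` and for `j + 1` (then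
`fr x₀ j`, `fr x₀ (j+1)` are both in the union, `p2 (j+1)^(n-1) = 2^(n-1) p2 j^(n-1)`), and `‖ubar φ v (j+6) x - ubar φ v (j+5) x‖ ≤ n M ps … (j+6) (j+5) x`
(`w_inc` with `K = j + 6`), `ps … (j+6) (j+5) x = pw … (j+5) x ≤ p2 (j+5)^(n-1) ∫ in fr, gn g`.
-/

set_option autoImplicit false

namespace H28NP

open H60NH H60NT MeasureTheory Metric Set Filter Topology
open scoped ENNReal NNReal ContDiff

private theorem rm_sub {n : ℕ} (x₀ : E n) (j : ℕ) : rg x₀ j ⊆ fr x₀ j := by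
  intro x hx
  have hp := (p2_succ j).2.1
  refine ⟨le_trans ?_ hx.1, hx.2.trans ?_⟩
  · exact one_div_le_one_div_of_le hp (by linarith)
  · exact div_le_div_of_nonneg_right (by norm_num) hp.le

private theorem rm_one {n : ℕ} {μ : E n → ℝ} {κ : ℝ} (hμ : Thin μ κ) (x₀ : E n) (j : ℕ) :
    ∫ y, p2 j ^ n * μ (p2 j • (y - x₀)) = 1 := by
  have hp := (p2_succ j).2.1
  rw [integral_const_mul]
  have h1 : ∫ y, μ (p2 j • (y - x₀)) = ∫ y, μ (p2 j • y) :=
    integral_sub_right_eq_self (fun y => μ (p2 j • y)) x₀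
  rw [h1, Measure.integral_comp_smul, hμ.int, finrank_euclideanSpace, Fintype.card_fin,
    smul_eq_mul, mul_one, abs_of_nonneg (by positivity)]
  exact mul_inv_cancel₀ (by positivity)

private theorem rm_ker {n : ℕ} {μ : E n → ℝ} {κ : ℝ} (hμ : Thin μ κ) (hκ : κ ≤ 1 / 4)
    (x₀ : E n) (j : ℕ) : Continuous (fun y => p2 j ^ n * μ (p2 j • (y - x₀))) ∧
      HasCompactSupport (fun y => p2 j ^ n * μ (p2 j • (y - x₀))) ∧
      (∀ y, y ∉ rg x₀ j → μ (p2 j • (y - x₀)) = 0) := by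
  have hp := (p2_succ j).2.1
  have h1 : ∀ y, y ∉ rg x₀ j → μ (p2 j • (y - x₀)) = 0 := by
    intro y hy
    apply hμ.supp
    rw [norm_smul, Real.norm_of_nonneg hp.le]
    by_contra hc
    rw [not_lt, abs_le] at hc
    apply hy
    constructor
    · rw [div_le_iff₀ hp]
      linarith [hc.1]
    · rw [le_div_iff₀ hp]
      linarith [hc.2]
  refine ⟨?_, ?_, h1⟩
  · exact continuous_const.mul (hμ.smooth.continuous.comp (by fun_prop))
  · have h2 : Function.support (fun y => p2 j ^ n * μ (p2 j • (y - x₀))) ⊆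
        closedBall x₀ (2 / p2 j) := by
      intro y hy
      rw [Function.mem_support] at hy
      by_contra hc
      apply hy
      rw [h1 y (fun h => hc ?_), mul_zero]
      rw [mem_closedBall, dist_eq_norm]
      exact h.2
    exact HasCompactSupport.of_support_subset_isCompact (isCompact_closedBall _ _) h2

private theorem rm_bd {n : ℕ} {μ : E n → ℝ} {κ : ℝ} (hμ : Thin μ κ) (hκ : κ ≤ 1 / 4) :
    ∃ C : ℝ, 1 ≤ C ∧ ∀ x, μ x ≤ C := by
  have h2 : Function.support μ ⊆ closedBall 0 2 := by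
    intro y hy
    rw [Function.mem_support] at hy
    rw [mem_closedBall, dist_zero_right]
    by_contra hc
    apply hy
    apply hμ.supp
    rw [lt_abs]
    left
    linarith
  obtain ⟨C, hC⟩ := (HasCompactSupport.of_support_subset_isCompact (isCompact_closedBall _ _)
    h2).exists_bound_of_continuous hμ.smooth.continuous
  refine ⟨max C 1, le_max_right _ _, fun x => ?_⟩
  exact ((le_abs_self _).trans (hC x)).trans (le_max_left _ _)

theorem ring_mean1 (n m : ℕ) (hn : 3 ≤ n) {φ : E n → ℝ} {Θ : Fin n → E n → ℝ} {M : ℝ}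
    (hφ : Moll φ Θ M) : ∃ C : ℝ, 1 ≤ C ∧ ∀ (μ : E n → ℝ) (κ : ℝ), κ ≤ 1 / 4 → Thin μ κ →
    ∀ (v : E n → E m) (g : E n → Fin n → E m), VG v g → ∀ (x₀ : E n) (j : ℕ), ‖x₀‖ ≤ 2 →
      ∀ x ∈ rg x₀ j, ‖Mn μ x₀ j v - ubar φ v (j + 5) x‖ ≤
        C * (p2 j ^ (n - 1) * ∫ y in fr x₀ j, gn (g y)) := by
  obtain ⟨μ', hμ'⟩ := thin_ex n (by omega) (1 / 4) (by norm_num) le_rfl
  obtain ⟨C', hC', hb⟩ := rm_bd hμ' le_rfl
  obtain ⟨C1, hC1, H1⟩ := mn_diff n m (by omega)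
  obtain ⟨C2, hC2, H2⟩ := vw_L1 n m hn hφ
  obtain ⟨C3, hC3, H3⟩ := w_path n m hn hφ
  have hCC : 1 ≤ C' * C2 := one_le_mul_of_one_le_of_one_le hC' hC2
  refine ⟨C1 + C' * C2 + C3, by linarith, ?_⟩
  intro μ κ hκ hμ v g hv x₀ j hx₀ x hx
  have hp := (p2_succ j).2.1
  obtain ⟨I, hI⟩ : ∃ I : ℝ, I = ∫ y in fr x₀ j, gn (g y) := ⟨_, rfl⟩
  have d1 := H1 μ μ' κ (1 / 4) hκ le_rfl hμ hμ' v g hv x₀ j hx₀
  obtain ⟨i2, d2⟩ := H2 v g hv x₀ j hx₀
  have d3 := fun y hy => H3 v g hv x₀ j hx₀ y hy x hx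
  rw [← hI] at d2 ⊢
  simp only [← hI] at d3
  have hmono : ∫ y in rg x₀ j, gn (g y) ≤ I := by
    rw [hI]
    exact setIntegral_mono_set hv.int_g.integrableOn
      (Eventually.of_forall (fun y => Real.sqrt_nonneg _)) (LE.le.eventuallyLE (rm_sub x₀ j))
  have d1' : ‖Mn μ x₀ j v - Mn μ' x₀ j v‖ ≤ C1 * (p2 j ^ (n - 1) * I) :=
    d1.trans (mul_le_mul_of_nonneg_left (mul_le_mul_of_nonneg_left hmono (by positivity))
      (by linarith))
  obtain ⟨k1, k2, k3⟩ := rm_ker hμ' le_rfl x₀ j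
  have hki : Integrable (fun y => p2 j ^ n * μ' (p2 j • (y - x₀))) :=
    k1.integrable_of_hasCompactSupport k2
  obtain ⟨D, hD⟩ := k2.exists_bound_of_continuous k1
  have hkv : Integrable (fun y => (p2 j ^ n * μ' (p2 j • (y - x₀))) • v y) :=
    hv.int_v.bdd_smul D k1.aestronglyMeasurable (Eventually.of_forall hD)
  have hrg : MeasurableSet (rg x₀ j) := (rg_meas x₀ j).1
  have e1 : Mn μ' x₀ j v - ubar φ v (j + 5) x =
      ∫ y, (p2 j ^ n * μ' (p2 j • (y - x₀))) • (v y - ubar φ v (j + 5) x) := by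
    have e2 : ubar φ v (j + 5) x =
        ∫ y, (p2 j ^ n * μ' (p2 j • (y - x₀))) • ubar φ v (j + 5) x := by
      rw [integral_smul_const, rm_one hμ', one_smul]
    conv_lhs => rw [e2]
    unfold Mn
    rw [← integral_sub hkv (hki.smul_const _)]
    simp_rw [smul_sub]
  have i3 : Integrable ((rg x₀ j).indicator
      (fun y => C' * p2 j ^ n * ‖v y - ubar φ v (j + 5) y‖)) :=
    (integrable_indicator_iff hrg).2 (i2.const_mul _)
  have d4 : ‖Mn μ' x₀ j v - ubar φ v (j + 5) x‖ ≤ (C' * C2 + C3) * (p2 j ^ (n - 1) * I) := by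
    rw [e1]
    refine (norm_integral_le_of_norm_le (i3.add (hki.mul_const (C3 * (p2 j ^ (n - 1) * I))))
      (Eventually.of_forall (fun y => ?_))).trans ?_
    · rw [Pi.add_apply]
      by_cases hy : y ∈ rg x₀ j
      · rw [indicator_of_mem hy, norm_smul, Real.norm_of_nonneg
          (mul_nonneg (by positivity) (hμ'.nonneg _))]
        have e5 : v y - ubar φ v (j + 5) x = (v y - ubar φ v (j + 5) y) +
          (ubar φ v (j + 5) y - ubar φ v (j + 5) x) := by abel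
        rw [e5]
        have h6 : 0 ≤ p2 j ^ n * μ' (p2 j • (y - x₀)) :=
          mul_nonneg (by positivity) (hμ'.nonneg _)
        have h7 : p2 j ^ n * μ' (p2 j • (y - x₀)) ≤ C' * p2 j ^ n := by
          rw [mul_comm C']
          exact mul_le_mul_of_nonneg_left (hb _) (by positivity)
        calc p2 j ^ n * μ' (p2 j • (y - x₀)) * ‖(v y - ubar φ v (j + 5) y) +
              (ubar φ v (j + 5) y - ubar φ v (j + 5) x)‖
            ≤ p2 j ^ n * μ' (p2 j • (y - x₀)) * (‖v y - ubar φ v (j + 5) y‖ +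
              ‖ubar φ v (j + 5) y - ubar φ v (j + 5) x‖) :=
              mul_le_mul_of_nonneg_left (norm_add_le _ _) h6
          _ = p2 j ^ n * μ' (p2 j • (y - x₀)) * ‖v y - ubar φ v (j + 5) y‖ +
              p2 j ^ n * μ' (p2 j • (y - x₀)) * ‖ubar φ v (j + 5) y - ubar φ v (j + 5) x‖ := by
              ring
          _ ≤ C' * p2 j ^ n * ‖v y - ubar φ v (j + 5) y‖ +
              p2 j ^ n * μ' (p2 j • (y - x₀)) * (C3 * (p2 j ^ (n - 1) * I)) :=
              add_le_add (mul_le_mul_of_nonneg_right h7 (norm_nonneg _))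
                (mul_le_mul_of_nonneg_left (d3 y hy) h6)
      · rw [indicator_of_notMem hy, k3 y hy, mul_zero, zero_smul, norm_zero, zero_mul, add_zero]
    · simp only [Pi.add_apply]
      rw [integral_add i3 (hki.mul_const _), integral_indicator hrg, integral_const_mul,
        integral_mul_const, rm_one hμ', one_mul]
      have h8 : C' * (p2 j ^ n * ∫ y in rg x₀ j, ‖v y - ubar φ v (j + 5) y‖) ≤
          C' * (C2 * (p2 j ^ (n - 1) * I)) := mul_le_mul_of_nonneg_left d2 (by linarith)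
      calc _ = C' * (p2 j ^ n * ∫ y in rg x₀ j, ‖v y - ubar φ v (j + 5) y‖) +
            C3 * (p2 j ^ (n - 1) * I) := by ring
        _ ≤ C' * (C2 * (p2 j ^ (n - 1) * I)) + C3 * (p2 j ^ (n - 1) * I) := by linarith
        _ = _ := by ring
  have e6 : Mn μ x₀ j v - ubar φ v (j + 5) x = (Mn μ x₀ j v - Mn μ' x₀ j v) +
      (Mn μ' x₀ j v - ubar φ v (j + 5) x) := by abel
  rw [e6]
  refine (norm_add_le _ _).trans ?_
  linarith

theorem ring_mean2 (n m : ℕ) (hn : 3 ≤ n) {φ : E n → ℝ} {Θ : Fin n → E n → ℝ} {M : ℝ}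
    (hφ : Moll φ Θ M) : ∃ C : ℝ, 1 ≤ C ∧ ∀ (μ : E n → ℝ) (κ : ℝ), κ ≤ 1 / 4 → Thin μ κ →
    ∀ (v : E n → E m) (g : E n → Fin n → E m), VG v g → ∀ (x₀ : E n) (j : ℕ), ‖x₀‖ ≤ 2 →
      ‖Mn μ x₀ j v - Mn μ x₀ (j + 1) v‖ ≤
        C * (p2 j ^ (n - 1) * ∫ y in fr x₀ j ∪ fr x₀ (j + 1), gn (g y)) := by
  obtain ⟨C1, hC1, H1⟩ := ring_mean1 n m hn hφ
  have hM := hφ.one_le
  have hn1 : (1 : ℝ) ≤ n := by exact_mod_cast (by omega : 1 ≤ n)
  have h2 : (1 : ℝ) ≤ 2 ^ (n - 1) := one_le_pow₀ (by norm_num)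
  have h32 : (1 : ℝ) ≤ 32 ^ (n - 1) := one_le_pow₀ (by norm_num)
  have hnM : 1 ≤ (n : ℝ) * M := one_le_mul_of_one_le_of_one_le hn1 hM
  refine ⟨C1 + C1 * 2 ^ (n - 1) + n * M * 32 ^ (n - 1), ?_, ?_⟩
  · have a1 : 1 ≤ C1 * 2 ^ (n - 1) := one_le_mul_of_one_le_of_one_le hC1 h2
    have a2 : 1 ≤ n * M * 32 ^ (n - 1) := one_le_mul_of_one_le_of_one_le hnM h32
    linarith
  intro μ κ hκ hμ v g hv x₀ j hx₀
  obtain ⟨hp1, hp, -⟩ := p2_succ j
  obtain ⟨I, hI⟩ : ∃ I : ℝ, I = ∫ y in fr x₀ j ∪ fr x₀ (j + 1), gn (g y) := ⟨_, rfl⟩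
  rw [← hI]
  have hpos : ∀ᵐ y : E n, 0 ≤ gn (g y) := Eventually.of_forall (fun y => Real.sqrt_nonneg _)
  have m1 : ∫ y in fr x₀ j, gn (g y) ≤ I := by
    rw [hI]
    exact setIntegral_mono_set hv.int_g.integrableOn
      (Eventually.of_forall (fun y => Real.sqrt_nonneg _)) (LE.le.eventuallyLE subset_union_left)
  have m2 : ∫ y in fr x₀ (j + 1), gn (g y) ≤ I := by
    rw [hI]
    exact setIntegral_mono_set hv.int_g.integrableOn
      (Eventually.of_forall (fun y => Real.sqrt_nonneg _)) (LE.le.eventuallyLE subset_union_right)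
  have hI0 : 0 ≤ I := by
    rw [hI]
    exact integral_nonneg (fun y => Real.sqrt_nonneg _)
  -- the point
  obtain ⟨x, hx⟩ : ∃ x : E n, ‖x - x₀‖ = 1 / p2 j := by
    refine ⟨x₀ + (1 / p2 j) • (ev ⟨0, by omega⟩ : E n), ?_⟩
    rw [add_sub_cancel_left, norm_smul, Real.norm_of_nonneg (by positivity)]
    unfold ev
    rw [PiLp.norm_single, norm_one, mul_one]
  have hxj : x ∈ rg x₀ j := by
    refine ⟨hx.ge, hx.le.trans ?_⟩
    exact div_le_div_of_nonneg_right (by norm_num) hp.le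
  have hxj1 : x ∈ rg x₀ (j + 1) := by
    refine ⟨?_, ?_⟩
    · rw [hx, hp1]
      exact one_div_le_one_div_of_le hp (by linarith)
    · rw [hx, hp1]
      apply le_of_eq
      field_simp
  have d1 := H1 μ κ hκ hμ v g hv x₀ j hx₀ x hxj
  have d2 := H1 μ κ hκ hμ v g hv x₀ (j + 1) hx₀ x hxj1
  have d3 := w_inc (by omega) hφ hv x₀ j hx₀ x hxj (j + 1 + 5) (by omega)
  have hps : ps (gr g x₀ j univ) (j + 1 + 5) (j + 5) x ≤ 32 ^ (n - 1) * (p2 j ^ (n - 1) * I) := by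
    have e1 : ps (gr g x₀ j univ) (j + 1 + 5) (j + 5) x = pw (gr g x₀ j univ) (j + 5) x := by
      unfold ps
      have e2 : j + 1 + 5 = (j + 5) + 1 := by omega
      rw [e2, Nat.Ico_succ_singleton, Finset.sum_singleton]
    rw [e1]
    unfold pw
    rw [gr_pw g x₀ j x hxj (j + 5) le_rfl]
    have e3 : p2 (j + 5) ^ (n - 1) = 32 ^ (n - 1) * p2 j ^ (n - 1) := by
      rw [← mul_pow]
      congr 1
      unfold p2
      rw [pow_add]
      ring
    have e4 : ∫ y in ball x (1 / p2 (j + 5)), gn (g y) ≤ I := by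
      refine le_trans ?_ m1
      refine setIntegral_mono_set hv.int_g.integrableOn
        (Eventually.of_forall (fun y => Real.sqrt_nonneg _))
        (LE.le.eventuallyLE (fr_ball x₀ j x ?_ ?_ (j + 5) le_rfl))
      · rw [hx, div_le_div_iff₀ (by positivity) hp]
        linarith
      · rw [hx, div_le_div_iff₀ hp hp]
        linarith
    rw [e3, mul_assoc]
    exact mul_le_mul_of_nonneg_left (mul_le_mul_of_nonneg_left e4 (by positivity)) (by positivity)
  have d1' : ‖Mn μ x₀ j v - ubar φ v (j + 5) x‖ ≤ C1 * (p2 j ^ (n - 1) * I) :=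
    d1.trans (mul_le_mul_of_nonneg_left (mul_le_mul_of_nonneg_left m1 (by positivity))
      (by linarith))
  have d2' : ‖Mn μ x₀ (j + 1) v - ubar φ v (j + 1 + 5) x‖ ≤
      C1 * 2 ^ (n - 1) * (p2 j ^ (n - 1) * I) := by
    refine d2.trans ?_
    rw [hp1, mul_pow]
    calc C1 * (2 ^ (n - 1) * p2 j ^ (n - 1) * ∫ y in fr x₀ (j + 1), gn (g y))
        ≤ C1 * (2 ^ (n - 1) * p2 j ^ (n - 1) * I) :=
          mul_le_mul_of_nonneg_left (mul_le_mul_of_nonneg_left m2 (by positivity)) (by linarith)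
      _ = _ := by ring
  have d3' : ‖ubar φ v (j + 1 + 5) x - ubar φ v (j + 5) x‖ ≤
      n * M * 32 ^ (n - 1) * (p2 j ^ (n - 1) * I) := by
    refine d3.trans ?_
    calc n * M * ps (gr g x₀ j univ) (j + 1 + 5) (j + 5) x
        ≤ n * M * (32 ^ (n - 1) * (p2 j ^ (n - 1) * I)) :=
          mul_le_mul_of_nonneg_left hps (by linarith)
      _ = _ := by ring
  have e6 : Mn μ x₀ j v - Mn μ x₀ (j + 1) v = (Mn μ x₀ j v - ubar φ v (j + 5) x) -
      (Mn μ x₀ (j + 1) v - ubar φ v (j + 1 + 5) x) -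
      (ubar φ v (j + 1 + 5) x - ubar φ v (j + 5) x) := by abel
  rw [e6]
  have t1 := norm_sub_le ((Mn μ x₀ j v - ubar φ v (j + 5) x) -
      (Mn μ x₀ (j + 1) v - ubar φ v (j + 1 + 5) x)) (ubar φ v (j + 1 + 5) x - ubar φ v (j + 5) x)
  have t2 := norm_sub_le (Mn μ x₀ j v - ubar φ v (j + 5) x)
      (Mn μ x₀ (j + 1) v - ubar φ v (j + 1 + 5) x)
  linarith

end H28NP
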