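import Pool.Agent.H28.NP.RadPrim

/-!
# [H28 NP RADPOT] A bounded radial field whose divergence is the difference of two radial densities

`K`, `k` from `rad_prim`. Put `h t = K t / t^n` for `t ≠ 0` (real division: `K t * (t ^ n)⁻¹`) and
`Ψ i x = x i * h ‖x‖`. Since `K = 0` on `(-∞, 5/4]`, `Ψ i` vanishes on the open set `{‖x‖ < 5/4}`, and on the open set
`{x ≠ 0}` it is smooth (`contDiffAt_norm`, `K` smooth, `‖x‖ ≠ 0`), so smooth. Zero for `‖x‖ ≤ 5/4` and for `‖x‖ ≥ 7/4`.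
Bound: `|x i| ≤ ‖x‖`, `‖x‖ ≥ 5/4`: `|Ψ i x| ≤ |K| ‖x‖^(1-n) ≤ 1/(n vb n)`. Take `C = max 1 (1/(n vb n))`.

Divergence at `x` with `‖x‖ < 5/4`: `Ψ i = 0` near `x`, so `0`, and `μ x = μ' x = 0` by `supp` (`|‖x‖ - 3/2| > 1/4`). At `x`
with `‖x‖ ≥ 5/4`: put `r = ‖x‖`; the norm has the derivative `e ↦ ⟨x, e⟩ / r` at `x` (e.g. from `hasStrictFDerivAt_norm_sq`
and the square root, or `HasFDerivAt.norm`), so `∂_i (h ‖·‖)(x) = h'(r) x_i / r` and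
`∑ ∂_i Ψ_i = n h(r) + ∑ x_i^2 h'(r)/r = n h(r) + r h'(r)`, with `h'(r) = k(r)/r^n - n K(r)/r^(n+1)`: total
`k(r) r^(1-n) = μ x - μ' x` by the last field of `rad_prim`. (`∑ x_i^2 = r^2`: `EuclideanSpace.norm_sq_eq` or
`real_norm_sq_eq`; `ev i = EuclideanSpace.single i 1`.)
-/

set_option autoImplicit false

namespace H28NP

open H60NH H60NT MeasureTheory Metric Set Filter Topology
open scoped ENNReal NNReal ContDiff

private theorem rp_norm {n : ℕ} (x : E n) (hx : x ≠ 0) :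
    HasFDerivAt (fun y : E n => ‖y‖) ((‖x‖)⁻¹ • (innerSL ℝ x)) x := by
  have h0 : ‖x‖ ≠ 0 := norm_ne_zero_iff.2 hx
  have h1 : HasFDerivAt (fun y : E n => ‖y‖ ^ 2) (2 • (innerSL ℝ x)) x :=
    (hasStrictFDerivAt_norm_sq x).hasFDerivAt
  have h2 := h1.sqrt (by positivity)
  have h3 : (fun y : E n => Real.sqrt (‖y‖ ^ 2)) = fun y => ‖y‖ := by
    funext y
    exact Real.sqrt_sq (norm_nonneg _)
  rw [h3] at h2
  refine h2.congr_fderiv ?_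
  rw [Real.sqrt_sq (norm_nonneg _)]
  ext y
  simp only [smul_apply, smul_eq_mul, nsmul_eq_mul, Nat.cast_ofNat]
  field_simp

private theorem rp_proj {n : ℕ} (i : Fin n) (x : E n) :
    HasFDerivAt (fun y : E n => y i) (EuclideanSpace.proj i : E n →L[ℝ] ℝ) x :=
  (EuclideanSpace.proj i : E n →L[ℝ] ℝ).hasFDerivAt

theorem rad_pot (n : ℕ) (hn : 1 ≤ n) : ∃ C : ℝ, 1 ≤ C ∧ ∀ (μ μ' : E n → ℝ) (κ κ' : ℝ),
    κ ≤ 1 / 4 → κ' ≤ 1 / 4 → Thin μ κ → Thin μ' κ' →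
    ∃ Ψ : Fin n → E n → ℝ, (∀ i, ContDiff ℝ ∞ (Ψ i)) ∧
      (∀ i x, (‖x‖ ≤ 5 / 4 ∨ 7 / 4 ≤ ‖x‖) → Ψ i x = 0) ∧ (∀ i x, |Ψ i x| ≤ C) ∧
      ∀ x, ∑ i, fderiv ℝ (Ψ i) x (ev i) = μ x - μ' x := by
  have hvb := vb_pos n
  have hn0 : (0 : ℝ) < n := by exact_mod_cast hn
  refine ⟨max 1 (1 / (n * vb n)), le_max_left _ _, ?_⟩
  intro μ μ' κ κ' hκ hκ' hμ hμ'
  obtain ⟨K, k, hK, hk, hK1, hK2, hK3, hK4⟩ := rad_prim n hn μ μ' κ κ' hκ hκ' hμ hμ'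
  have hz : ∀ (i : Fin n) (x : E n), ‖x‖ ≤ 5 / 4 ∨ 7 / 4 ≤ ‖x‖ →
      x i * (K ‖x‖ * (‖x‖ ^ n)⁻¹) = 0 := by
    intro i x hx
    rcases hx with hx | hx
    · rw [hK1 _ hx, zero_mul, mul_zero]
    · rw [hK2 _ hx, zero_mul, mul_zero]
  have hev : ∀ (i : Fin n) (x : E n), ‖x‖ < 5 / 4 →
      (fun y : E n => y i * (K ‖y‖ * (‖y‖ ^ n)⁻¹)) =ᶠ[𝓝 x] fun _ => 0 := by
    intro i x hx
    have h1 : ∀ᶠ y : E n in 𝓝 x, ‖y‖ < 5 / 4 :=
      (continuous_norm.tendsto x).eventually (gt_mem_nhds hx)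
    filter_upwards [h1] with y hy
    exact hz i y (Or.inl hy.le)
  refine ⟨fun i x => x i * (K ‖x‖ * (‖x‖ ^ n)⁻¹), ?_, ?_, ?_, ?_⟩
  · intro i
    rw [contDiff_iff_contDiffAt]
    intro x
    rcases lt_or_ge ‖x‖ (5 / 4) with hx | hx
    · exact contDiffAt_const.congr_of_eventuallyEq (hev i x hx)
    · have hx0 : x ≠ 0 := by
        rintro rfl
        rw [norm_zero] at hx
        linarith
      have hn1 : ‖x‖ ^ n ≠ 0 := pow_ne_zero _ (norm_ne_zero_iff.2 hx0)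
      have c1 : ContDiffAt ℝ ∞ (fun y : E n => ‖y‖) x := contDiffAt_norm ℝ hx0
      have c2 : ContDiffAt ℝ ∞ (fun y : E n => K ‖y‖) x := hK.contDiffAt.comp x c1
      have c3 : ContDiffAt ℝ ∞ (fun y : E n => y i) x :=
        (EuclideanSpace.proj i : E n →L[ℝ] ℝ).contDiff.contDiffAt
      exact c3.mul (c2.mul ((c1.pow n).inv hn1))
  · exact hz
  · intro i x
    by_cases hx : ‖x‖ ≤ 5 / 4
    · have := hz i x (Or.inl hx)
      simp only [this, abs_zero]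
      positivity
    · rw [not_le] at hx
      have hx0 : 0 < ‖x‖ := by linarith
      have h1 : |x i| ≤ ‖x‖ := PiLp.norm_apply_le x i
      have h2 := hK3 ‖x‖
      have h3 : |(‖x‖ ^ n)⁻¹| = (‖x‖ ^ n)⁻¹ := abs_of_nonneg (by positivity)
      rw [abs_mul, abs_mul, h3]
      have h4 : ‖x‖ * (‖x‖ ^ n)⁻¹ ≤ 1 := by
        rw [← div_eq_mul_inv, div_le_one (by positivity)]
        calc ‖x‖ = ‖x‖ ^ 1 := (pow_one _).symm
          _ ≤ ‖x‖ ^ n := pow_le_pow_right₀ (by linarith) hn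
      calc |x i| * (|K ‖x‖| * (‖x‖ ^ n)⁻¹) ≤ ‖x‖ * (1 / (n * vb n) * (‖x‖ ^ n)⁻¹) := by
            refine mul_le_mul h1 ?_ (by positivity) hx0.le
            exact mul_le_mul_of_nonneg_right h2 (by positivity)
        _ = 1 / (n * vb n) * (‖x‖ * (‖x‖ ^ n)⁻¹) := by ring
        _ ≤ 1 / (n * vb n) * 1 := mul_le_mul_of_nonneg_left h4 (by positivity)
        _ ≤ max 1 (1 / (n * vb n)) := by rw [mul_one]; exact le_max_right _ _
  · intro x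
    rcases lt_or_ge ‖x‖ (5 / 4) with hx | hx
    · have h1 : ∀ i ∈ (Finset.univ : Finset (Fin n)),
          fderiv ℝ (fun y : E n => y i * (K ‖y‖ * (‖y‖ ^ n)⁻¹)) x (ev i) = 0 := by
        intro i _
        rw [(hev i x hx).fderiv_eq]
        simp
      rw [Finset.sum_eq_zero h1]
      have h2 : κ < |‖x‖ - 3 / 2| := by rw [lt_abs]; right; linarith
      have h3 : κ' < |‖x‖ - 3 / 2| := by rw [lt_abs]; right; linarith
      rw [hμ.supp x h2, hμ'.supp x h3, sub_zero]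
    · have hx0 : x ≠ 0 := by
        rintro rfl
        rw [norm_zero] at hx
        linarith
      have hr : 0 < ‖x‖ := by linarith
      have hrn : ‖x‖ ^ n ≠ 0 := by positivity
      have d1 : HasDerivAt (fun t : ℝ => K t * (t ^ n)⁻¹)
          (k ‖x‖ * (‖x‖ ^ n)⁻¹ + K ‖x‖ * (-(n * ‖x‖ ^ (n - 1)) / (‖x‖ ^ n) ^ 2)) ‖x‖ :=
        (hk ‖x‖).mul ((hasDerivAt_pow n ‖x‖).inv hrn)
      have d2 : HasFDerivAt (fun y : E n => K ‖y‖ * (‖y‖ ^ n)⁻¹)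
          ((k ‖x‖ * (‖x‖ ^ n)⁻¹ + K ‖x‖ * (-(n * ‖x‖ ^ (n - 1)) / (‖x‖ ^ n) ^ 2)) •
            ((‖x‖)⁻¹ • (innerSL ℝ x))) x :=
        d1.comp_hasFDerivAt x (rp_norm x hx0)
      set h' : ℝ := k ‖x‖ * (‖x‖ ^ n)⁻¹ + K ‖x‖ * (-(n * ‖x‖ ^ (n - 1)) / (‖x‖ ^ n) ^ 2) with hh'
      have d3 : ∀ i : Fin n, fderiv ℝ (fun y : E n => y i * (K ‖y‖ * (‖y‖ ^ n)⁻¹)) x (ev i) =
          K ‖x‖ * (‖x‖ ^ n)⁻¹ + x i ^ 2 * (h' * (‖x‖)⁻¹) := by
        intro i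
        have d4 := ((rp_proj i x).mul d2).fderiv
        have d5 : fderiv ℝ (fun y : E n => y i * (K ‖y‖ * (‖y‖ ^ n)⁻¹)) x =
          x i • (h' • ((‖x‖)⁻¹ • (innerSL ℝ x))) +
            (K ‖x‖ * (‖x‖ ^ n)⁻¹) • (EuclideanSpace.proj i : E n →L[ℝ] ℝ) := d4
        rw [d5]
        have e1 : inner ℝ x (ev i : E n) = x i := by
          unfold ev
          rw [EuclideanSpace.inner_single_right]
          simp
        have e2 : (EuclideanSpace.proj i : E n →L[ℝ] ℝ) (ev i) = 1 := by simp [ev]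
        simp only [add_apply, smul_apply, smul_eq_mul,
          innerSL_apply_apply, e1, e2]
        ring
      rw [Finset.sum_congr rfl (fun i _ => d3 i), Finset.sum_add_distrib, Finset.sum_const,
        Finset.card_univ, Fintype.card_fin, nsmul_eq_mul, ← Finset.sum_mul]
      have e3 : ∑ i, x i ^ 2 = ‖x‖ ^ 2 := by
        rw [EuclideanSpace.norm_sq_eq]
        exact Finset.sum_congr rfl (fun i _ => by rw [Real.norm_eq_abs, sq_abs])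
      rw [e3, hh']
      have e4 : μ x - μ' x = k ‖x‖ / ‖x‖ ^ (n - 1) := by
        rw [hK4 x]
        have : ‖x‖ ^ (n - 1) ≠ 0 := by positivity
        field_simp
      rw [e4]
      obtain ⟨l, rfl⟩ : ∃ l, n = l + 1 := ⟨n - 1, by omega⟩
      rw [Nat.add_sub_cancel]
      have : ‖x‖ ≠ 0 := hr.ne'
      field_simp
      ring

end H28NP
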