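import Pool.Agent.H28.NP.Def
import Pool.Agent.H60.NH.NInt

/-!
# [H28 NP RADPRIM] The primitive of the difference of two radial densities

Let `g`, `g'` be the profiles of `μ`, `μ'` (field `radial`). For `s ≥ 0` we have `g s = μ (s e)` for a unit vector `e`
(`n ≥ 1`), so `g s ≥ 0` and `g s = 0` for `0 ≤ s < 5/4` and `s > 7/4` (field `supp`, `κ ≤ 1/4`), by continuity also at the end
points; same for `g'`. Put `k s = s^(n-1) (g s - g' s)` for `s > 5/4`, `k s = 0` for `s ≤ 5/4`. `k` is smooth: near a point `s > 0`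
it is equal to `s^(n-1) (g s - g' s)` (both vanish on `(0, 5/4]`), near a point `s < 5/4` it is `0`. Put `K t = ∫ s in 1..t, k s`:
differentiable with derivative `k` (`intervalIntegral.integral_hasDerivAt_right`, `k` continuous), so
smooth (`contDiff_infty_iff_deriv`). `K t = 0` for `t ≤ 5/4` (the integrand vanishes).

Polar coordinates: `integral_fun_norm_addHaar` (with `E n` of dimension `n`): `1 = ∫ μ = n * vol(ball 0 1) * ∫ s in Ioi 0,
s^(n-1) g s`, and `vol(ball 0 1) = vb n` (`vol_ball`, file NInt). So `∫ s in Ioi 0, s^(n-1) g s = 1/(n vb n)`, same for `g'`.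
For `t ≥ 0` one has `K t = a t - a' t` with `a t = ∫ s in Ioc 0 t, s^(n-1) g s ∈ [0, 1/(n vb n)]`, same for `a'`: so
`|K t| ≤ 1/(n vb n)`. For `t ≥ 7/4`, `a t = a' t = 1/(n vb n)` and `K t = 0`.
-/

set_option autoImplicit false

namespace H28NP

open H60NH H60NT MeasureTheory Metric Set Filter Topology
open scoped ENNReal NNReal ContDiff

/-- facts on the profile of one thin density -/
private theorem rp_prof (n : ℕ) (hn : 1 ≤ n) (μ : E n → ℝ) (κ : ℝ) (hκ : κ ≤ 1 / 4)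
    (hμ : Thin μ κ) (g : ℝ → ℝ) (hg : ContDiff ℝ ∞ g) (hgμ : ∀ x, μ x = g ‖x‖) :
    (∀ s, 0 ≤ s → 0 ≤ g s) ∧ (∀ s, 0 ≤ s → s ≤ 5 / 4 → g s = 0) ∧
      (∀ s, 7 / 4 ≤ s → g s = 0) ∧
      IntegrableOn (fun s => s ^ (n - 1) * g s) (Ioi 0) ∧
      ∫ s in Ioi (0 : ℝ), s ^ (n - 1) * g s = 1 / (n * vb n) := by
  have hg0 : ∀ s, 0 ≤ s → g s = μ (s • (EuclideanSpace.single (⟨0, hn⟩ : Fin n) (1 : ℝ))) := by
    intro s hs
    rw [hgμ, norm_smul, EuclideanSpace.norm_single, norm_one, mul_one, Real.norm_of_nonneg hs]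
  have hgs : ∀ s, 0 ≤ s → 1 / 4 < |s - 3 / 2| → g s = 0 := by
    intro s hs h
    rw [hg0 s hs]
    refine hμ.supp _ ?_
    rw [norm_smul, EuclideanSpace.norm_single, norm_one, mul_one, Real.norm_of_nonneg hs]
    linarith
  have h1 : ∀ s, 0 ≤ s → 0 ≤ g s := fun s hs => by
    rw [hg0 s hs]
    exact hμ.nonneg _
  have hcl : IsClosed {s : ℝ | g s = 0} := isClosed_eq hg.continuous continuous_const
  have h2 : ∀ s, 0 ≤ s → s ≤ 5 / 4 → g s = 0 := by
    intro s hs hs'
    have h3 : Ico (0 : ℝ) (5 / 4) ⊆ {s : ℝ | g s = 0} := by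
      intro t ht
      refine hgs t ht.1 ?_
      rw [abs_of_neg (by linarith [ht.2])]
      linarith [ht.2]
    have h4 := closure_minimal h3 hcl
    rw [closure_Ico (by norm_num)] at h4
    exact h4 ⟨hs, hs'⟩
  have h3 : ∀ s, 7 / 4 ≤ s → g s = 0 := by
    intro s hs
    have h4 : Ioi (7 / 4 : ℝ) ⊆ {s : ℝ | g s = 0} := by
      intro t ht
      rw [mem_Ioi] at ht
      refine hgs t (by linarith) ?_
      rw [abs_of_pos (by linarith)]
      linarith
    have h5 := closure_minimal h4 hcl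
    rw [closure_Ioi] at h5
    exact h5 hs
  have hc : Continuous (fun s : ℝ => s ^ (n - 1) * g s) := (continuous_pow _).mul hg.continuous
  have h4 : IntegrableOn (fun s => s ^ (n - 1) * g s) (Ioi 0) := by
    have h5 : Ioi (0 : ℝ) = Ioc 0 2 ∪ Ioi 2 := (Ioc_union_Ioi_eq_Ioi (by norm_num)).symm
    rw [h5]
    refine IntegrableOn.union ?_ ?_
    · exact (hc.continuousOn.integrableOn_compact isCompact_Icc).mono_set Ioc_subset_Icc_self
    · refine (integrableOn_zero (ε' := ℝ)).congr_fun ?_ measurableSet_Ioi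
      intro s hs
      rw [mem_Ioi] at hs
      simp only
      rw [h3 s (by linarith), mul_zero]
  refine ⟨h1, h2, h3, h4, ?_⟩
  haveI : Nontrivial (E n) := ⟨⟨EuclideanSpace.single (⟨0, hn⟩ : Fin n) (1 : ℝ), 0, fun h => by
    have := congrArg norm h
    rw [EuclideanSpace.norm_single, norm_one, norm_zero] at this
    exact one_ne_zero this⟩⟩
  have h5 := integral_fun_norm_addHaar (μ := (volume : Measure (E n))) g
  have h6 : ∫ x : E n, g ‖x‖ = 1 := by
    rw [← hμ.int]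
    exact integral_congr_ae (Filter.Eventually.of_forall fun x => (hgμ x).symm)
  rw [h6, finrank_euclideanSpace_fin] at h5
  simp only [smul_eq_mul, nsmul_eq_mul] at h5
  have hvb := vb_pos n
  have h7 : (volume : Measure (E n)).real (ball 0 1) = vb n := rfl
  rw [h7] at h5
  have hn0 : (0 : ℝ) < n := by exact_mod_cast hn
  rw [eq_div_iff (by positivity)]
  linarith

theorem rad_prim (n : ℕ) (hn : 1 ≤ n) (μ μ' : E n → ℝ) (κ κ' : ℝ) (hκ : κ ≤ 1 / 4)
    (hκ' : κ' ≤ 1 / 4) (hμ : Thin μ κ) (hμ' : Thin μ' κ') :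
    ∃ K k : ℝ → ℝ, ContDiff ℝ ∞ K ∧ (∀ t, HasDerivAt K (k t) t) ∧
      (∀ t, t ≤ 5 / 4 → K t = 0) ∧ (∀ t, 7 / 4 ≤ t → K t = 0) ∧
      (∀ t, |K t| ≤ 1 / (n * vb n)) ∧
      ∀ x : E n, k ‖x‖ = ‖x‖ ^ (n - 1) * (μ x - μ' x) := by
  obtain ⟨g, hg, hgμ⟩ := hμ.radial
  obtain ⟨g', hg', hgμ'⟩ := hμ'.radial
  obtain ⟨a1, a2, a3, a4, a5⟩ := rp_prof n hn μ κ hκ hμ g hg hgμ
  obtain ⟨b1, b2, b3, b4, b5⟩ := rp_prof n hn μ' κ' hκ' hμ' g' hg' hgμ'
  obtain ⟨h, hh⟩ : ∃ h : ℝ → ℝ, ∀ s, h s = s ^ (n - 1) * (g s - g' s) := ⟨_, fun _ => rfl⟩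
  have hhs : ContDiff ℝ ∞ h := by
    rw [funext hh]
    exact (contDiff_id.pow _).mul (hg.sub hg')
  have hh0 : ∀ s, 0 ≤ s → s ≤ 5 / 4 → h s = 0 := by
    intro s h1 h2
    rw [hh, a2 s h1 h2, b2 s h1 h2, sub_zero, mul_zero]
  obtain ⟨k, hk⟩ : ∃ k : ℝ → ℝ, ∀ s, k s = if s ≤ 5 / 4 then 0 else h s := ⟨_, fun _ => rfl⟩
  have hkh : ∀ s, 0 ≤ s → k s = h s := by
    intro s hs
    rw [hk]
    split_ifs with h1
    · exact (hh0 s hs h1).symm
    · rfl
  have hk0 : ∀ s, s ≤ 5 / 4 → k s = 0 := fun s hs => by rw [hk, if_pos hs]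
  have hks : ContDiff ℝ ∞ k := by
    rw [contDiff_iff_contDiffAt]
    intro t
    rcases lt_or_ge 0 t with ht | ht
    · refine (hhs.contDiffAt (x := t)).congr_of_eventuallyEq ?_
      filter_upwards [Ioi_mem_nhds ht] with s hs
      exact hkh s (le_of_lt hs)
    · refine (contDiffAt_const (c := (0 : ℝ))).congr_of_eventuallyEq ?_
      filter_upwards [Iio_mem_nhds (show t < 5 / 4 by linarith)] with s hs
      exact hk0 s (le_of_lt hs)
  obtain ⟨K, hK⟩ : ∃ K : ℝ → ℝ, ∀ t, K t = ∫ s in (1 : ℝ)..t, k s := ⟨_, fun _ => rfl⟩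
  have hKd : ∀ t, HasDerivAt K (k t) t := by
    intro t
    rw [funext hK]
    exact (hks.continuous.integral_hasStrictDerivAt 1 t).hasDerivAt
  have hK0 : ∀ t, t ≤ 5 / 4 → K t = 0 := by
    intro t ht
    rw [hK, intervalIntegral.integral_congr (g := fun _ => (0 : ℝ)), intervalIntegral.integral_zero]
    intro s hs
    refine hk0 s ?_
    rcases le_total 1 t with h1 | h1
    · rw [uIcc_of_le h1] at hs
      linarith [hs.2]
    · rw [uIcc_of_ge h1] at hs
      linarith [hs.2]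
  have hn0 : (0 : ℝ) < n := by exact_mod_cast hn
  have hA0 : 0 ≤ 1 / (n * vb n) := by
    have := vb_pos n
    positivity
  -- the values for nonnegative times
  have hKt : ∀ t, 0 ≤ t → K t = (∫ s in Ioc 0 t, s ^ (n - 1) * g s) -
      ∫ s in Ioc 0 t, s ^ (n - 1) * g' s := by
    intro t ht
    have h1 : K t = ∫ s in (0 : ℝ)..t, k s := by
      have h2 := intervalIntegral.integral_add_adjacent_intervals (μ := volume) (f := k)
        (a := 0) (b := 1) (c := t) (hks.continuous.intervalIntegrable _ _)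
        (hks.continuous.intervalIntegrable _ _)
      have h3 : ∫ s in (0 : ℝ)..1, k s = 0 := by
        rw [intervalIntegral.integral_congr (g := fun _ => (0 : ℝ)),
          intervalIntegral.integral_zero]
        intro s hs
        rw [uIcc_of_le zero_le_one] at hs
        exact hk0 s (by linarith [hs.2])
      rw [h3, zero_add] at h2
      rw [hK, h2]
    rw [h1, intervalIntegral.integral_of_le ht, ← integral_sub
      (a4.mono_set Ioc_subset_Ioi_self) (b4.mono_set Ioc_subset_Ioi_self)]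
    refine setIntegral_congr_fun measurableSet_Ioc fun s hs => ?_
    rw [hkh s hs.1.le, hh]
    ring
  have hbd : ∀ (γ : ℝ → ℝ), (∀ s, 0 ≤ s → 0 ≤ γ s) →
      IntegrableOn (fun s => s ^ (n - 1) * γ s) (Ioi 0) →
      ∫ s in Ioi (0 : ℝ), s ^ (n - 1) * γ s = 1 / (n * vb n) → ∀ t,
      0 ≤ ∫ s in Ioc 0 t, s ^ (n - 1) * γ s ∧
        ∫ s in Ioc 0 t, s ^ (n - 1) * γ s ≤ 1 / (n * vb n) := by
    intro γ h1 h2 h3 t
    constructor
    · refine setIntegral_nonneg measurableSet_Ioc fun s hs => ?_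
      exact mul_nonneg (pow_nonneg hs.1.le _) (h1 s hs.1.le)
    · rw [← h3]
      refine setIntegral_mono_set h2 ?_ (Filter.Eventually.of_forall Ioc_subset_Ioi_self)
      rw [Filter.EventuallyLE, ae_restrict_iff' measurableSet_Ioi]
      refine Filter.Eventually.of_forall fun s hs => ?_
      rw [mem_Ioi] at hs
      exact mul_nonneg (pow_nonneg hs.le _) (h1 s hs.le)
  refine ⟨K, k, ?_, hKd, hK0, ?_, ?_, ?_⟩
  · rw [contDiff_infty_iff_deriv]
    refine ⟨fun t => (hKd t).differentiableAt, ?_⟩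
    have h1 : deriv K = k := funext fun t => (hKd t).deriv
    rw [h1]
    exact hks
  · intro t ht
    rw [hKt t (by linarith)]
    have h1 : ∀ (γ : ℝ → ℝ), (∀ s, 7 / 4 ≤ s → γ s = 0) →
        ∫ s in Ioc 0 t, s ^ (n - 1) * γ s = ∫ s in Ioi (0 : ℝ), s ^ (n - 1) * γ s := by
      intro γ hγ
      symm
      refine setIntegral_eq_of_subset_of_forall_sdiff_eq_zero measurableSet_Ioi
        Ioc_subset_Ioi_self ?_
      intro s hs
      have h2 : t < s := by
        by_contra h3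
        push Not at h3
        exact hs.2 ⟨hs.1, h3⟩
      rw [hγ s (by linarith), mul_zero]
    rw [h1 g a3, h1 g' b3, a5, b5, sub_self]
  · intro t
    rcases lt_or_ge t 0 with ht | ht
    · rw [hK0 t (by linarith), abs_zero]
      exact hA0
    · rw [hKt t ht, abs_le]
      obtain ⟨c1, c2⟩ := hbd g a1 a4 a5 t
      obtain ⟨d1, d2⟩ := hbd g' b1 b4 b5 t
      constructor <;> linarith
  · intro x
    rw [hkh _ (norm_nonneg x), hh, hgμ, hgμ']

end H28NP
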