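import Pool.Agent.H28.NP.FrBall
import Pool.Agent.H28.NP.PsLq
import Pool.Agent.H60.NH.MConv
import Pool.Agent.H60.NH.MSmooth

/-!
# [H28 NP VWFAT] Passage to the limit (Fatou)

`w = ubar φ v (j + 5)`. By `ubar_ae`, `ubar φ v K x → v x` for almost every `x` as `K → ∞`, so `‖ubar φ v K x - w x‖^q → ‖v x - w x‖^q`. By
`w_inc`, `‖ubar φ v K x - w x‖^q ≤ (n M ps … K (j+5) x)^q` for `x ∈ rg x₀ j`, `K ≥ j + 5`. Fatou (`lintegral_liminf_le` on the measure
restricted to `rg x₀ j`, functions `ENNReal.ofReal (‖ubar φ v K x - w x‖^q)`, measurable as `ubar` is continuous by `ubar_smooth`):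
`∫⁻ in rg, ofReal (‖v - w‖^q) ≤ liminf_K ∫⁻ in rg, ofReal ((n M)^q ps^q) ≤ ofReal ((n M)^q B)`, so integrable
(`v - w` is a.e. strongly measurable) and the bound.
-/

set_option autoImplicit false

namespace H28NP

open H60NH H60NT MeasureTheory Metric Set Filter Topology
open scoped ENNReal NNReal ContDiff

theorem vw_fatou {n m : ℕ} (hn : 1 ≤ n) {φ : E n → ℝ} {Θ : Fin n → E n → ℝ} {M : ℝ}
    (hφ : Moll φ Θ M) {v : E n → E m} {g : E n → Fin n → E m} (hv : VG v g) (x₀ : E n) (j : ℕ)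
    (hx₀ : ‖x₀‖ ≤ 2) (q : ℕ) (hq : 1 ≤ q) (B : ℝ)
    (hI : ∀ K, Integrable (fun x => ps (gr g x₀ j univ) K (j + 5) x ^ q))
    (hB : ∀ K, ∫ x, ps (gr g x₀ j univ) K (j + 5) x ^ q ≤ B) :
    IntegrableOn (fun x => ‖v x - ubar φ v (j + 5) x‖ ^ q) (rg x₀ j) ∧
      ∫ x in rg x₀ j, ‖v x - ubar φ v (j + 5) x‖ ^ q ≤ (n * M) ^ q * B := by
  have hM : 0 ≤ M := zero_le_one.trans hφ.one_le
  have hrg : MeasurableSet (rg x₀ j) := (rg_meas x₀ j).1
  set w : E n → E m := ubar φ v (j + 5) with hw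
  have hcu : ∀ K, Continuous (ubar φ v K) := fun K => (ubar_smooth hφ v hv.int_v K).continuous
  have hae : ∀ᵐ x ∂(volume.restrict (rg x₀ j)), Tendsto
      (fun K => ENNReal.ofReal (‖ubar φ v K x - w x‖ ^ q)) atTop
      (𝓝 (ENNReal.ofReal (‖v x - w x‖ ^ q))) := by
    refine ae_restrict_of_ae ?_
    filter_upwards [ubar_ae hφ v hv.int_v] with x hx
    exact ENNReal.tendsto_ofReal (((hx.sub_const (w x)).norm).pow q)
  have hpsn : ∀ K x, 0 ≤ ps (gr g x₀ j univ) K (j + 5) x := fun K x =>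
    ps_nonneg (fun y => gr_nonneg g x₀ j univ y) K (j + 5) x
  have hK : ∀ K, j + 5 ≤ K →
      ∫⁻ x in rg x₀ j, ENNReal.ofReal (‖ubar φ v K x - w x‖ ^ q) ≤
        ENNReal.ofReal ((n * M) ^ q * B) := by
    intro K hK
    calc ∫⁻ x in rg x₀ j, ENNReal.ofReal (‖ubar φ v K x - w x‖ ^ q)
        ≤ ∫⁻ x in rg x₀ j, ENNReal.ofReal ((n * M) ^ q * ps (gr g x₀ j univ) K (j + 5) x ^ q) := by
          refine setLIntegral_mono_ae' hrg (Eventually.of_forall (fun x hx => ?_))
          refine ENNReal.ofReal_le_ofReal ?_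
          rw [← mul_pow]
          exact pow_le_pow_left₀ (norm_nonneg _) (w_inc hn hφ hv x₀ j hx₀ x hx K hK) q
      _ ≤ ∫⁻ x, ENNReal.ofReal ((n * M) ^ q * ps (gr g x₀ j univ) K (j + 5) x ^ q) :=
          setLIntegral_le_lintegral _ _
      _ = ENNReal.ofReal (∫ x, (n * M) ^ q * ps (gr g x₀ j univ) K (j + 5) x ^ q) := by
          rw [ofReal_integral_eq_lintegral_ofReal ((hI K).const_mul _)
            (Eventually.of_forall (fun x => mul_nonneg (by positivity) (pow_nonneg (hpsn K x) q)))]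
      _ ≤ ENNReal.ofReal ((n * M) ^ q * B) := by
          rw [integral_const_mul]
          exact ENNReal.ofReal_le_ofReal (mul_le_mul_of_nonneg_left (hB K) (by positivity))
  have hB0 : 0 ≤ B := (integral_nonneg (fun x => pow_nonneg (hpsn 0 x) q)).trans (hB 0)
  have hfat : ∫⁻ x in rg x₀ j, ENNReal.ofReal (‖v x - w x‖ ^ q) ≤
      ENNReal.ofReal ((n * M) ^ q * B) := by
    calc ∫⁻ x in rg x₀ j, ENNReal.ofReal (‖v x - w x‖ ^ q)
        = ∫⁻ x in rg x₀ j, liminf (fun K => ENNReal.ofReal (‖ubar φ v K x - w x‖ ^ q)) atTop := by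
          refine lintegral_congr_ae ?_
          filter_upwards [hae] with x hx
          exact hx.liminf_eq.symm
      _ ≤ liminf (fun K => ∫⁻ x in rg x₀ j, ENNReal.ofReal (‖ubar φ v K x - w x‖ ^ q)) atTop := by
          refine lintegral_liminf_le (fun K => ?_)
          exact (((hcu K).sub (hcu (j + 5))).norm.pow q).measurable.ennreal_ofReal
      _ ≤ liminf (fun _ : ℕ => ENNReal.ofReal ((n * M) ^ q * B)) atTop := by
          refine liminf_le_liminf ?_
          filter_upwards [eventually_ge_atTop (j + 5)] with K hK'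
          exact hK K hK'
      _ = ENNReal.ofReal ((n * M) ^ q * B) := liminf_const _
  have hms : AEStronglyMeasurable (fun x => ‖v x - w x‖ ^ q) (volume.restrict (rg x₀ j)) :=
    ((hv.int_v.aestronglyMeasurable.sub (hcu (j + 5)).aestronglyMeasurable).norm.pow q).restrict
  have hnn : 0 ≤ᵐ[volume.restrict (rg x₀ j)] fun x => ‖v x - w x‖ ^ q :=
    Eventually.of_forall (fun x => pow_nonneg (norm_nonneg _) q)
  constructor
  · refine ⟨hms, ?_⟩
    rw [hasFiniteIntegral_iff_ofReal hnn]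
    exact hfat.trans_lt ENNReal.ofReal_lt_top
  · rw [integral_eq_lintegral_of_nonneg_ae hnn hms]
    exact ENNReal.toReal_le_of_le_ofReal (by positivity) hfat

end H28NP
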